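import Pool.Agent.Lib.MP_4e5fcd_ag.SW.B1
import Pool.Agent.Lib.MP_4e5fcd_ag.WH.C2a

/-!
# SW-C2a: from `t`-jets to `τ`-jets

Adapt WH-C2a (`constr_TS`, `cls_Sec_TS`; its auxiliary lemmas are private: copy them). `z` is the part
of `yy w M h γ` of degree `≤ K M`; the coefficients `v ≤ K M` of `sub h (arc z) q` and of
`sub h (yy w M h γ) q` agree for every `q` (`c2a_key` with the variable `s = X^h` added), and by
`expand_alongS` the coefficient `l` of `along (f b) γ` is the coefficient `v` of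
`sub h (yy w M h γ) (dfm w (d b) (f b))`, `v + h d_b = l M`, or `0` if `l M < h d_b`
(`low_coeffS`; there `η b l = 0` by `hη`; for `l M = h d_b`, `v = 0`).
`constr_TSS`: the coefficients of `sub h (arc z) q` are polynomials in `z` (as `CN.exists_alongPoly`:
`MvPolynomial.induction_on`, or: a polynomial with coefficients in `MvPolynomial (…) ℂ`, evaluate).
-/

open MvPolynomial

namespace MotMono
namespace WH

variable {N r : ℕ}

private theorem c2a_key {σ : Type} (a b : σ → Polynomial ℂ) (n : ℕ)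
    (h : ∀ i, (Polynomial.X : Polynomial ℂ) ^ n ∣ a i - b i) (f : MvPolynomial σ ℂ) :
    (Polynomial.X : Polynomial ℂ) ^ n ∣ aeval a f - aeval b f := by
  induction f using MvPolynomial.induction_on with
  | C c => simp
  | add p q hp hq =>
    rw [map_add, map_add]
    have := dvd_add hp hq
    refine this.trans (dvd_of_eq ?_)
    ring
  | mul_X p i hp =>
    rw [map_mul, map_mul, aeval_X, aeval_X]
    have : aeval a p * a i - aeval b p * b i =
        (aeval a p - aeval b p) * a i + aeval b p * (a i - b i) := by ring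
    rw [this]
    exact dvd_add (hp.mul_right _) ((h i).mul_left _)

private theorem c2a_coeff {p q : Polynomial ℂ} {n : ℕ}
    (h : (Polynomial.X : Polynomial ℂ) ^ n ∣ p - q) {l : ℕ} (hl : l < n) :
    p.coeff l = q.coeff l := by
  have := Polynomial.X_pow_dvd_iff.1 h l hl
  rw [Polynomial.coeff_sub] at this
  exact sub_eq_zero.1 this

private theorem c2a_dvd {p q : Polynomial ℂ} {n : ℕ} (h : ∀ l < n, p.coeff l = q.coeff l) :
    (Polynomial.X : Polynomial ℂ) ^ n ∣ p - q := by
  refine Polynomial.X_pow_dvd_iff.2 fun l hl => ?_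
  rw [Polynomial.coeff_sub, h l hl, sub_self]

/-- vanishing of coordinates is a constructible condition -/
private theorem c2a_constr_coord {σ : Type} [Finite σ] (P : σ → Prop) :
    Constr {x : σ → ℂ | ∀ q, P q → x q = 0} := by
  have h := CN.constr_zeroLocus {g : MvPolynomial σ ℂ | ∃ q, P q ∧ g = X q}
  have e : {x : σ → ℂ | ∀ g ∈ {g : MvPolynomial σ ℂ | ∃ q, P q ∧ g = X q}, eval x g = 0} =
      {x : σ → ℂ | ∀ q, P q → x q = 0} := by
    ext x
    simp only [Set.mem_ofPred_eq]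
    constructor
    · intro h q hq
      have := h _ ⟨q, hq, rfl⟩
      rwa [eval_X] at this
    · rintro h _ ⟨q, hq, rfl⟩
      rw [eval_X]
      exact h q hq
  rwa [e] at h


private theorem c2a_key1 (h : ℕ) (a b : Fin N → Polynomial ℂ) (n : ℕ)
    (hab : ∀ i, (Polynomial.X : Polynomial ℂ) ^ n ∣ a i - b i)
    (q : MvPolynomial (Fin (N + 1)) ℂ) :
    (Polynomial.X : Polynomial ℂ) ^ n ∣ sub h a q - sub h b q := by
  unfold sub
  refine c2a_key _ _ n (fun j => ?_) q
  induction j using Fin.cases with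
  | zero => rw [Fin.cons_zero, Fin.cons_zero, sub_self]; exact dvd_zero _
  | succ i => rw [Fin.cons_succ, Fin.cons_succ]; exact hab i

/-- the coefficients of `sub h (arc z) q` are polynomials in `z` -/
private theorem c2a_exists_subPoly {n : ℕ} (h : ℕ) (q : MvPolynomial (Fin (N + 1)) ℂ) (l : ℕ) :
    ∃ Q : MvPolynomial (Fin N × Fin n) ℂ, ∀ z : Fin N × Fin n → ℂ,
      eval z Q = (sub h (arc z) q).coeff l := by
  obtain ⟨F, hF⟩ : ∃ F : Fin (N + 1) → Polynomial (MvPolynomial (Fin N × Fin n) ℂ),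
      F = Fin.cons (Polynomial.X ^ h)
        (fun i => ∑ v : Fin n, Polynomial.C (X (i, v)) * Polynomial.X ^ (v : ℕ)) := ⟨_, rfl⟩
  refine ⟨((aeval F : MvPolynomial (Fin (N + 1)) ℂ →ₐ[ℂ] _) q).coeff l, fun z => ?_⟩
  obtain ⟨Φ, hΦ⟩ : ∃ Φ : Polynomial (MvPolynomial (Fin N × Fin n) ℂ) →ₐ[ℂ] Polynomial ℂ,
      Φ = Polynomial.mapAlgHom (MvPolynomial.aeval z) := ⟨_, rfl⟩
  have h1 : ∀ p, (Φ p).coeff l = eval z (p.coeff l) := by
    intro p
    rw [hΦ, Polynomial.coe_mapAlgHom, Polynomial.coeff_map]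
    rfl
  rw [← h1]
  have h2 : Φ ((aeval F : MvPolynomial (Fin (N + 1)) ℂ →ₐ[ℂ] _) q) = aeval (fun j => Φ (F j)) q := by
    rw [← AlgHom.comp_apply, comp_aeval]
  rw [h2, sub]
  congr 3
  funext j
  induction j using Fin.cases with
  | zero =>
    rw [hF, Fin.cons_zero, Fin.cons_zero, map_pow, hΦ, Polynomial.coe_mapAlgHom, Polynomial.map_X]
  | succ i =>
    rw [hF, Fin.cons_succ, Fin.cons_succ, map_sum, arc]
    refine Finset.sum_congr rfl fun v _ => ?_
    rw [map_mul, map_pow, hΦ, Polynomial.coe_mapAlgHom, Polynomial.map_X, Polynomial.map_C]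
    congr 2
    exact aeval_X _ _

private theorem c2a_constr_family {σ : Type} [Finite σ] {ι : Type} (P : ι → Prop)
    (Q : ι → MvPolynomial σ ℂ) (y : ι → ℂ) :
    Constr {x : σ → ℂ | ∀ a, P a → eval x (Q a) = y a} := by
  have h := CN.constr_zeroLocus {g : MvPolynomial σ ℂ | ∃ a, P a ∧ g = Q a - C (y a)}
  have e : {x : σ → ℂ | ∀ g ∈ {g : MvPolynomial σ ℂ | ∃ a, P a ∧ g = Q a - C (y a)},
      eval x g = 0} = {x : σ → ℂ | ∀ a, P a → eval x (Q a) = y a} := by
    ext x
    simp only [Set.mem_ofPred_eq]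
    constructor
    · intro h a ha
      have := h _ ⟨a, ha, rfl⟩
      rw [map_sub, eval_C] at this
      exact sub_eq_zero.1 this
    · rintro h _ ⟨a, ha, rfl⟩
      rw [map_sub, eval_C, h a ha, sub_self]
  rwa [e] at h

theorem constr_TSS {w : Fin N → ℕ} {d : Fin r → ℕ} {f : Fin r → MvPolynomial (Fin N) ℂ}
    {M h K : ℕ} {B : Finset (Fin r)} {S : Set (Fin N → ℂ)} (hS : Constr S) (η : Fin r → ℕ → ℂ) :
    Constr (TSS w d M f B S h K η) := by
  have h1 := hS.comp (σ := Fin N × Fin (K * M + 1)) (fun i => (i, 0))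
  have h2 := c2a_constr_coord (σ := Fin N × Fin (K * M + 1))
    (fun q => ¬ M ∣ (q.2 : ℕ) + h * w q.1)
  choose Q hQ using fun (b : Fin r) (v : ℕ) =>
    c2a_exists_subPoly (n := K * M + 1) h (dfm w (d b) (f b)) v
  have h3 := c2a_constr_family (σ := Fin N × Fin (K * M + 1)) (ι := Fin r × ℕ × ℕ)
    (fun a => a.1 ∈ B ∧ a.2.1 + h * d a.1 = a.2.2 * M ∧ a.2.2 < K)
    (fun a => Q a.1 a.2.1) (fun a => η a.1 a.2.2)
  have h4 := (h1.inter h2).inter h3
  have e : ({x : Fin N × Fin (K * M + 1) → ℂ | (fun j => x (j, 0)) ∈ S} ∩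
      {x : Fin N × Fin (K * M + 1) → ℂ | ∀ q, (¬ M ∣ (q.2 : ℕ) + h * w q.1) → x q = 0}) ∩
      {x : Fin N × Fin (K * M + 1) → ℂ | ∀ a : Fin r × ℕ × ℕ,
        (a.1 ∈ B ∧ a.2.1 + h * d a.1 = a.2.2 * M ∧ a.2.2 < K) →
        eval x (Q a.1 a.2.1) = η a.1 a.2.2} = TSS w d M f B S h K η := by
    ext z
    simp only [Set.mem_inter_iff, Set.mem_ofPred_eq, TSS]
    constructor
    · rintro ⟨⟨ha, hb⟩, hc⟩
      refine ⟨ha, fun i v hv => hb (i, v) hv, fun b hb v l hv hl => ?_⟩
      rw [← hQ]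
      exact hc (b, v, l) ⟨hb, hv, hl⟩
    · rintro ⟨ha, hb, hc⟩
      refine ⟨⟨ha, fun q hq => hb q.1 q.2 hq⟩, fun a hv => ?_⟩
      rw [hQ]
      exact hc a.1 hv.1 a.2.1 a.2.2 hv.2.1 hv.2.2
  rwa [e] at h4

theorem constr_SecS (w : Fin N → ℕ) (M : ℕ) (f : Fin r → MvPolynomial (Fin N) ℂ)
    (B : Finset (Fin r)) {S : Set (Fin N → ℂ)} (hS : Constr S) (h K n : ℕ) (η : Fin r → ℕ → ℂ) :
    Constr (SecS w M f B S h K n η) := by
  have h1 := hS.preimage (σ := Fin N × Fin (n + 1)) (fun i =>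
    if hq : M ∣ h * w i ∧ h * w i / M < n + 1 then X (i, ⟨h * w i / M, hq.2⟩) else 0)
  have h2 := c2a_constr_coord (σ := Fin N × Fin (n + 1))
    (fun q => (q.2 : ℕ) * M < h * w q.1)
  choose Q hQ using fun (b : Fin r) (l : ℕ) => CN.exists_alongPoly (n := n + 1) (f b) l
  have h3 := c2a_constr_family (σ := Fin N × Fin (n + 1)) (ι := Fin r × ℕ)
    (fun a => a.1 ∈ B ∧ a.2 < K) (fun a => Q a.1 a.2) (fun a => η a.1 a.2)
  have h4 := (h1.inter h2).inter h3
  have e : ({x : Fin N × Fin (n + 1) → ℂ | (fun j => eval x (if hq : M ∣ h * w j ∧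
        h * w j / M < n + 1 then X (j, ⟨h * w j / M, hq.2⟩) else 0)) ∈ S} ∩
      {x : Fin N × Fin (n + 1) → ℂ | ∀ q, ((q.2 : ℕ) * M < h * w q.1) → x q = 0}) ∩
      {x : Fin N × Fin (n + 1) → ℂ | ∀ a : Fin r × ℕ, (a.1 ∈ B ∧ a.2 < K) →
        eval x (Q a.1 a.2) = η a.1 a.2} = SecS w M f B S h K n η := by
    ext γ
    have hl : (fun j => eval γ (if hq : M ∣ h * w j ∧
        h * w j / M < n + 1 then X (j, ⟨h * w j / M, hq.2⟩) else 0)) = lead w M h γ := by
      funext j
      unfold lead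
      split_ifs with hq
      · rw [eval_X]
      · rw [map_zero]
    simp only [Set.mem_inter_iff, Set.mem_ofPred_eq, SecS]
    rw [hl]
    constructor
    · rintro ⟨⟨ha, hb⟩, hc⟩
      refine ⟨fun i v hv => hb (i, v) hv, ha, fun b hb v hv => ?_⟩
      rw [← hQ]
      exact hc (b, v) ⟨hb, hv⟩
    · rintro ⟨ha, hb, hc⟩
      refine ⟨⟨hb, fun q hq => ha q.1 q.2 hq⟩, fun a hv => ?_⟩
      rw [hQ]
      exact hc a.1 hv.1 a.2 hv.2
  rwa [e] at h4

/-- the `τ`-jet of a `t`-jet -/
private noncomputable def zz (w : Fin N → ℕ) (M h K : ℕ) {n : ℕ} (γ : Fin N × Fin (n + 1) → ℂ) :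
    Fin N × Fin (K * M + 1) → ℂ :=
  fun q => if hq : M ∣ (q.2 : ℕ) + h * w q.1 ∧ ((q.2 : ℕ) + h * w q.1) / M < n + 1 then
    γ (q.1, ⟨((q.2 : ℕ) + h * w q.1) / M, hq.2⟩) else 0

private theorem c2a_yy_coeff {w : Fin N → ℕ} {M h K n : ℕ} (hM : 0 < M)
    (γ : Fin N × Fin (n + 1) → ℂ) (i : Fin N) (v : ℕ)
    (hv : v < K * M + 1) : (arc (zz w M h K γ) i).coeff v = (yy w M h γ i).coeff v := by
  rw [a1_arc_coeff, dif_pos hv]
  unfold zz yy
  rw [Polynomial.finsetSum_coeff]
  have hterm : ∀ l : Fin (n + 1), (if h * w i ≤ (l : ℕ) * M then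
      Polynomial.C (γ (i, l)) * Polynomial.X ^ ((l : ℕ) * M - h * w i) else 0 : Polynomial ℂ).coeff v
      = if (l : ℕ) * M = v + h * w i then γ (i, l) else 0 := by
    intro l
    split_ifs with h1 h2 h2
    · rw [Polynomial.coeff_C_mul, Polynomial.coeff_X_pow, if_pos (by omega), mul_one]
    · rw [Polynomial.coeff_C_mul, Polynomial.coeff_X_pow, if_neg (by omega), mul_zero]
    · omega
    · rw [Polynomial.coeff_zero]
  rw [Finset.sum_congr rfl fun l _ => hterm l]
  dsimp only
  split_ifs with hq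
  · rw [Finset.sum_eq_single ⟨(v + h * w i) / M, hq.2⟩]
    · rw [if_pos (Nat.div_mul_cancel hq.1)]
    · intro l _ hl
      rw [if_neg]
      intro h1
      apply hl
      ext
      change (l : ℕ) = (v + h * w i) / M
      rw [← h1, Nat.mul_div_cancel _ hM]
    · intro h1
      exact absurd (Finset.mem_univ _) h1
  · rw [Finset.sum_eq_zero]
    intro l _
    rw [if_neg]
    intro h1
    apply hq
    refine ⟨⟨l, by rw [← h1, mul_comm]⟩, ?_⟩
    rw [← h1, Nat.mul_div_cancel _ hM]
    exact l.2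


/-- the coefficients of `dfm w δ g` along the `τ`-jet -/
private theorem c2a_along {w : Fin N → ℕ} {g : MvPolynomial (Fin N) ℂ} {δ : ℕ}
    (hg : ∀ m, coeff m g ≠ 0 → δ ≤ ∑ i, m i * w i) {M h K n : ℕ} (hM : 0 < M)
    (γ : Fin N × Fin (n + 1) → ℂ) (hL : Low w M h γ)
    (v l : ℕ) (hv : v < K * M + 1) (hvl : v + h * δ = l * M) :
    (sub h (arc (zz w M h K γ)) (dfm w δ g)).coeff v = (along g γ).coeff l := by
  have h1 : (sub h (arc (zz w M h K γ)) (dfm w δ g)).coeff v =
      (sub h (yy w M h γ) (dfm w δ g)).coeff v := by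
    refine c2a_coeff (n := K * M + 1) ?_ hv
    exact c2a_key1 h _ _ _ (fun i => c2a_dvd fun l hl => c2a_yy_coeff hM γ i l hl) _
  have h2 := congrArg (fun p => Polynomial.coeff p (v + h * δ)) (expand_alongS hg hM γ hL)
  simp only [Polynomial.coeff_X_pow_mul] at h2
  rw [h1, ← h2, hvl, Polynomial.coeff_expand_mul hM]

private theorem c2a_cond {w : Fin N → ℕ} {g : MvPolynomial (Fin N) ℂ} {δ : ℕ}
    (hg : ∀ m, coeff m g ≠ 0 → δ ≤ ∑ i, m i * w i) {M h K n : ℕ} (hM : 0 < M)
    (γ : Fin N × Fin (n + 1) → ℂ) (hL : Low w M h γ) (y : ℕ → ℂ)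
    (hy : ∀ l, l * M < h * δ → y l = 0) :
    (∀ l < K, (along g γ).coeff l = y l) ↔
      ∀ v l, v + h * δ = l * M → l < K →
        (sub h (arc (zz w M h K γ)) (dfm w δ g)).coeff v = y l := by
  constructor
  · intro h1 v l hv hl
    have h3 : l * M < K * M := Nat.mul_lt_mul_of_pos_right hl hM
    rw [c2a_along hg hM γ hL v l (by omega) hv]
    exact h1 l hl
  · intro h1 l hl
    rcases Nat.lt_or_ge (l * M) (h * δ) with h2 | h2
    · rw [hy l h2]
      exact low_coeffS hg hM γ hL l h2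
    · have h3 : l * M < K * M := Nat.mul_lt_mul_of_pos_right hl hM
      have h4 := h1 (l * M - h * δ) l (by omega) hl
      rwa [c2a_along hg hM γ hL _ l (by omega) (by omega)] at h4

/-- the free coordinates -/
private abbrev FF (w : Fin N → ℕ) (M h K n : ℕ) : Type :=
  {q : Fin N × Fin (n + 1) // h * w q.1 + K * M < (q.2 : ℕ) * M}

private theorem c2a_card (w : Fin N → ℕ) {M h K n : ℕ} (hM : 0 < M) :
    Fintype.card (FF w M h K n) = ∑ i, (n - h * w i / M - K) := by
  have e : FF w M h K n ≃ (Σ i : Fin N, Fin (n - h * w i / M - K)) :=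
    { toFun := fun q => ⟨q.1.1, ⟨n - (q.1.2 : ℕ), by
        obtain ⟨⟨i, l⟩, hq⟩ := q
        have hl := l.2
        simp only at hq ⊢
        have h1 : h * w i < ((l : ℕ) - K) * M := by
          rw [Nat.sub_mul]; omega
        have h2 := (Nat.div_lt_iff_lt_mul hM).2 h1
        generalize h * w i / M = a at *
        omega⟩⟩
      invFun := fun q => ⟨(q.1, ⟨n - (q.2 : ℕ), by omega⟩), by
        obtain ⟨i, l⟩ := q
        have hl := l.2
        simp only
        have h2 : h * w i / M < (n - (l : ℕ)) - K := by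
          generalize h * w i / M = a at *
          omega
        have h1 := (Nat.div_lt_iff_lt_mul hM).1 h2
        rw [Nat.sub_mul] at h1
        omega⟩
      left_inv := by
        rintro ⟨⟨i, l⟩, hq⟩
        apply Subtype.ext
        refine Prod.ext rfl ?_
        ext
        simp only
        omega
      right_inv := by
        rintro ⟨i, l⟩
        have hl : (l : ℕ) < n := lt_of_lt_of_le l.2 (le_trans (Nat.sub_le _ _) (Nat.sub_le _ _))
        refine Sigma.ext rfl ?_
        rw [heq_eq_eq]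
        ext
        simp only
        omega }
  rw [Fintype.card_congr e, Fintype.card_sigma]
  simp

theorem cls_SecS_TSS {w : Fin N → ℕ} {d : Fin r → ℕ} {f : Fin r → MvPolynomial (Fin N) ℂ}
    (hW : SWt w d f) {M h K n : ℕ} (hM : 0 < M) (hn : ∀ i, h * w i + K * M ≤ n * M)
    (B : Finset (Fin r)) {S : Set (Fin N → ℂ)} (hS : Constr S) (η : Fin r → ℕ → ℂ)
    (hη : ∀ b ∈ B, ∀ l, l * M < h * d b → η b l = 0) :
    cls (SecS w M f B S h K n η) =
      cls (TSS w d M f B S h K η) * LL ^ (∑ i, (n - h * w i / M - K)) := by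
  classical
  have hlt : ∀ i (v : Fin (K * M + 1)), ((v : ℕ) + h * w i) / M < n + 1 := by
    intro i v
    rw [Nat.div_lt_iff_lt_mul hM]
    have h1 := hn i
    have h2 := v.2
    have h3 : (n + 1) * M = n * M + M := by ring
    omega
  have hdiv : ∀ i, h * w i / M < n + 1 := by
    intro i
    have := hlt i 0
    simpa using this
  rw [← c2a_card w (h := h) (K := K) (n := n) hM, ← cls_univ (σ := FF w M h K n),
    ← cls_prodSet (constr_TSS hS η) constr_univ]
  refine cls_iso (constr_SecS w M f B hS h K n η) ((constr_TSS hS η).prodSet constr_univ) ?_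
  refine ⟨fun γ => Sum.elim (zz w M h K γ) (fun q : FF w M h K n => γ q.1),
    fun z q => if h1 : h * w q.1 ≤ (q.2 : ℕ) * M ∧ (q.2 : ℕ) * M ≤ h * w q.1 + K * M then
      z (Sum.inl (q.1, ⟨(q.2 : ℕ) * M - h * w q.1, by omega⟩))
      else if h2 : h * w q.1 + K * M < (q.2 : ℕ) * M then z (Sum.inr ⟨q, h2⟩) else 0,
    ?_, ?_, ?_, ?_, ?_, ?_⟩
  · intro s
    rcases s with q | q
    · simp only [Sum.elim_inl]
      unfold zz
      split_ifs with h1
      · exact regFun_coord _ _
      · exact regFun_const _ 0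
    · exact regFun_coord _ _
  · intro q
    dsimp only
    split_ifs with h1 h2
    · exact regFun_coord _ _
    · exact regFun_coord _ _
    · exact regFun_const _ 0
  · intro γ hγ
    obtain ⟨hL, hS', hB⟩ := hγ
    refine ⟨⟨?_, ?_, ?_⟩, Set.mem_univ _⟩
    · have : (fun i => (fun i => Sum.elim (zz w M h K γ) (fun q : FF w M h K n => γ q.1)
          (Sum.inl i)) (i, 0)) = lead w M h γ := by
        funext i
        simp only [Sum.elim_inl]
        unfold zz lead
        simp only [Fin.val_zero, zero_add]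
      rw [this]
      exact hS'
    · intro i v hv
      simp only [Sum.elim_inl]
      unfold zz
      rw [dif_neg]
      rintro ⟨h1, _⟩
      exact hv h1
    · intro b hb
      have := (c2a_cond (hW.ord b) hM γ hL (η b) (hη b hb)).1 (hB b hb)
      simpa only [Sum.elim_inl] using this
  · intro z hz
    obtain ⟨⟨hz1, hz2, hz3⟩, _⟩ := hz
    set γ : Fin N × Fin (n + 1) → ℂ := fun q =>
      if h1 : h * w q.1 ≤ (q.2 : ℕ) * M ∧ (q.2 : ℕ) * M ≤ h * w q.1 + K * M then
      z (Sum.inl (q.1, ⟨(q.2 : ℕ) * M - h * w q.1, by omega⟩))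
      else if h2 : h * w q.1 + K * M < (q.2 : ℕ) * M then z (Sum.inr ⟨q, h2⟩) else 0 with hγ
    have hzz : zz w M h K γ = fun q => z (Sum.inl q) := by
      funext q
      obtain ⟨i, v⟩ := q
      unfold zz
      have hv := v.2
      by_cases h1 : M ∣ (v : ℕ) + h * w i
      · rw [dif_pos ⟨h1, hlt i v⟩]
        have h2 : ((v : ℕ) + h * w i) / M * M = (v : ℕ) + h * w i := Nat.div_mul_cancel h1
        rw [hγ]
        simp only
        rw [dif_pos (by rw [h2]; omega)]
        congr 2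
        refine Prod.ext rfl ?_
        ext
        simp only
        omega
      · rw [dif_neg (fun h2 => h1 h2.1)]
        exact (hz2 i v h1).symm
    have hL : Low w M h γ := by
      intro i l hl
      rw [hγ]
      simp only
      rw [dif_neg (by omega), dif_neg (by omega)]
    refine ⟨hL, ?_, ?_⟩
    · have : lead w M h γ = fun i => z (Sum.inl (i, 0)) := by
        funext i
        have h3 := congrFun hzz (i, 0)
        rw [← h3]
        unfold zz lead
        simp only [Fin.val_zero, zero_add]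
      rw [this]
      exact hz1
    · intro b hb
      refine (c2a_cond (hW.ord b) hM γ hL (η b) (hη b hb)).2 ?_
      rw [hzz]
      exact hz3 b hb
  · intro γ hγ
    obtain ⟨hL, -, -⟩ := hγ
    funext q
    obtain ⟨i, l⟩ := q
    dsimp only
    split_ifs with h1 h2
    · simp only [Sum.elim_inl]
      unfold zz
      have h3 : (l : ℕ) * M - h * w i + h * w i = (l : ℕ) * M := by omega
      have h4 : ((l : ℕ) * M) / M = l := Nat.mul_div_cancel _ hM
      simp only [h3, h4]
      rw [dif_pos ⟨Dvd.intro_left (l : ℕ) rfl, l.2⟩]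
    · simp only [Sum.elim_inr]
    · exact (hL i l (by omega)).symm
  · intro z hz
    obtain ⟨⟨hz1, hz2, hz3⟩, _⟩ := hz
    funext s
    rcases s with q | q
    · obtain ⟨i, v⟩ := q
      have hv := v.2
      simp only [Sum.elim_inl]
      unfold zz
      by_cases h1 : M ∣ (v : ℕ) + h * w i
      · rw [dif_pos ⟨h1, hlt i v⟩]
        have h2 : ((v : ℕ) + h * w i) / M * M = (v : ℕ) + h * w i := Nat.div_mul_cancel h1
        simp only
        rw [dif_pos (by rw [h2]; omega)]
        congr 2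
        refine Prod.ext rfl ?_
        ext
        simp only
        omega
      · rw [dif_neg (fun h2 => h1 h2.1)]
        exact (hz2 i v h1).symm
    · obtain ⟨q, hq⟩ := q
      simp only [Sum.elim_inr]
      rw [dif_neg (by omega), dif_pos hq]

end WH
end MotMono
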