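import Pool.Agent.Lib.MP_4e5fcd_ag.SW.Base
import Pool.Agent.Lib.MP_4e5fcd_ag.WH.B1
import Pool.Agent.Lib.MP_4e5fcd_ag.WH.B3

/-!
# SW-B1: weighted order of non-homogeneous polynomials

`wt m = ∑ i, m i * w i`. `sub_dfm`: `sub h v (dfm w δ g) * X^(h δ) = aeval (fun i => X^(h w_i) * v i) g`
if all monomials of `g` have weight `≥ δ` (sum over monomials, as `aeval_weighted` in WH-B1; there is no
hypothesis of homogeneity; `h (wt m - δ) + h δ = h wt m`). `expand_alongS`: as `expand_along` in WH-B1.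
`low_coeffS`, `eq_coeffS`: compare coefficients; the constant coefficient of
`sub h v (dfm w δ g)`, `h ≥ 1`, is `eval (cons 0 (v ·).coeff 0) (dfm w δ g)` = value of the component
of weight `δ` (`eval_dfm`: the terms with `wt m > δ` contain `X 0`; `weightedHomogeneousComponent` is
the sum of the monomials with `weight w m = δ`, `Finsupp.weight_apply`). `xgrad_dfm`: the same for the
derivatives (`pderiv i.succ` does not touch `X 0`). `not_dvd_sub`: the coefficients `v` of
`sub h v' (dfm w δ g)` vanish for `M ∤ v + h δ` if `(v' i).coeff u = 0` for `M ∤ u + h w_i` (a term of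
the product of `τ^(h a)`, `a = wt m - δ`, and of the `v' i ^ m i`: the exponents are `≡ -h w_i`; for
instance the set of the `P : Polynomial ℂ` with `P.coeff v = 0` for `M ∤ v + h δ` is closed under sums,
and products add the `δ`). `Wt` of the initial forms: `weightedHomogeneousComponent_isWeightedHomogeneous`.
-/

open MvPolynomial

namespace MotMono
namespace WH

variable {N r : ℕ}

private theorem b1_weight (w : Fin N → ℕ) (m : Fin N →₀ ℕ) :
    Finsupp.weight w m = ∑ i, m i * w i := by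
  rw [Finsupp.weight_apply, Finsupp.sum_fintype _ _ (by simp)]
  simp

private theorem b1_prod (m : Fin N →₀ ℕ) :
    ∏ i : Fin N, (X i.succ : MvPolynomial (Fin (N + 1)) ℂ) ^ m i =
      rename Fin.succ (monomial m (1 : ℂ)) := by
  rw [monomial_eq, Finsupp.prod_fintype _ _ (by simp), C_1, one_mul, map_prod]
  refine Finset.prod_congr rfl fun i _ => ?_
  rw [map_pow, rename_X]

private theorem b1_lin (w : Fin N → ℕ) (δ : ℕ) (g : MvPolynomial (Fin N) ℂ)
    (hg : ∀ m, coeff m g ≠ 0 → δ ≤ ∑ i, m i * w i) (L : MvPolynomial (Fin N) ℂ →ₗ[ℂ] ℂ) :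
    ∑ m ∈ g.support, coeff m g * (0 : ℂ) ^ (∑ i, m i * w i - δ) * L (monomial m 1) =
      L (weightedHomogeneousComponent w δ g) := by
  classical
  rw [weightedHomogeneousComponent_apply, map_sum, Finset.sum_filter]
  refine Finset.sum_congr rfl fun m hm => ?_
  have h1 := hg m (mem_support_iff.1 hm)
  rw [b1_weight]
  split_ifs with h2
  · rw [h2, Nat.sub_self, pow_zero, mul_one]
    have h3 : (monomial m (coeff m g) : MvPolynomial (Fin N) ℂ) = coeff m g • monomial m 1 := by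
      rw [smul_monomial, smul_eq_mul, mul_one]
    rw [h3, map_smul, smul_eq_mul]
  · rw [zero_pow (by omega), mul_zero, zero_mul]

theorem eval_dfm (w : Fin N → ℕ) (δ : ℕ) (g : MvPolynomial (Fin N) ℂ)
    (hg : ∀ m, coeff m g ≠ 0 → δ ≤ ∑ i, m i * w i) (c : Fin N → ℂ) :
    eval (Fin.cons 0 c : Fin (N + 1) → ℂ) (dfm w δ g) =
      eval c (weightedHomogeneousComponent w δ g) := by
  have h1 := b1_lin w δ g hg (aeval c).toLinearMap
  have h2 : (aeval c).toLinearMap (weightedHomogeneousComponent w δ g) =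
      eval c (weightedHomogeneousComponent w δ g) := by
    rw [AlgHom.toLinearMap_apply, ← coe_aeval_eq_eval]
    rfl
  rw [← h2, ← h1]
  unfold dfm
  rw [map_sum]
  refine Finset.sum_congr rfl fun m _ => ?_
  rw [map_mul, map_mul, eval_C, map_pow, eval_X, Fin.cons_zero, b1_prod, eval_rename,
    AlgHom.toLinearMap_apply, ← coe_aeval_eq_eval]
  rfl

theorem eval_dfm_of_ne (w : Fin N → ℕ) (δ : ℕ) (g : MvPolynomial (Fin N) ℂ)
    (hg : ∀ m, coeff m g ≠ 0 → δ ≤ ∑ i, m i * w i) (s : ℂ) (c : Fin N → ℂ) :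
    s ^ δ * eval (Fin.cons s c : Fin (N + 1) → ℂ) (dfm w δ g) = eval (act w s c) g := by
  unfold dfm
  rw [map_sum, Finset.mul_sum, eval_eq']
  refine Finset.sum_congr rfl fun m hm => ?_
  have h1 := hg m (mem_support_iff.1 hm)
  rw [map_mul, map_mul, eval_C, map_pow, eval_X, Fin.cons_zero, map_prod]
  have h2 : ∏ i, eval (Fin.cons s c : Fin (N + 1) → ℂ) (X i.succ ^ m i) = ∏ i, c i ^ m i := by
    refine Finset.prod_congr rfl fun i _ => ?_
    rw [map_pow, eval_X, Fin.cons_succ]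
  have h3 : ∏ i, act w s c i ^ m i = s ^ (∑ i, m i * w i) * ∏ i, c i ^ m i := by
    rw [← Finset.prod_pow_eq_pow_sum, ← Finset.prod_mul_distrib]
    refine Finset.prod_congr rfl fun i _ => ?_
    unfold act
    rw [mul_pow, ← pow_mul, mul_comm (w i)]
  have h4 : s ^ (∑ i, m i * w i) = s ^ δ * s ^ (∑ i, m i * w i - δ) := by
    rw [← pow_add, Nat.add_sub_cancel' h1]
  rw [h2, h3, h4]
  ring

theorem xgrad_dfm (w : Fin N → ℕ) (δ : ℕ) (g : MvPolynomial (Fin N) ℂ)
    (hg : ∀ m, coeff m g ≠ 0 → δ ≤ ∑ i, m i * w i) (c : Fin N → ℂ) :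
    xgrad (dfm w δ g) c = grad (weightedHomogeneousComponent w δ g) c := by
  funext i
  have h1 := b1_lin w δ g hg ((aeval c).toLinearMap.comp (pderiv i).toLinearMap)
  have h2 : ((aeval c).toLinearMap.comp (pderiv i).toLinearMap)
      (weightedHomogeneousComponent w δ g) =
      grad (weightedHomogeneousComponent w δ g) c i := by
    rw [LinearMap.comp_apply, AlgHom.toLinearMap_apply]
    unfold grad
    rw [← coe_aeval_eq_eval]
    rfl
  rw [← h2, ← h1]
  unfold xgrad dfm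
  rw [map_sum, map_sum]
  refine Finset.sum_congr rfl fun m _ => ?_
  have h3 : pderiv i.succ (C (coeff m g) * (X 0 : MvPolynomial (Fin (N + 1)) ℂ) ^
      (∑ i, m i * w i - δ) * ∏ i : Fin N, X i.succ ^ m i) =
      C (coeff m g) * (X 0 : MvPolynomial (Fin (N + 1)) ℂ) ^ (∑ i, m i * w i - δ) *
        rename Fin.succ (pderiv i (monomial m (1 : ℂ))) := by
    rw [b1_prod, Derivation.leibniz, pderiv_rename (Fin.succ_injective N), Derivation.leibniz,
      pderiv_C, smul_zero, add_zero, Derivation.leibniz_pow,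
      pderiv_X_of_ne (Fin.succ_ne_zero i).symm, smul_zero, smul_zero, smul_zero, smul_zero,
      add_zero, smul_eq_mul]
  rw [h3, map_mul, map_mul, eval_C, map_pow, eval_X, Fin.cons_zero, eval_rename,
    LinearMap.comp_apply, AlgHom.toLinearMap_apply, ← coe_aeval_eq_eval]
  rfl

private theorem b1_sub_dfm (w : Fin N → ℕ) (δ : ℕ) (g : MvPolynomial (Fin N) ℂ) (h : ℕ)
    (v : Fin N → Polynomial ℂ) :
    sub h v (dfm w δ g) = ∑ m ∈ g.support, Polynomial.C (coeff m g) *
      Polynomial.X ^ (h * (∑ i, m i * w i - δ)) * ∏ i, v i ^ m i := by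
  unfold sub dfm
  rw [map_sum]
  refine Finset.sum_congr rfl fun m _ => ?_
  rw [map_mul, map_mul, map_pow, aeval_X, Fin.cons_zero, ← pow_mul, map_prod, aeval_C]
  congr 1
  refine Finset.prod_congr rfl fun i _ => ?_
  rw [map_pow, aeval_X, Fin.cons_succ]

theorem sub_dfm (w : Fin N → ℕ) (δ : ℕ) (g : MvPolynomial (Fin N) ℂ)
    (hg : ∀ m, coeff m g ≠ 0 → δ ≤ ∑ i, m i * w i) (h : ℕ) (v : Fin N → Polynomial ℂ) :
    Polynomial.X ^ (h * δ) * sub h v (dfm w δ g) =
      aeval (fun i => Polynomial.X ^ (h * w i) * v i) g := by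
  rw [b1_sub_dfm, Finset.mul_sum, aeval_def, eval₂_eq']
  refine Finset.sum_congr rfl fun m hm => ?_
  have h1 := hg m (mem_support_iff.1 hm)
  have h3 : ∏ i, ((Polynomial.X : Polynomial ℂ) ^ (h * w i) * v i) ^ m i =
      Polynomial.X ^ (h * ∑ i, m i * w i) * ∏ i, v i ^ m i := by
    simp only [mul_pow]
    rw [Finset.prod_mul_distrib]
    congr 1
    rw [Finset.mul_sum, ← Finset.prod_pow_eq_pow_sum]
    refine Finset.prod_congr rfl fun i _ => ?_
    rw [← pow_mul]
    congr 1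
    ring
  have h4 : h * ∑ i, m i * w i = h * δ + h * (∑ i, m i * w i - δ) := by
    rw [← mul_add, Nat.add_sub_cancel' h1]
  rw [h3, h4, pow_add]
  change _ = Polynomial.C (coeff m g) * _
  ring

theorem coeff_zero_sub {h : ℕ} (hh : 1 ≤ h) (v : Fin N → Polynomial ℂ)
    (g : MvPolynomial (Fin (N + 1)) ℂ) :
    (sub h v g).coeff 0 = eval (Fin.cons 0 (fun i => (v i).coeff 0) : Fin (N + 1) → ℂ) g := by
  unfold sub
  rw [coeff_zero_aeval]
  congr 2
  funext i
  refine Fin.cases ?_ (fun j => ?_) i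
  · rw [Fin.cons_zero, Fin.cons_zero, Polynomial.coeff_X_pow, if_neg (by omega)]
  · rw [Fin.cons_succ, Fin.cons_succ]

theorem expand_alongS {w : Fin N → ℕ} {δ : ℕ} {g : MvPolynomial (Fin N) ℂ}
    (hg : ∀ m, coeff m g ≠ 0 → δ ≤ ∑ i, m i * w i) {M h n : ℕ} (hM : 0 < M)
    (γ : Fin N × Fin (n + 1) → ℂ) (hL : Low w M h γ) :
    Polynomial.expand ℂ M (along g γ) =
      Polynomial.X ^ (h * δ) * sub h (yy w M h γ) (dfm w δ g) := by
  have h1 : Polynomial.expand ℂ M (along g γ) =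
      aeval (fun i => Polynomial.expand ℂ M (arc γ i)) g := by
    unfold along
    rw [← AlgHom.comp_apply, comp_aeval]
  have h2 : ∀ i, Polynomial.expand ℂ M (arc γ i) = Polynomial.X ^ (h * w i) * yy w M h γ i := by
    intro i
    unfold arc yy
    rw [map_sum, Finset.mul_sum]
    refine Finset.sum_congr rfl fun l _ => ?_
    rw [map_mul, Polynomial.expand_C, map_pow, Polynomial.expand_X]
    split_ifs with h3
    · rw [← pow_mul]
      have h4 : M * (l : ℕ) = h * w i + ((l : ℕ) * M - h * w i) := by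
        rw [Nat.add_sub_cancel' h3, mul_comm]
      rw [h4, pow_add]
      ring
    · rw [hL i l (not_le.1 h3), Polynomial.C_0, zero_mul, mul_zero]
  rw [h1, sub_dfm w δ g hg h (yy w M h γ)]
  congr 2
  funext i
  exact h2 i

theorem low_coeffS {w : Fin N → ℕ} {δ : ℕ} {g : MvPolynomial (Fin N) ℂ}
    (hg : ∀ m, coeff m g ≠ 0 → δ ≤ ∑ i, m i * w i) {M h n : ℕ} (hM : 0 < M)
    (γ : Fin N × Fin (n + 1) → ℂ) (hL : Low w M h γ) (l : ℕ) (hl : l * M < h * δ) :
    (along g γ).coeff l = 0 := by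
  rw [← Polynomial.coeff_expand_mul hM (along g γ) l, expand_alongS hg hM γ hL,
    Polynomial.coeff_X_pow_mul', if_neg (not_le.2 hl)]

theorem eq_coeffS {w : Fin N → ℕ} {δ : ℕ} {g : MvPolynomial (Fin N) ℂ}
    (hg : ∀ m, coeff m g ≠ 0 → δ ≤ ∑ i, m i * w i) {M h n : ℕ} (hM : 0 < M) (hh : 1 ≤ h)
    (hn : ∀ i, h * w i < (n + 1) * M) (γ : Fin N × Fin (n + 1) → ℂ) (hL : Low w M h γ) (l : ℕ)
    (hl : l * M = h * δ) :
    (along g γ).coeff l = eval (lead w M h γ) (weightedHomogeneousComponent w δ g) := by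
  rw [← Polynomial.coeff_expand_mul hM (along g γ) l, expand_alongS hg hM γ hL,
    Polynomial.coeff_X_pow_mul', if_pos hl.ge, hl, Nat.sub_self, coeff_zero_sub hh,
    ← eval_dfm w δ g hg]
  have h1 : (fun i => (yy w M h γ i).coeff 0) = lead w M h γ := by
    funext i
    exact yy_coeff_zero w hM hn γ i
  rw [h1]

private theorem b1_mul {M a b : ℕ} {p q : Polynomial ℂ} (hp : ∀ u, ¬ M ∣ u + a → p.coeff u = 0)
    (hq : ∀ u, ¬ M ∣ u + b → q.coeff u = 0) : ∀ u, ¬ M ∣ u + (a + b) → (p * q).coeff u = 0 := by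
  intro u hu
  rw [Polynomial.coeff_mul]
  refine Finset.sum_eq_zero fun x hx => ?_
  rw [Finset.HasAntidiagonal.mem_antidiagonal] at hx
  by_cases h1 : M ∣ x.1 + a
  · by_cases h2 : M ∣ x.2 + b
    · refine absurd ?_ hu
      have h3 : u + (a + b) = (x.1 + a) + (x.2 + b) := by omega
      rw [h3]
      exact dvd_add h1 h2
    · rw [hq _ h2, mul_zero]
  · rw [hp _ h1, zero_mul]

private theorem b1_pow {M a : ℕ} {p : Polynomial ℂ} (hp : ∀ u, ¬ M ∣ u + a → p.coeff u = 0)
    (k : ℕ) : ∀ u, ¬ M ∣ u + k * a → (p ^ k).coeff u = 0 := by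
  induction k with
  | zero =>
    intro u hu
    rw [pow_zero, Polynomial.coeff_one, if_neg]
    intro h1
    refine hu ?_
    rw [h1]
    simp
  | succ k ih =>
    intro u hu
    rw [pow_succ]
    refine b1_mul ih hp u ?_
    rwa [Nat.succ_mul] at hu

private theorem b1_finprod {M h : ℕ} {w : Fin N → ℕ} (v : Fin N → Polynomial ℂ)
    (hv : ∀ i u, ¬ M ∣ u + h * w i → (v i).coeff u = 0) (m : Fin N →₀ ℕ) (s : Finset (Fin N)) :
    ∀ u, ¬ M ∣ u + h * ∑ i ∈ s, m i * w i → (∏ i ∈ s, v i ^ m i).coeff u = 0 := by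
  classical
  induction s using Finset.induction_on with
  | empty =>
    intro u hu
    rw [Finset.prod_empty, Polynomial.coeff_one, if_neg]
    intro h1
    refine hu ?_
    rw [h1]
    simp
  | insert a s ha ih =>
    intro u hu
    rw [Finset.prod_insert ha]
    refine b1_mul (b1_pow (hv a) (m a)) ih u ?_
    rw [Finset.sum_insert ha] at hu
    have h1 : m a * (h * w a) + h * ∑ i ∈ s, m i * w i = h * (m a * w a + ∑ i ∈ s, m i * w i) := by
      ring
    rwa [h1]

theorem not_dvd_sub {w : Fin N → ℕ} {δ : ℕ} {g : MvPolynomial (Fin N) ℂ}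
    (hg : ∀ m, coeff m g ≠ 0 → δ ≤ ∑ i, m i * w i) {M h : ℕ} (v : Fin N → Polynomial ℂ)
    (hv : ∀ i u, ¬ M ∣ u + h * w i → (v i).coeff u = 0) (u : ℕ) (hu : ¬ M ∣ u + h * δ) :
    (sub h v (dfm w δ g)).coeff u = 0 := by
  rw [b1_sub_dfm, Polynomial.finsetSum_coeff]
  refine Finset.sum_eq_zero fun m hm => ?_
  have h1 := hg m (mem_support_iff.1 hm)
  rw [mul_assoc, Polynomial.coeff_C_mul, Polynomial.coeff_X_pow_mul']
  split_ifs with h2
  · rw [b1_finprod v hv m Finset.univ, mul_zero]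
    have h4 : h * ∑ i, m i * w i = h * δ + h * (∑ i, m i * w i - δ) := by
      rw [← mul_add, Nat.add_sub_cancel' h1]
    have h5 : u - h * (∑ i, m i * w i - δ) + h * ∑ i, m i * w i = u + h * δ := by
      rw [h4]
      omega
    rw [h5]
    exact hu
  · rw [mul_zero]

theorem wt_ini {w : Fin N → ℕ} {d : Fin r → ℕ} {f : Fin r → MvPolynomial (Fin N) ℂ}
    (hW : SWt w d f) : Wt w d (ini w d f) :=
  ⟨hW.w_pos, hW.d_pos, fun j =>
    weightedHomogeneousComponent_isWeightedHomogeneous (d j) (f j)⟩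

end WH
end MotMono
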