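import Pool.Agent.Lib.MP_4e5fcd_ag.K1
import Pool.Agent.Lib.MP_4e5fcd_ag.CN.E2
import Pool.Agent.Lib.MP_4e5fcd_ag.CN.P1
import Pool.Agent.Lib.MP_4e5fcd_ag.SW.B1
import Pool.Agent.Lib.MP_4e5fcd_ag.SW.C2a
import Pool.Agent.Lib.MP_4e5fcd_ag.WH.C2b

/-!
# SW-C2b: the class of the set of `τ`-jets

Adapt WH-C2b (`cls_TS`). `CN.exists_lift (uuS w d f B φ) (K * M)` in `N + 1` variables gives `Ψ`; the jets
`z` in `N` variables correspond to the jets `z⁺` in `N + 1` variables whose `0`-th arc is `X ^ h`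
(truncated at `K M`; for `v ≤ K M` the coefficients of `along q z⁺` and `sub h (arc z) q` agree, also if
`h > K M`), with base point `(0, c)` (`h ≥ 1`). `TSS` is isomorphic to the product of `S` and `ℂ^κ`, `κ`
the set of the `(i, v)`, `1 ≤ v ≤ K M`, `M ∣ v + h δ_i`, not (`i = φ b`, `b ∈ B`, `v + h d_b < K M`):
`z ↦ (z (·, 0), coeff v of sub h (arc z) (u (i + 1)))`, inverse
`(c, δ) ↦ Ψ (cons 0 c, δ~)`, `δ~ (0, v) = 1` for `v = h`, `0` otherwise; `δ~ (i + 1, v)` = `δ (i, v)` on `κ`,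
`η b l` if `i = φ b`, `v + h d_b = l M < K M`, and `0` otherwise.
(1) For `z ∈ TSS` the coefficients `v` of `u_(i+1)` with `M ∤ v + h δ_i` vanish (`not_dvd_sub`).
(2) For `z = Ψ (…)`: `z^ζ (i + 1, v) = ζ^(v + h w_i) z (i + 1, v)`, `z^ζ (0, v) = ζ^(v - h) z (0, v)`, so
`z^ζ (0, ·) = z (0, ·)`; `cj u z^ζ (i + 1, v) = ζ^(v + h δ_i) cj u z (i + 1, v)`:
`dfm w (d b) (f b)` is weighted homogeneous of degree `d b` if `s` has weight `-1`; then
`z^ζ = z` by uniqueness. Conditions: `v = 0` is `eval c (ini b) = 0 = η b l` (`hη` with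
`l M ≤ h d_b`). The cardinality of `κ` is as in WH-C2b.
-/

open MvPolynomial

namespace MotMono
namespace WH

variable {N r : ℕ}

/-! ### Arithmetic -/

private theorem C2b_dvd_lev {M : ℕ} (hM : 0 < M) (c j : ℕ) :
    M ∣ (M - c % M + j * M) + c := by
  have h1 : c % M < M := Nat.mod_lt _ hM
  have h2 := Nat.div_add_mod c M
  refine ⟨1 + j + c / M, ?_⟩
  have h3 : M * (1 + j + c / M) = M + j * M + M * (c / M) := by ring
  rw [h3]
  omega

private theorem C2b_lev_div {M : ℕ} (hM : 0 < M) (c j : ℕ) :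
    (M - c % M + j * M - 1) / M = j := by
  have h1 : c % M < M := Nat.mod_lt _ hM
  have h2 : M - c % M + j * M - 1 = (M - c % M - 1) + j * M := by omega
  rw [h2, Nat.add_mul_div_right _ _ hM, Nat.div_eq_of_lt (by omega), zero_add]

private theorem C2b_lev_of_dvd {M : ℕ} (hM : 0 < M) {c l : ℕ} (hl : 1 ≤ l) (h : M ∣ l + c) :
    M - c % M + ((l - 1) / M) * M = l := by
  obtain ⟨m, hm⟩ := h
  have h1 : c % M < M := Nat.mod_lt _ hM
  have h2 := Nat.div_add_mod c M
  have h3 := Nat.div_add_mod (l - 1) M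
  have h4 : (l - 1) % M < M := Nat.mod_lt _ hM
  obtain ⟨a, ha⟩ : ∃ a, a = c / M := ⟨_, rfl⟩
  obtain ⟨b, hb⟩ : ∃ b, b = (l - 1) / M := ⟨_, rfl⟩
  rw [← ha] at h2
  rw [← hb] at h3 ⊢
  have h5 : (l - 1) % M + 1 + c % M = M := by
    have h6 : M * m = M * (a + b) + ((l - 1) % M + 1 + c % M) := by
      have : M * (a + b) = M * a + M * b := by ring
      rw [this]
      omega
    have h7 : a + b < m := by
      by_contra h8
      have h9 : M * m ≤ M * (a + b) := Nat.mul_le_mul_left _ (not_lt.1 h8)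
      omega
    have h8 : m < a + b + 2 := by
      by_contra h8
      have h9 : M * (a + b + 2) ≤ M * m := Nat.mul_le_mul_left _ (not_lt.1 h8)
      have h10 : M * (a + b + 2) = M * (a + b) + 2 * M := by ring
      omega
    have h9 : m = a + b + 1 := by omega
    rw [h9] at h6
    have h10 : M * (a + b + 1) = M * (a + b) + M := by ring
    omega
  have h6 : b * M = M * b := mul_comm _ _
  omega

private theorem C2b_small {M K c l : ℕ} (hM : 0 < M) (h : (l - 1) / M < K - 1 - c / M) :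
    l + c < K * M := by
  have h1 : c % M < M := Nat.mod_lt _ hM
  have h2 := Nat.div_add_mod c M
  have h3 := Nat.div_add_mod (l - 1) M
  have h4 : (l - 1) % M < M := Nat.mod_lt _ hM
  obtain ⟨a, ha⟩ : ∃ a, a = c / M := ⟨_, rfl⟩
  obtain ⟨b, hb⟩ : ∃ b, b = (l - 1) / M := ⟨_, rfl⟩
  rw [← ha] at h2 h
  rw [← hb] at h3 h
  have h5 : M * (a + b + 2) ≤ K * M := by
    rw [mul_comm]
    exact Nat.mul_le_mul_right _ (by omega)
  have h6 : M * (a + b + 2) = M * a + M * b + 2 * M := by ring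
  omega

private theorem C2b_big {M K c l : ℕ} (hM : 0 < M) (hl : 1 ≤ l) (hd : M ∣ l + c)
    (h : K - 1 - c / M ≤ (l - 1) / M) : K * M ≤ l + c := by
  obtain ⟨m, hm⟩ := hd
  have h1 : c % M < M := Nat.mod_lt _ hM
  have h2 := Nat.div_add_mod c M
  have h3 := Nat.div_add_mod (l - 1) M
  obtain ⟨a, ha⟩ : ∃ a, a = c / M := ⟨_, rfl⟩
  obtain ⟨b, hb⟩ : ∃ b, b = (l - 1) / M := ⟨_, rfl⟩
  rw [← ha] at h2 h
  rw [← hb] at h3 h
  by_contra hcon
  rw [hm, not_le, mul_comm] at hcon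
  have h4 : m < K := Nat.lt_of_mul_lt_mul_right hcon
  have h5 : M * m ≤ M * (a + b) := Nat.mul_le_mul_left _ (by omega)
  have h6 : M * (a + b) = M * a + M * b := by ring
  omega

/-! ### The weights -/

open Classical in
private noncomputable def C2bE (w : Fin N → ℕ) (d : Fin r → ℕ) (B : Finset (Fin r))
    (φ : Fin r → Fin N) (i : Fin N) : ℕ :=
  if h : ∃ b ∈ B, φ b = i then d h.choose else w i

private theorem C2bE_phi {w : Fin N → ℕ} {d : Fin r → ℕ} {B : Finset (Fin r)}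
    {φ : Fin r → Fin N} (hφ : Set.InjOn φ B) {b : Fin r} (hb : b ∈ B) :
    C2bE w d B φ (φ b) = d b := by
  have h : ∃ b' ∈ B, φ b' = φ b := ⟨b, hb, rfl⟩
  unfold C2bE
  rw [dif_pos h]
  congr 1
  exact hφ h.choose_spec.1 hb h.choose_spec.2

open Classical in
private noncomputable def C2bT (w : Fin N → ℕ) (d : Fin r → ℕ) (B : Finset (Fin r))
    (φ : Fin r → Fin N) (M h K : ℕ) (i : Fin N) : ℕ :=
  if ∃ b ∈ B, φ b = i then K - 1 - h * C2bE w d B φ i / M else 0

private theorem C2bT_phi {w : Fin N → ℕ} {d : Fin r → ℕ} {B : Finset (Fin r)}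
    {φ : Fin r → Fin N} (hφ : Set.InjOn φ B) (M h K : ℕ) {b : Fin r} (hb : b ∈ B) :
    C2bT w d B φ M h K (φ b) = K - 1 - h * d b / M := by
  unfold C2bT
  rw [if_pos ⟨b, hb, rfl⟩, C2bE_phi hφ hb]

private theorem C2bT_le (w : Fin N → ℕ) (d : Fin r → ℕ) (B : Finset (Fin r))
    (φ : Fin r → Fin N) (M h K : ℕ) (i : Fin N) : C2bT w d B φ M h K i ≤ K := by
  unfold C2bT
  split_ifs
  · exact (Nat.sub_le _ _).trans (Nat.sub_le _ _)
  · exact Nat.zero_le _

private theorem C2bT_sum {w : Fin N → ℕ} {d : Fin r → ℕ} {B : Finset (Fin r)}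
    {φ : Fin r → Fin N} (hφ : Set.InjOn φ B) (M h K : ℕ) :
    ∑ i, (K - C2bT w d B φ M h K i) = N * K - ∑ b ∈ B, (K - 1 - h * d b / M) := by
  classical
  have h1 : ∑ i, C2bT w d B φ M h K i = ∑ b ∈ B, (K - 1 - h * d b / M) := by
    have h2 : ∑ i ∈ B.image φ, C2bT w d B φ M h K i = ∑ i, C2bT w d B φ M h K i := by
      apply Finset.sum_subset (Finset.subset_univ _)
      intro i _ hi
      unfold C2bT
      rw [if_neg]
      rintro ⟨b, hb, rfl⟩
      exact hi (Finset.mem_image_of_mem _ hb)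
    rw [← h2, Finset.sum_image hφ]
    exact Finset.sum_congr rfl fun b hb => C2bT_phi hφ M h K hb
  rw [← h1]
  have h3 : ∑ i, (K - C2bT w d B φ M h K i) + ∑ i, C2bT w d B φ M h K i = N * K := by
    rw [← Finset.sum_add_distrib, Finset.sum_congr rfl fun i _ =>
      Nat.sub_add_cancel (C2bT_le w d B φ M h K i), Finset.sum_const, Finset.card_univ,
      Fintype.card_fin, smul_eq_mul]
  omega

private theorem C2bk_key {σ : Type} (a b : σ → Polynomial ℂ) (n : ℕ)
    (h : ∀ i, (Polynomial.X : Polynomial ℂ) ^ n ∣ a i - b i) (f : MvPolynomial σ ℂ) :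
    (Polynomial.X : Polynomial ℂ) ^ n ∣ aeval a f - aeval b f := by
  induction f using MvPolynomial.induction_on with
  | C c => simp
  | add p q hp hq =>
    rw [map_add, map_add]
    have := dvd_add hp hq
    refine this.trans (dvd_of_eq ?_)
    ring
  | mul_X p i hp =>
    rw [map_mul, map_mul, aeval_X, aeval_X]
    have : aeval a p * a i - aeval b p * b i =
        (aeval a p - aeval b p) * a i + aeval b p * (a i - b i) := by ring
    rw [this]
    exact dvd_add (hp.mul_right _) ((h i).mul_left _)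

private theorem C2bk_coeff {p q : Polynomial ℂ} {n : ℕ}
    (h : (Polynomial.X : Polynomial ℂ) ^ n ∣ p - q) {l : ℕ} (hl : l < n) :
    p.coeff l = q.coeff l := by
  have := Polynomial.X_pow_dvd_iff.1 h l hl
  rw [Polynomial.coeff_sub] at this
  exact sub_eq_zero.1 this

private theorem C2bk_dvd {p q : Polynomial ℂ} {n : ℕ} (h : ∀ l < n, p.coeff l = q.coeff l) :
    (Polynomial.X : Polynomial ℂ) ^ n ∣ p - q := by
  refine Polynomial.X_pow_dvd_iff.2 fun l hl => ?_
  rw [Polynomial.coeff_sub, h l hl, sub_self]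

/-- the coefficients of `sub h (arc z) q` are polynomials in `z` -/
private theorem C2bk_exists_subPoly {n : ℕ} (h : ℕ) (q : MvPolynomial (Fin (N + 1)) ℂ) (l : ℕ) :
    ∃ Q : MvPolynomial (Fin N × Fin n) ℂ, ∀ z : Fin N × Fin n → ℂ,
      eval z Q = (sub h (arc z) q).coeff l := by
  obtain ⟨F, hF⟩ : ∃ F : Fin (N + 1) → Polynomial (MvPolynomial (Fin N × Fin n) ℂ),
      F = Fin.cons (Polynomial.X ^ h)
        (fun i => ∑ v : Fin n, Polynomial.C (X (i, v)) * Polynomial.X ^ (v : ℕ)) := ⟨_, rfl⟩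
  refine ⟨((aeval F : MvPolynomial (Fin (N + 1)) ℂ →ₐ[ℂ] _) q).coeff l, fun z => ?_⟩
  obtain ⟨Φ, hΦ⟩ : ∃ Φ : Polynomial (MvPolynomial (Fin N × Fin n) ℂ) →ₐ[ℂ] Polynomial ℂ,
      Φ = Polynomial.mapAlgHom (MvPolynomial.aeval z) := ⟨_, rfl⟩
  have h1 : ∀ p, (Φ p).coeff l = eval z (p.coeff l) := by
    intro p
    rw [hΦ, Polynomial.coe_mapAlgHom, Polynomial.coeff_map]
    rfl
  rw [← h1]
  have h2 : Φ ((aeval F : MvPolynomial (Fin (N + 1)) ℂ →ₐ[ℂ] _) q) = aeval (fun j => Φ (F j)) q := by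
    rw [← AlgHom.comp_apply, comp_aeval]
  rw [h2, sub]
  congr 3
  funext j
  induction j using Fin.cases with
  | zero =>
    rw [hF, Fin.cons_zero, Fin.cons_zero, map_pow, hΦ, Polynomial.coe_mapAlgHom, Polynomial.map_X]
  | succ i =>
    rw [hF, Fin.cons_succ, Fin.cons_succ, map_sum, arc]
    refine Finset.sum_congr rfl fun v _ => ?_
    rw [map_mul, map_pow, hΦ, Polynomial.coe_mapAlgHom, Polynomial.map_X, Polynomial.map_C]
    congr 2
    exact aeval_X _ _


/-! ### The twist -/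

/-- the twisted jet -/
private noncomputable def C2bZ {n' : ℕ} (w : Fin n' → ℕ) (h : ℕ) (ζ : ℂ) {n : ℕ}
    (z : Fin n' × Fin (n + 1) → ℂ) : Fin n' × Fin (n + 1) → ℂ :=
  fun q => ζ ^ ((q.2 : ℕ) + h * w q.1) * z q

private theorem C2b_twist {n' : ℕ} {w : Fin n' → ℕ} {g : MvPolynomial (Fin n') ℂ} {e : ℕ}
    (h : ℕ) (ζ : ℂ)
    (hg : ∀ v : Fin n' → Polynomial ℂ, aeval (fun i => (Polynomial.C (ζ ^ h)) ^ w i * v i) g =
      (Polynomial.C (ζ ^ h)) ^ e * aeval v g) {n : ℕ}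
    (z : Fin n' × Fin (n + 1) → ℂ) (v : ℕ) :
    (along g (C2bZ w h ζ z)).coeff v = ζ ^ (v + h * e) * (along g z).coeff v := by
  obtain ⟨Φ, hΦ⟩ : ∃ Φ : Polynomial ℂ →ₐ[ℂ] Polynomial ℂ,
      Φ = Polynomial.aeval (Polynomial.C ζ * Polynomial.X) := ⟨_, rfl⟩
  have hcoeff : ∀ (p : Polynomial ℂ) (k : ℕ), (Φ p).coeff k = p.coeff k * ζ ^ k := by
    intro p k
    have h1 : Φ p = p.comp (Polynomial.C ζ * Polynomial.X) := by
      rw [hΦ]
      rfl
    rw [h1, Polynomial.comp_C_mul_X_coeff]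
  have harc : ∀ i, arc (C2bZ w h ζ z) i = (Polynomial.C (ζ ^ h)) ^ w i * Φ (arc z i) := by
    intro i
    ext k
    rw [← Polynomial.C_pow, Polynomial.coeff_C_mul, hcoeff, a1_arc_coeff, a1_arc_coeff]
    split_ifs with hk
    · unfold C2bZ
      simp only
      rw [pow_add, pow_mul]
      ring
    · ring
  unfold along
  have h1 : arc (C2bZ w h ζ z) = fun i => (Polynomial.C (ζ ^ h)) ^ w i * Φ (arc z i) :=
    funext harc
  rw [h1, hg]
  have h2 : aeval (fun i => Φ (arc z i)) g = Φ (aeval (arc z) g) := by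
    rw [← AlgHom.comp_apply, comp_aeval]
  rw [h2, ← Polynomial.C_pow, Polynomial.coeff_C_mul, hcoeff, pow_add, pow_mul]
  ring

private theorem C2b_dfm {w : Fin N → ℕ} {δ : ℕ} {g : MvPolynomial (Fin N) ℂ}
    (hg : ∀ m, coeff m g ≠ 0 → δ ≤ ∑ i, m i * w i) {M : ℕ} (hM : 0 < M) (c : Polynomial ℂ)
    (hc : c ^ M = 1) (v : Fin (N + 1) → Polynomial ℂ) :
    aeval (fun j => c ^ (Fin.cons (M - 1) w : Fin (N + 1) → ℕ) j * v j) (dfm w δ g) =
      c ^ δ * aeval v (dfm w δ g) := by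
  unfold dfm
  rw [map_sum, map_sum, Finset.mul_sum]
  refine Finset.sum_congr rfl fun m hm => ?_
  have h1 := hg m (mem_support_iff.1 hm)
  obtain ⟨k, hk⟩ := Nat.exists_eq_add_of_le h1
  have h2 : ∑ i, m i * w i - δ = k := by omega
  rw [h2, map_mul, map_mul, map_mul, map_mul, map_pow, map_pow, map_prod, map_prod, aeval_X,
    aeval_X, Fin.cons_zero]
  have h3 : ∏ i : Fin N, aeval (fun j => c ^ (Fin.cons (M - 1) w : Fin (N + 1) → ℕ) j * v j)
      (X i.succ ^ m i : MvPolynomial (Fin (N + 1)) ℂ) =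
      c ^ (∑ i, m i * w i) * ∏ i : Fin N, aeval v (X i.succ ^ m i : MvPolynomial (Fin (N + 1)) ℂ) := by
    rw [← Finset.prod_pow_eq_pow_sum, ← Finset.prod_mul_distrib]
    refine Finset.prod_congr rfl fun i _ => ?_
    rw [map_pow, map_pow, aeval_X, aeval_X, Fin.cons_succ, mul_pow, ← pow_mul, mul_comm (w i)]
  have h4 : c ^ ((M - 1) * k) * c ^ (∑ i, m i * w i) = c ^ δ := by
    rw [← pow_add, hk]
    have h5 : (M - 1) * k + (δ + k) = M * k + δ := by
      obtain ⟨M', rfl⟩ : ∃ M', M = M' + 1 := ⟨M - 1, by omega⟩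
      rw [Nat.add_sub_cancel]
      ring
    rw [h5, pow_add, pow_mul, hc, one_pow, one_mul]
  rw [h3, mul_pow, ← pow_mul, ← h4]
  rw [aeval_C, aeval_C]
  ring

private noncomputable def C2bp (h : ℕ) {n : ℕ} (z : Fin N × Fin (n + 1) → ℂ) :
    Fin (N + 1) × Fin (n + 1) → ℂ :=
  fun q => (Fin.cons (if (q.2 : ℕ) = h then 1 else 0) (fun i => z (i, q.2)) :
    Fin (N + 1) → ℂ) q.1

private theorem C2bp_zero (h : ℕ) {n : ℕ} (z : Fin N × Fin (n + 1) → ℂ) (v : Fin (n + 1)) :
    C2bp h z (0, v) = if (v : ℕ) = h then 1 else 0 := rfl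

private theorem C2bp_succ (h : ℕ) {n : ℕ} (z : Fin N × Fin (n + 1) → ℂ) (i : Fin N)
    (v : Fin (n + 1)) : C2bp h z (i.succ, v) = z (i, v) := rfl

private theorem C2b_along_p (h : ℕ) {n : ℕ} (z : Fin N × Fin (n + 1) → ℂ)
    (q : MvPolynomial (Fin (N + 1)) ℂ) (v : ℕ) (hv : v < n + 1) :
    (along q (C2bp h z)).coeff v = (sub h (arc z) q).coeff v := by
  unfold along sub
  refine C2bk_coeff (n := n + 1) ?_ hv
  refine C2bk_key _ _ _ (fun j => ?_) q
  refine C2bk_dvd fun l hl => ?_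
  rw [a1_arc_coeff, dif_pos hl]
  induction j using Fin.cases with
  | zero =>
    rw [C2bp_zero, Fin.cons_zero, Polynomial.coeff_X_pow]
  | succ i =>
    rw [C2bp_succ, Fin.cons_succ, a1_arc_coeff, dif_pos hl]

private theorem C2b_along_X {n' n : ℕ} (z : Fin n' × Fin (n + 1) → ℂ) (j : Fin n')
    (v : Fin (n + 1)) : (along (X j) z).coeff v = z (j, v) := by
  unfold along
  rw [aeval_X, a1_arc_coeff, dif_pos v.2]


theorem cls_TSS {w : Fin N → ℕ} {d : Fin r → ℕ} {f : Fin r → MvPolynomial (Fin N) ℂ}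
    (hW : SWt w d f) {M h K : ℕ} (hM : 0 < M) (hh : 1 ≤ h) {B : Finset (Fin r)}
    {φ : Fin r → Fin N} (hφ : Set.InjOn φ B) {S : Set (Fin N → ℂ)} (hS : Constr S)
    (hSF : S ⊆ FixH w M h) (hSv : ∀ c ∈ S, ∀ b ∈ B, eval c (ini w d f b) = 0)
    (hSj : ∀ c ∈ S, eval (Fin.cons 0 c : Fin (N + 1) → ℂ) (jacDet (uuS w d f B φ)) ≠ 0)
    (η : Fin r → ℕ → ℂ) (hη : ∀ b ∈ B, ∀ l, l * M ≤ h * d b → η b l = 0) :
    cls (TSS w d M f B S h K η) =
      cls S * LL ^ (N * K - ∑ b ∈ B, (K - 1 - h * d b / M)) := by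
  classical
  have hh1 := hh
  clear hh
  obtain ⟨e, he⟩ : ∃ e, e = C2bE w d B φ := ⟨_, rfl⟩
  obtain ⟨t, ht⟩ : ∃ t, t = C2bT w d B φ M h K := ⟨_, rfl⟩
  obtain ⟨u, hu⟩ : ∃ u, u = uuS w d f B φ := ⟨_, rfl⟩
  obtain ⟨ζ, hζ⟩ : ∃ ζ : ℂ, IsPrimitiveRoot ζ M :=
    ⟨_, Complex.isPrimitiveRoot_exp M hM.ne'⟩
  have hζ1 : ∀ k, M ∣ k → ζ ^ k = 1 := fun k hk => (hζ.pow_eq_one_iff_dvd k).2 hk
  have hζ2 : ∀ k, ¬ M ∣ k → ζ ^ k ≠ 1 := fun k hk h1 => hk ((hζ.pow_eq_one_iff_dvd k).1 h1)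
  have hc : (Polynomial.C (ζ ^ h) : Polynomial ℂ) ^ M = 1 := by
    rw [← Polynomial.C_pow, ← pow_mul, hζ1 _ (Dvd.intro_left h rfl), Polynomial.C_1]
  obtain ⟨w', hw'⟩ : ∃ w' : Fin (N + 1) → ℕ, w' = Fin.cons (M - 1) w := ⟨_, rfl⟩
  obtain ⟨e', he'⟩ : ∃ e' : Fin (N + 1) → ℕ, e' = Fin.cons (M - 1) e := ⟨_, rfl⟩
  have hw'0 : w' 0 = M - 1 := by rw [hw', Fin.cons_zero]
  have hw's : ∀ i : Fin N, w' i.succ = w i := fun i => by rw [hw', Fin.cons_succ]
  have he'0 : e' 0 = M - 1 := by rw [he', Fin.cons_zero]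
  have he's : ∀ i : Fin N, e' i.succ = e i := fun i => by rw [he', Fin.cons_succ]
  have hu0 : u 0 = X 0 := by rw [hu]; rfl
  have het : ∀ b ∈ B, e (φ b) = d b := fun b hb => by
    rw [he]
    exact C2bE_phi hφ hb
  have hut : ∀ b ∈ B, u (φ b).succ = dfm w (d b) (f b) := fun b hb => by
    have h1 : ∃ b' ∈ B, φ b' = φ b := ⟨b, hb, rfl⟩
    rw [hu, uuS, Fin.cons_succ, dif_pos h1]
    have h2 : h1.choose = b := hφ h1.choose_spec.1 hb h1.choose_spec.2
    rw [h2]
  have hun : ∀ i : Fin N, (¬ ∃ b ∈ B, φ b = i) → u i.succ = X i.succ := fun i hi => by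
    rw [hu, uuS, Fin.cons_succ, dif_neg hi]
  have hhom : ∀ (j : Fin (N + 1)) (v : Fin (N + 1) → Polynomial ℂ),
      aeval (fun i => (Polynomial.C (ζ ^ h)) ^ w' i * v i) (u j) =
        (Polynomial.C (ζ ^ h)) ^ e' j * aeval v (u j) := by
    intro j v
    induction j using Fin.cases with
    | zero => rw [hu0, aeval_X, aeval_X, hw'0, he'0]
    | succ i =>
      by_cases hi : ∃ b ∈ B, φ b = i
      · obtain ⟨b, hb, rfl⟩ := hi
        rw [hut b hb, he's, het b hb, hw']
        exact C2b_dfm (hW.ord b) hM _ hc v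
      · rw [hun i hi, aeval_X, aeval_X, hw's, he's, he]
        unfold C2bE
        rw [dif_neg hi]
  have htt : ∀ b ∈ B, t (φ b) = K - 1 - h * d b / M := fun b hb => by
    rw [ht]
    exact C2bT_phi hφ M h K hb
  have ht0 : ∀ i, (¬ ∃ b ∈ B, φ b = i) → t i = 0 := fun i hi => by
    rw [ht]
    unfold C2bT
    rw [if_neg hi]
  have htK : ∀ i, t i ≤ K := fun i => by
    rw [ht]
    exact C2bT_le w d B φ M h K i
  rw [← hu] at hSj
  obtain ⟨Ψ, hΨr, hΨ, hΨu⟩ := CN.exists_lift u (K * M)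
  have htw : ∀ (z : Fin (N + 1) × Fin (K * M + 1) → ℂ) (j : Fin (N + 1)) (v : Fin (K * M + 1)),
      CN.cj u (C2bZ w' h ζ z) (j, v) = ζ ^ ((v : ℕ) + h * e' j) * CN.cj u z (j, v) :=
    fun z j v => C2b_twist h ζ (hhom j) z v
  have hcjs : ∀ (z : Fin N × Fin (K * M + 1) → ℂ) (i : Fin N) (v : Fin (K * M + 1)),
      CN.cj u (C2bp h z) (i.succ, v) = (sub h (arc z) (u i.succ)).coeff v :=
    fun z i v => C2b_along_p h z _ _ v.2
  have hcj00 : ∀ (z : Fin (N + 1) × Fin (K * M + 1) → ℂ) (v : Fin (K * M + 1)),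
      CN.cj u z (0, v) = z (0, v) := by
    intro z v
    unfold CN.cj
    simp only
    rw [hu0]
    exact C2b_along_X z 0 v
  -- the levels
  have hlevlt : ∀ (i : Fin N) (a : Fin (K - t i)),
      M - (h * e i) % M + (t i + a) * M < K * M + 1 := by
    intro i a
    have h1 : t i + (a : ℕ) + 1 ≤ K := by
      have := a.2
      omega
    have h2 : (t i + (a : ℕ) + 1) * M ≤ K * M := Nat.mul_le_mul_right _ h1
    have h3 : (t i + (a : ℕ) + 1) * M = (t i + (a : ℕ)) * M + M := by ring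
    omega
  obtain ⟨lev, hlev⟩ : ∃ lev : (Σ i : Fin N, Fin (K - t i)) → Fin (K * M + 1),
      lev = fun q => ⟨M - (h * e q.1) % M + (t q.1 + q.2) * M, hlevlt q.1 q.2⟩ := ⟨_, rfl⟩
  have hlevv : ∀ q, ((lev q : Fin (K * M + 1)) : ℕ) =
      M - (h * e q.1) % M + (t q.1 + q.2) * M := fun q => by rw [hlev]
  have hlev0 : ∀ q, lev q ≠ 0 := by
    intro q h1
    have h2 := congrArg (fun x : Fin (K * M + 1) => (x : ℕ)) h1
    simp only [Fin.val_zero] at h2
    rw [hlevv] at h2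
    have h3 : (h * e q.1) % M < M := Nat.mod_lt _ hM
    omega
  -- the extension
  have hjlt : ∀ (i : Fin N) (l : Fin (K * M + 1)),
      (M ∣ (l : ℕ) + h * e i ∧ l ≠ 0 ∧ t i ≤ ((l : ℕ) - 1) / M) →
      ((l : ℕ) - 1) / M - t i < K - t i := by
    intro i l hl
    have h1 : (l : ℕ) ≠ 0 := fun h0 => hl.2.1 (Fin.ext h0)
    have h2 : ((l : ℕ) - 1) / M < K := by
      rw [Nat.div_lt_iff_lt_mul hM]
      have := l.2
      omega
    have := hl.2.2
    omega
  obtain ⟨yl, hyl⟩ : ∃ yl : Fin N → ℕ → ℂ, yl = fun i l =>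
      if hb : ∃ b ∈ B, φ b = i then η hb.choose ((l + h * d hb.choose) / M) else 0 := ⟨_, rfl⟩
  have hylb : ∀ b ∈ B, ∀ l, yl (φ b) l = η b ((l + h * d b) / M) := by
    intro b hb l
    have h1 : ∃ b' ∈ B, φ b' = φ b := ⟨b, hb, rfl⟩
    rw [hyl]
    simp only
    rw [dif_pos h1]
    have h2 : h1.choose = b := hφ h1.choose_spec.1 hb h1.choose_spec.2
    rw [h2]
  obtain ⟨ext, hext⟩ : ∃ ext : ((Σ i : Fin N, Fin (K - t i)) → ℂ) →
      (Fin N × Fin (K * M + 1) → ℂ), ext = fun δ q =>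
        if hh : M ∣ (q.2 : ℕ) + h * e q.1 ∧ q.2 ≠ 0 ∧ t q.1 ≤ ((q.2 : ℕ) - 1) / M then
          δ ⟨q.1, ⟨((q.2 : ℕ) - 1) / M - t q.1, hjlt q.1 q.2 hh⟩⟩ else
        if M ∣ (q.2 : ℕ) + h * e q.1 then yl q.1 q.2 else 0 := ⟨_, rfl⟩
  have hext0 : ∀ δ (i : Fin N) (l : Fin (K * M + 1)), ¬ M ∣ (l : ℕ) + h * e i →
      ext δ (i, l) = 0 := by
    intro δ i l h1
    rw [hext]
    simp only
    rw [dif_neg (fun h2 => h1 h2.1), if_neg h1]
  have hextlev : ∀ δ q, ext δ (q.1, lev q) = δ q := by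
    intro δ q
    obtain ⟨i, a⟩ := q
    have h1 : M ∣ ((lev ⟨i, a⟩ : Fin (K * M + 1)) : ℕ) + h * e i := by
      rw [hlevv]
      exact C2b_dvd_lev hM _ _
    have h2 : (((lev ⟨i, a⟩ : Fin (K * M + 1)) : ℕ) - 1) / M = t i + a := by
      rw [hlevv]
      exact C2b_lev_div hM _ _
    rw [hext]
    simp only
    rw [dif_pos ⟨h1, hlev0 _, by rw [h2]; exact Nat.le_add_right _ _⟩]
    congr 2
    apply Fin.ext
    simp only
    rw [h2, Nat.add_sub_cancel_left]
  have hlevdiv : ∀ (i : Fin N) (l : Fin (K * M + 1))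
      (hh : M ∣ (l : ℕ) + h * e i ∧ l ≠ 0 ∧ t i ≤ ((l : ℕ) - 1) / M),
      lev ⟨i, ⟨((l : ℕ) - 1) / M - t i, hjlt i l hh⟩⟩ = l := by
    intro i l hh
    apply Fin.ext
    rw [hlevv]
    simp only
    have h1 : (l : ℕ) ≠ 0 := fun h0 => hh.2.1 (Fin.ext h0)
    rw [Nat.add_sub_cancel' hh.2.2]
    exact C2b_lev_of_dvd hM (Nat.one_le_iff_ne_zero.2 h1) hh.1
  -- jets in `TSS`
  have hζs : ∀ v : Fin (K * M + 1), ζ ^ ((v : ℕ) + h * (M - 1)) *
      (if (v : ℕ) = h then (1 : ℂ) else 0) = if (v : ℕ) = h then 1 else 0 := by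
    intro v
    split_ifs with h1
    · rw [h1, mul_one]
      refine hζ1 _ ⟨h, ?_⟩
      obtain ⟨M', rfl⟩ : ∃ M', M = M' + 1 := ⟨M - 1, by omega⟩
      rw [Nat.add_sub_cancel]
      ring
    · rw [mul_zero]
  have hfix : ∀ z ∈ TSS w d M f B S h K η, C2bZ w' h ζ (C2bp h z) = C2bp h z := by
    intro z hz
    funext q
    obtain ⟨j, v⟩ := q
    unfold C2bZ
    simp only
    induction j using Fin.cases with
    | zero => rw [C2bp_zero, hw'0, hζs]
    | succ i =>
      rw [C2bp_succ, hw's]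
      by_cases h1 : M ∣ (v : ℕ) + h * w i
      · rw [hζ1 _ h1, one_mul]
      · rw [hz.2.1 i v h1, mul_zero]
  have hcj0 : ∀ z ∈ TSS w d M f B S h K η, ∀ (i : Fin N) (l : Fin (K * M + 1)),
      ¬ M ∣ (l : ℕ) + h * e i → CN.cj u (C2bp h z) (i.succ, l) = 0 := by
    intro z hz i l h1
    have h2 := htw (C2bp h z) i.succ l
    rw [hfix z hz, he's] at h2
    have h3 : (1 - ζ ^ ((l : ℕ) + h * e i)) * CN.cj u (C2bp h z) (i.succ, l) = 0 := by
      linear_combination h2
    rcases mul_eq_zero.1 h3 with h4 | h4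
    · exact absurd (sub_eq_zero.1 h4).symm (hζ2 _ h1)
    · exact h4
  have hcjext : ∀ z ∈ TSS w d M f B S h K η, ∀ (i : Fin N) (l : Fin (K * M + 1)), l ≠ 0 →
      CN.cj u (C2bp h z) (i.succ, l) =
        ext (fun q => (sub h (arc z) (u q.1.succ)).coeff (lev q)) (i, l) := by
    intro z hz i l hl
    rw [hext]
    simp only
    by_cases hh : M ∣ (l : ℕ) + h * e i ∧ l ≠ 0 ∧ t i ≤ ((l : ℕ) - 1) / M
    · rw [dif_pos hh, hlevdiv i l hh, hcjs]
    · rw [dif_neg hh]
      by_cases h1 : M ∣ (l : ℕ) + h * e i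
      · have h2 : ((l : ℕ) - 1) / M < t i := by
          by_contra h3
          exact hh ⟨h1, hl, not_lt.1 h3⟩
        have h3 : ∃ b ∈ B, φ b = i := by
          by_contra h4
          rw [ht0 i h4] at h2
          exact absurd h2 (Nat.not_lt_zero _)
        rw [if_pos h1]
        obtain ⟨b, hb, rfl⟩ := h3
        rw [htt b hb] at h2
        rw [het b hb] at h1
        rw [hylb b hb, hcjs, hut b hb]
        refine hz.2.2 b hb l _ (Nat.div_mul_cancel h1).symm ?_
        rw [Nat.div_lt_iff_lt_mul hM]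
        exact C2b_small hM h2
      · rw [if_neg h1]
        exact hcj0 z hz i l h1
  -- the isomorphism
  obtain ⟨ex, hex⟩ : ∃ ex : ((Σ i : Fin N, Fin (K - t i)) → ℂ) →
      (Fin (N + 1) × Fin (K * M + 1) → ℂ), ex = fun δ q =>
        (Fin.cons (if (q.2 : ℕ) = h then 1 else 0) (fun i => ext δ (i, q.2)) :
          Fin (N + 1) → ℂ) q.1 := ⟨_, rfl⟩
  have hex0 : ∀ δ (v : Fin (K * M + 1)), ex δ (0, v) = if (v : ℕ) = h then 1 else 0 := by
    intro δ v
    rw [hex]
    rfl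
  have hexs : ∀ δ (i : Fin N) (v : Fin (K * M + 1)), ex δ (i.succ, v) = ext δ (i, v) := by
    intro δ i v
    rw [hex]
    rfl
  obtain ⟨Y, hY⟩ : ∃ Y : ((Fin N ⊕ (Σ i : Fin N, Fin (K - t i))) → ℂ) →
      (Fin (N + 1) ⊕ (Fin (N + 1) × Fin (K * M + 1)) → ℂ), Y = fun y =>
        Sum.elim (Fin.cons 0 (fun i => y (Sum.inl i))) (ex fun q => y (Sum.inr q)) := ⟨_, rfl⟩
  have hY0 : ∀ y, Y y (Sum.inl 0) = 0 := fun y => by rw [hY]; rfl
  have hYs : ∀ y (i : Fin N), Y y (Sum.inl i.succ) = y (Sum.inl i) := fun y i => by rw [hY]; rfl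
  have hYr : ∀ y q, Y y (Sum.inr q) = ex (fun q => y (Sum.inr q)) q := fun y q => by rw [hY]; rfl
  have hYl : ∀ y, (fun j => Y y (Sum.inl j)) =
      (Fin.cons 0 (fun i => y (Sum.inl i)) : Fin (N + 1) → ℂ) := fun y => by rw [hY]; rfl
  have hiso : RegIso (TSS w d M f B S h K η)
      (prodSet S (Set.univ : Set ((Σ i : Fin N, Fin (K - t i)) → ℂ))) := by
    choose P hP using fun (g : MvPolynomial (Fin (N + 1)) ℂ) (l : ℕ) =>
      C2bk_exists_subPoly (n := K * M + 1) h g l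
    have hpair : ∀ y ∈ prodSet S (Set.univ : Set ((Σ i : Fin N, Fin (K - t i)) → ℂ)),
        eval (fun i => Y y (Sum.inl i)) (jacDet u) ≠ 0 := by
      intro y hy
      rw [hYl]
      exact hSj _ hy.1
    have hstr : ∀ y ∈ prodSet S (Set.univ : Set ((Σ i : Fin N, Fin (K - t i)) → ℂ)),
        Ψ (Y y) = C2bp h (fun q => Ψ (Y y) (q.1.succ, q.2)) := by
      intro y hy
      obtain ⟨h1, h2⟩ := hΨ _ (hpair y hy)
      funext q
      obtain ⟨j, v⟩ := q
      induction j using Fin.cases with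
      | zero =>
        rw [C2bp_zero]
        by_cases hv : v = 0
        · subst hv
          rw [h1, hY0, Fin.val_zero, if_neg (by omega)]
        · have h3 := h2 0 v hv
          rw [hcj00, hYr, hex0] at h3
          exact h3
      | succ i => rw [C2bp_succ]
    have hback : ∀ y ∈ prodSet S (Set.univ : Set ((Σ i : Fin N, Fin (K - t i)) → ℂ)),
        (fun q => Ψ (Y y) (q.1.succ, q.2) : Fin N × Fin (K * M + 1) → ℂ) ∈
          TSS w d M f B S h K η := by
      intro y hy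
      have hst := hstr y hy
      obtain ⟨Z, hZ⟩ : ∃ Z, Z = Ψ (Y y) := ⟨_, rfl⟩
      obtain ⟨h1, h2⟩ := hΨ _ (hpair y hy)
      rw [← hZ] at h1 h2 hst ⊢
      obtain ⟨z, hz⟩ : ∃ z : Fin N × Fin (K * M + 1) → ℂ, z = fun q => Z (q.1.succ, q.2) :=
        ⟨_, rfl⟩
      rw [← hz] at hst ⊢
      have hbase : ∀ i, z (i, 0) = y (Sum.inl i) := fun i => by
        rw [hz]
        simp only
        rw [h1, hYs]
      have hcj : ∀ i (l : Fin (K * M + 1)), l ≠ 0 → CN.cj u Z (Fin.succ i, l) =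
          ext (fun q => y (Sum.inr q)) (i, l) := fun i l hl => by
        rw [h2 _ l hl, hYr, hexs]
      have htwist : C2bZ w' h ζ Z = Z := by
        have h3 := hΨu _ (C2bZ w' h ζ Z) (hpair y hy) (fun j => by
          unfold C2bZ
          simp only [Fin.val_zero, zero_add]
          rw [h1]
          induction j using Fin.cases with
          | zero => rw [hY0, mul_zero]
          | succ i =>
            rw [hYs, hw's]
            by_cases h4 : M ∣ h * w i
            · rw [hζ1 _ h4, one_mul]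
            · have h5 : y (Sum.inl i) = 0 := hSF hy.1 i h4
              rw [h5, mul_zero]) (fun j l hl => by
          rw [htw, h2 j l hl, hYr]
          induction j using Fin.cases with
          | zero => rw [hex0, he'0, hζs]
          | succ i =>
            rw [hexs, he's]
            by_cases h4 : M ∣ (l : ℕ) + h * e i
            · rw [hζ1 _ h4, one_mul]
            · rw [hext0 _ i l h4, mul_zero])
        rw [← h3, ← hZ]
      refine ⟨?_, ?_, ?_⟩
      · have h3 : (fun i => z (i, 0)) = fun i => y (Sum.inl i) := funext hbase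
        rw [h3]
        exact hy.1
      · intro i v hv
        have h3 := congrFun htwist (i.succ, v)
        unfold C2bZ at h3
        simp only at h3
        rw [hw's] at h3
        have h6 : Z (i.succ, v) = z (i, v) := by rw [hz]
        rw [h6] at h3
        have h4 : (ζ ^ ((v : ℕ) + h * w i) - 1) * z (i, v) = 0 := by
          linear_combination h3
        rcases mul_eq_zero.1 h4 with h5 | h5
        · exact absurd (sub_eq_zero.1 h5) (hζ2 _ hv)
        · exact h5
      · intro b hb v l hvl hl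
        have hlK : l * M < K * M := Nat.mul_lt_mul_of_pos_right hl hM
        rcases Nat.eq_zero_or_pos v with h3 | h3
        · subst h3
          rw [coeff_zero_sub hh1]
          have h4 : (fun i => (arc z i).coeff 0) = fun i => y (Sum.inl i) := by
            funext i
            rw [a1_arc_coeff, dif_pos (Nat.succ_pos _)]
            exact hbase i
          rw [h4, eval_dfm w (d b) (f b) (hW.ord b), hη b hb l (by omega)]
          exact hSv _ hy.1 b hb
        · have h4 : v < K * M + 1 := by omega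
          have h5 : (⟨v, h4⟩ : Fin (K * M + 1)) ≠ 0 := by
            intro h6
            have h7 := congrArg (fun x : Fin (K * M + 1) => (x : ℕ)) h6
            simp only [Fin.val_zero] at h7
            omega
          have h6 := hcj (φ b) ⟨v, h4⟩ h5
          have h7 : CN.cj u Z ((φ b).succ, ⟨v, h4⟩) = (sub h (arc z) (dfm w (d b) (f b))).coeff v := by
            rw [hst, hcjs, hut b hb]
          have h8 : M ∣ v + h * d b := ⟨l, by rw [hvl, mul_comm]⟩
          rw [← h7, h6, hext]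
          simp only
          rw [dif_neg, if_pos, hylb b hb, hvl, Nat.mul_div_cancel _ hM]
          · rw [het b hb]
            exact h8
          · rintro ⟨-, -, h9⟩
            rw [htt b hb] at h9
            have h10 := C2b_big hM h3 h8 h9
            omega
    refine ⟨fun z => Sum.elim (fun i => z (i, 0))
        (fun q => (sub h (arc z) (u q.1.succ)).coeff (lev q)),
      fun y => fun q => Ψ (Y y) (q.1.succ, q.2),
      ?_, ?_, ?_, hback, ?_, ?_⟩
    · rintro (i | q)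
      · exact regFun_coord _ _
      · refine (regFun_poly _ (P (u q.1.succ) (lev q))).congr fun z _ => ?_
        rw [hP]
        rfl
    · intro q
      refine RegFun.comp (F := {z | eval (fun i => z (Sum.inl i)) (jacDet u) ≠ 0})
        (h := fun z => Ψ z (q.1.succ, q.2)) (f := Y)
        ?_ (hΨr (q.1.succ, q.2)) (fun y hy => hpair y hy)
      rintro (j | p)
      · induction j using Fin.cases with
        | zero => exact (regFun_const _ 0).congr fun y _ => (hY0 y).symm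
        | succ i => exact (regFun_coord _ (Sum.inl i)).congr fun y _ => (hYs y i).symm
      · obtain ⟨j, v⟩ := p
        induction j using Fin.cases with
        | zero =>
          refine (regFun_const _ (if (v : ℕ) = h then 1 else 0)).congr fun y _ => ?_
          rw [hYr, hex0]
        | succ i =>
          by_cases hh : M ∣ (v : ℕ) + h * e i ∧ v ≠ 0 ∧ t i ≤ ((v : ℕ) - 1) / M
          · refine (regFun_coord _ (Sum.inr ⟨i, ⟨((v : ℕ) - 1) / M - t i,
              hjlt i v hh⟩⟩)).congr fun y _ => ?_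
            rw [hYr, hexs, hext]
            simp only
            rw [dif_pos hh]
          · refine (regFun_const _ (if M ∣ (v : ℕ) + h * e i then yl i v else 0)).congr
              fun y _ => ?_
            rw [hYr, hexs, hext]
            simp only
            rw [dif_neg hh]
    · intro z hz
      exact ⟨hz.1, trivial⟩
    · intro z hz
      have h1 : Ψ (Y (Sum.elim (fun i => z (i, 0))
          (fun q => (sub h (arc z) (u q.1.succ)).coeff (lev q)))) = C2bp h z := by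
        refine hΨu _ _ ?_ (fun j => ?_) (fun j l hl => ?_)
        · rw [hYl]
          exact hSj _ hz.1
        · induction j using Fin.cases with
          | zero => rw [C2bp_zero, hY0, Fin.val_zero, if_neg (by omega)]
          | succ i => rw [C2bp_succ, hYs]; rfl
        · induction j using Fin.cases with
          | zero => rw [hcj00, hYr, hex0, C2bp_zero]
          | succ i =>
            rw [hYr, hexs]
            exact hcjext z hz i l hl
      funext q
      show Ψ (Y _) (q.1.succ, q.2) = z q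
      rw [h1, C2bp_succ]
    · intro y hy
      have hst := hstr y hy
      obtain ⟨h1, h2⟩ := hΨ _ (hpair y hy)
      funext q
      rcases q with i | q
      · show Ψ (Y y) (i.succ, 0) = y (Sum.inl i)
        rw [h1, hYs]
      · show (sub h (arc fun q => Ψ (Y y) (q.1.succ, q.2)) (u q.1.succ)).coeff (lev q) =
          y (Sum.inr q)
        rw [← hcjs, ← hst, h2 _ _ (hlev0 q), hYr, hexs, hextlev]
  rw [cls_iso (constr_TSS hS η) (hS.prodSet constr_univ) hiso, cls_prodSet hS constr_univ,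
    cls_univ, Fintype.card_sigma]
  congr 2
  rw [← C2bT_sum (w := w) hφ M h K, ← ht]
  exact Finset.sum_congr rfl fun i _ => Fintype.card_fin _

end WH
end MotMono
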