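import Pool.Agent.Lib.MP_4e5fcd_ag.WH.C1
import Pool.Agent.Lib.MP_4e5fcd_ag.WH.C3
import Pool.Agent.Lib.MP_4e5fcd_ag.SW.C2a
import Pool.Agent.Lib.MP_4e5fcd_ag.SW.C2b

/-!
# SW-C3: the class of a sector

`jac_uuS`: the first row of the Jacobian matrix of `uuS` at `(0, c)` is `(1, 0, …, 0)` and the other
rows have the `x`-part `xgrad (dfm (f b)) c = grad (ini b) c` or unit vectors, so the determinant is
`eval c (jacDet (uu (ini w d f) B φ))` (`Matrix.det_succ_row_zero` or `Matrix.det_fromBlocks…`).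
`cls_SecS`: as WH-C3 (`cls_Sec`): partition by `φ` (`exists_minor` for the family `ini w d f`).
-/

open MvPolynomial

namespace MotMono
namespace WH

variable {N r : ℕ}

theorem jac_uuS {w : Fin N → ℕ} {d : Fin r → ℕ} {f : Fin r → MvPolynomial (Fin N) ℂ}
    (hW : SWt w d f) (B : Finset (Fin r)) (φ : Fin r → Fin N) (c : Fin N → ℂ) :
    eval (Fin.cons 0 c : Fin (N + 1) → ℂ) (jacDet (uuS w d f B φ)) =
      eval c (jacDet (uu (ini w d f) B φ)) := by
  classical
  unfold jacDet
  rw [RingHom.map_det, RingHom.map_det, Matrix.det_succ_row_zero, Finset.sum_eq_single 0]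
  · have h0 : ((eval (Fin.cons 0 c : Fin (N + 1) → ℂ)).mapMatrix
        (Matrix.of fun i j => pderiv j (uuS w d f B φ i))) 0 0 = 1 := by
      show eval (Fin.cons 0 c : Fin (N + 1) → ℂ) (pderiv 0 (X 0)) = 1
      rw [pderiv_X_self, map_one]
    rw [h0, Fin.succAbove_zero]
    simp only [Fin.val_zero, pow_zero, one_mul]
    congr 1
    ext i j
    show eval (Fin.cons 0 c : Fin (N + 1) → ℂ) (pderiv j.succ (uuS w d f B φ i.succ)) =
      eval c (pderiv j (uu (ini w d f) B φ i))
    unfold uuS uu
    rw [Fin.cons_succ]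
    by_cases hi : ∃ b ∈ B, φ b = i
    · rw [dif_pos hi, dif_pos hi]
      exact congrFun (xgrad_dfm w (d hi.choose) (f hi.choose) (hW.ord hi.choose) c) j
    · rw [dif_neg hi, dif_neg hi, pderiv_X, pderiv_X, Pi.single_apply, Pi.single_apply]
      by_cases hij : i = j
      · rw [if_pos hij, if_pos (by rw [hij]), map_one, map_one]
      · rw [if_neg hij, if_neg (fun h => hij (Fin.succ_injective _ h)), map_zero, map_zero]
  · intro j _ hj
    have h0 : ((eval (Fin.cons 0 c : Fin (N + 1) → ℂ)).mapMatrix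
        (Matrix.of fun i j => pderiv j (uuS w d f B φ i))) 0 j = 0 := by
      show eval (Fin.cons 0 c : Fin (N + 1) → ℂ) (pderiv j (X 0)) = 0
      rw [pderiv_X_of_ne (Ne.symm hj), map_zero]
    rw [h0, mul_zero, zero_mul]
  · intro h
    exact absurd (Finset.mem_univ _) h

/-- the formula on the part of `S` where the minor of `φ` is not zero -/
private theorem c3s_piece {w : Fin N → ℕ} {d : Fin r → ℕ} {f : Fin r → MvPolynomial (Fin N) ℂ}
    (hW : SWt w d f) {M h K n : ℕ} (hM : 0 < M) (hh : 1 ≤ h)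
    (hn : ∀ i, h * w i + K * M ≤ n * M)
    {B : Finset (Fin r)} {φ : Fin r → Fin N} (hφ : Set.InjOn φ B)
    {S : Set (Fin N → ℂ)} (hS : Constr S) (hSF : S ⊆ FixH w M h)
    (hSv : ∀ c ∈ S, ∀ b ∈ B, eval c (ini w d f b) = 0)
    (hSj : ∀ c ∈ S, eval c (jacDet (uu (ini w d f) B φ)) ≠ 0)
    (η : Fin r → ℕ → ℂ) (hη : ∀ b ∈ B, ∀ l, l * M ≤ h * d b → η b l = 0) :
    cls (SecS w M f B S h K n η) =
      cls S * LL ^ (∑ i, (n - h * w i / M) - ∑ b ∈ B, (K - 1 - h * d b / M)) := by
  rw [cls_SecS_TSS hW hM hn B hS η (fun b hb l hl => hη b hb l hl.le),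
    cls_TSS hW hM hh hφ hS hSF hSv (fun c hc => by rw [jac_uuS hW]; exact hSj c hc) η hη,
    mul_assoc, ← pow_add]
  congr 2
  have hcard : B.card ≤ N := by
    have h1 := Finset.card_image_of_injOn hφ
    rw [← h1]
    exact (Finset.card_le_univ _).trans (by simp)
  have h2 : ∑ b ∈ B, (K - 1 - h * d b / M) ≤ N * K := by
    calc ∑ b ∈ B, (K - 1 - h * d b / M) ≤ ∑ b ∈ B, K := Finset.sum_le_sum fun b _ =>
        (Nat.sub_le _ _).trans (Nat.sub_le _ _)
      _ = B.card * K := by rw [Finset.sum_const, smul_eq_mul]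
      _ ≤ N * K := Nat.mul_le_mul_right _ hcard
  have h3 : ∀ i, K ≤ n - h * w i / M := by
    intro i
    have h4 : (h * w i + K * M) / M ≤ n := by
      apply Nat.div_le_of_le_mul
      rw [mul_comm M n]
      exact hn i
    rw [Nat.add_mul_div_right _ _ hM] at h4
    omega
  have h5 : ∑ i, (n - h * w i / M) = ∑ i, (n - h * w i / M - K) + N * K := by
    have : ∑ i, (n - h * w i / M) = ∑ i, ((n - h * w i / M - K) + K) :=
      Finset.sum_congr rfl fun i _ => by
        have := h3 i
        omega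
    rw [this, Finset.sum_add_distrib]
    simp
  omega

private theorem c3s_pos {w : Fin N → ℕ} {d : Fin r → ℕ} {f : Fin r → MvPolynomial (Fin N) ℂ}
    (hW : SWt w d f) {M h K n : ℕ} (hM : 0 < M) (hh : 1 ≤ h)
    (hn : ∀ i, h * w i + K * M ≤ n * M)
    {B : Finset (Fin r)} (η : Fin r → ℕ → ℂ) (hη : ∀ b ∈ B, ∀ l, l * M ≤ h * d b → η b l = 0)
    (Φ : Finset (Fin r → Fin N)) :
    ∀ {S : Set (Fin N → ℂ)}, Constr S → S ⊆ FixH w M h →
    (∀ c ∈ S, ∀ b ∈ B, eval c (ini w d f b) = 0) →
    (∀ c ∈ S, ∃ φ ∈ Φ, Set.InjOn φ B ∧ eval c (jacDet (uu (ini w d f) B φ)) ≠ 0) →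
    cls (SecS w M f B S h K n η) =
      cls S * LL ^ (∑ i, (n - h * w i / M) - ∑ b ∈ B, (K - 1 - h * d b / M)) := by
  classical
  induction Φ using Finset.induction_on with
  | empty =>
    intro S hS hSF hSv hc
    have h1 : S = ∅ := by
      ext c
      constructor
      · intro hcS
        obtain ⟨φ, hφ, _⟩ := hc c hcS
        exact absurd hφ (Finset.notMem_empty _)
      · intro hcS
        exact absurd hcS (Set.notMem_empty _)
    have h2 : SecS w M f B S h K n η = ∅ := by
      ext γ
      constructor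
      · intro hγ
        have := hγ.2.1
        rw [h1] at this
        exact absurd this (Set.notMem_empty _)
      · intro hγ
        exact absurd hγ (Set.notMem_empty _)
    rw [h2, h1, cls_empty, cls_empty, zero_mul]
  | insert φ Φ _ ih =>
    intro S hS hSF hSv hc
    by_cases hφ : Set.InjOn φ B
    · have hS1 : Constr (S ∩ {c | eval c (jacDet (uu (ini w d f) B φ)) ≠ 0}) :=
        hS.inter (constr_ne _)
      have hS2 : Constr (S ∩ {c | eval c (jacDet (uu (ini w d f) B φ)) = 0}) :=
        hS.inter (Constr.zeroSet _)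
      have h1 := c3s_piece hW hM hh hn hφ hS1 (fun c hc => hSF hc.1) (fun c hc => hSv c hc.1)
        (fun c hc => hc.2) η hη
      have h2 := ih hS2 (fun c hc => hSF hc.1) (fun c hc => hSv c hc.1) (by
        intro c hcS
        obtain ⟨ψ, hψ, h3, h4⟩ := hc c hcS.1
        rcases Finset.mem_insert.1 hψ with rfl | h5
        · exact absurd hcS.2 h4
        · exact ⟨ψ, h5, h3, h4⟩)
      have hdisj : Disjoint (S ∩ {c | eval c (jacDet (uu (ini w d f) B φ)) ≠ 0})
          (S ∩ {c | eval c (jacDet (uu (ini w d f) B φ)) = 0}) := by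
        rw [Set.disjoint_left]
        rintro c ⟨_, h3⟩ ⟨_, h4⟩
        exact h3 h4
      have hun : (S ∩ {c | eval c (jacDet (uu (ini w d f) B φ)) ≠ 0}) ∪
          (S ∩ {c | eval c (jacDet (uu (ini w d f) B φ)) = 0}) = S := by
        ext c
        simp only [Set.mem_union, Set.mem_inter_iff, Set.mem_ofPred_eq]
        tauto
      have hun2 : SecS w M f B S h K n η =
          SecS w M f B (S ∩ {c | eval c (jacDet (uu (ini w d f) B φ)) ≠ 0}) h K n η ∪
          SecS w M f B (S ∩ {c | eval c (jacDet (uu (ini w d f) B φ)) = 0}) h K n η := by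
        ext γ
        simp only [SecS, Set.mem_union, Set.mem_inter_iff, Set.mem_ofPred_eq]
        tauto
      have hdisj2 : Disjoint
          (SecS w M f B (S ∩ {c | eval c (jacDet (uu (ini w d f) B φ)) ≠ 0}) h K n η)
          (SecS w M f B (S ∩ {c | eval c (jacDet (uu (ini w d f) B φ)) = 0}) h K n η) := by
        rw [Set.disjoint_left]
        rintro γ h3 h4
        exact h3.2.1.2 h4.2.1.2
      have h6 : cls S = cls (S ∩ {c | eval c (jacDet (uu (ini w d f) B φ)) ≠ 0}) +
          cls (S ∩ {c | eval c (jacDet (uu (ini w d f) B φ)) = 0}) := by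
        rw [← cls_union hS1 hS2 hdisj, hun]
      rw [hun2, cls_union (constr_SecS w M f B hS1 h K n η) (constr_SecS w M f B hS2 h K n η)
        hdisj2, h1, h2, h6, add_mul]
    · refine ih hS hSF hSv ?_
      intro c hcS
      obtain ⟨ψ, hψ, h3, h4⟩ := hc c hcS
      rcases Finset.mem_insert.1 hψ with rfl | h5
      · exact absurd h3 hφ
      · exact ⟨ψ, h5, h3, h4⟩

theorem cls_SecS {w : Fin N → ℕ} {d : Fin r → ℕ} {f : Fin r → MvPolynomial (Fin N) ℂ}
    (hW : SWt w d f) {M h K n : ℕ} (hM : 0 < M) (hh : 1 ≤ h)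
    (hn : ∀ i, h * w i + K * M ≤ n * M) {B : Finset (Fin r)} {S : Set (Fin N → ℂ)}
    (hS : Constr S) (hSF : S ⊆ FixH w M h)
    (hSv : ∀ c ∈ S, ∀ b ∈ B, eval c (ini w d f b) = 0)
    (hSi : ∀ c ∈ S, LinearIndependent ℂ (fun b : B => grad (ini w d f b) c))
    (η : Fin r → ℕ → ℂ) (hη : ∀ b ∈ B, ∀ l, l * M ≤ h * d b → η b l = 0) :
    cls (SecS w M f B S h K n η) =
      cls S * LL ^ (∑ i, (n - h * w i / M) - ∑ b ∈ B, (K - 1 - h * d b / M)) := by
  classical
  rcases Nat.eq_zero_or_pos N with rfl | hN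
  · by_cases hne : S.Nonempty
    · obtain ⟨c, hc⟩ := hne
      have hB : B = ∅ := by
        by_contra hB
        obtain ⟨b, hb⟩ := Finset.nonempty_iff_ne_empty.2 hB
        have h1 := (hSi c hc).ne_zero ⟨b, hb⟩
        exact h1 (Subsingleton.elim _ _)
      subst hB
      have h1 : S = {c} := by
        ext x
        simp only [Set.mem_singleton_iff]
        constructor
        · intro _
          exact Subsingleton.elim _ _
        · intro hx
          rw [hx]
          exact hc
      have h2 : SecS w M f ∅ S h K n η = {0} := by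
        ext γ
        simp only [Set.mem_singleton_iff]
        constructor
        · intro _
          funext q
          exact q.1.elim0
        · intro _
          refine ⟨fun i => i.elim0, ?_, fun b hb => absurd hb (Finset.notMem_empty _)⟩
          have : lead w M h γ = c := Subsingleton.elim _ _
          rw [this]
          exact hc
      rw [h2, cls_singleton, h1, cls_singleton]
      simp
    · have h1 : S = ∅ := Set.not_nonempty_iff_eq_empty.1 hne
      have h2 : SecS w M f B S h K n η = ∅ := by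
        ext γ
        constructor
        · intro hγ
          have := hγ.2.1
          rw [h1] at this
          exact absurd this (Set.notMem_empty _)
        · intro hγ
          exact absurd hγ (Set.notMem_empty _)
      rw [h2, h1, cls_empty, cls_empty, zero_mul]
  · refine c3s_pos hW hM hh hn η hη Finset.univ hS hSF hSv ?_
    intro c hc
    obtain ⟨φ, h1, h2⟩ := exists_minor hN (hSi c hc)
    exact ⟨φ, Finset.mem_univ _, h1, h2⟩

end WH
end MotMono
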