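import Pool.Agent.Lib.MP_4e5fcd_ag.CN.C1
import Pool.Agent.Lib.MP_4e5fcd_ag.WH.D3
import Pool.Agent.Lib.MP_4e5fcd_ag.SW.B1

/-!
# SW-D3: strata and the action of `ℂ^*`

For `F j` weighted homogeneous of degree `d j`, `s ≠ 0`: `eval (act w s c) (F j) = s ^ (d j) * eval c (F j)`
and `s ^ (w i) * grad (F j) (act w s c) i = s ^ (d j) * grad (F j) c i` (differentiate, or compare
monomials). So `grad (F j) (act w s c) = T (s ^ (d j) • grad (F j) c)`, `T` the invertible diagonal map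
`v i ↦ s ^ (-w i) v i`: `Adm` at `c` and at `act w s c` are equivalent (`adm_act`).
`exists_strataS`: the proof of WH-D3 (the sets are boolean combinations of the sets `Adm`).
`chi_act`: `CN.chi_cstar` with the weights `w`.
-/

open MvPolynomial

namespace MotMono
namespace WH

variable {N r : ℕ}

theorem eval_act {w : Fin N → ℕ} {g : MvPolynomial (Fin N) ℂ} {δ : ℕ}
    (hg : IsWeightedHomogeneous w g δ) (s : ℂ) (c : Fin N → ℂ) :
    eval (act w s c) g = s ^ δ * eval c g := by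
  rw [eval_eq', eval_eq', Finset.mul_sum]
  refine Finset.sum_congr rfl fun m hm => ?_
  have h1 : ∑ i, m i * w i = δ := by
    have h2 := hg (mem_support_iff.1 hm)
    rw [Finsupp.weight_apply, Finsupp.sum_fintype _ _ (fun i => zero_smul ℕ (w i))] at h2
    rw [← h2]
    exact Finset.sum_congr rfl fun i _ => (smul_eq_mul _ _).symm
  have h3 : ∏ i, act w s c i ^ m i = s ^ δ * ∏ i, c i ^ m i := by
    rw [← h1, ← Finset.prod_pow_eq_pow_sum, ← Finset.prod_mul_distrib]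
    refine Finset.prod_congr rfl fun i _ => ?_
    unfold act
    rw [mul_pow, ← pow_mul, Nat.mul_comm]
  rw [h3]
  ring

theorem grad_act {w : Fin N → ℕ} {g : MvPolynomial (Fin N) ℂ} {δ : ℕ}
    (hg : IsWeightedHomogeneous w g δ) (s : ℂ) (c : Fin N → ℂ) (i : Fin N) :
    s ^ w i * grad g (act w s c) i = s ^ δ * grad g c i := by
  classical
  by_cases hwd : w i ≤ δ
  · have h1 : IsWeightedHomogeneous w (pderiv i g) (δ - w i) :=
      hg.pderiv (Nat.sub_add_cancel hwd)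
    unfold grad
    rw [eval_act h1, ← mul_assoc, ← pow_add, Nat.add_sub_cancel' hwd]
  · have h1 : pderiv i g = 0 := by
      refine pderiv_eq_zero_of_notMem_vars fun hi => ?_
      rw [mem_vars_iff_mem_support] at hi
      obtain ⟨m, hm, him⟩ := hi
      have h2 := hg (mem_support_iff.1 hm)
      rw [Finsupp.weight_apply, Finsupp.sum] at h2
      have h3 : m i • w i ≤ δ := by
        rw [← h2]
        exact Finset.single_le_sum (f := fun j => m j • w j) (fun _ _ => Nat.zero_le _) him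
      rw [smul_eq_mul] at h3
      exact hwd (le_trans (Nat.le_mul_of_pos_left _
        (Nat.pos_of_ne_zero (Finsupp.mem_support_iff.1 him))) h3)
    unfold grad
    rw [h1, map_zero, map_zero, mul_zero, mul_zero]

theorem adm_act {w : Fin N → ℕ} {d : Fin r → ℕ} {F : Fin r → MvPolynomial (Fin N) ℂ}
    (hF : ∀ j, IsWeightedHomogeneous w (F j) (d j)) {s : ℂ} (hs : s ≠ 0) {c : Fin N → ℂ} {E : ℕ}
    {B : Finset (Fin r)} (hA : Adm d F c E B) : Adm d F (act w s c) E B := by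
  obtain ⟨T, hT⟩ : ∃ T : (Fin N → ℂ) →ₗ[ℂ] (Fin N → ℂ), ∀ v i, T v i = (s ^ w i)⁻¹ * v i :=
    ⟨LinearMap.pi fun i => (s ^ w i)⁻¹ • LinearMap.proj i, fun v i => by
      rw [LinearMap.pi_apply, LinearMap.smul_apply, LinearMap.proj_apply, smul_eq_mul]⟩
  have hker : LinearMap.ker T = ⊥ := by
    rw [LinearMap.ker_eq_bot']
    intro v hv
    funext i
    have h1 := congrFun hv i
    rw [hT, Pi.zero_apply] at h1
    exact (mul_eq_zero.1 h1).resolve_left (inv_ne_zero (pow_ne_zero _ hs))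
  have hgr : ∀ j, grad (F j) (act w s c) = s ^ d j • T (grad (F j) c) := by
    intro j
    funext i
    rw [Pi.smul_apply, hT, smul_eq_mul]
    have h1 := grad_act (hF j) s c i
    have h2 : s ^ w i ≠ 0 := pow_ne_zero _ hs
    calc grad (F j) (act w s c) i = (s ^ w i)⁻¹ * (s ^ w i * grad (F j) (act w s c) i) := by
          rw [← mul_assoc, inv_mul_cancel₀ h2, one_mul]
      _ = s ^ d j * ((s ^ w i)⁻¹ * grad (F j) c i) := by rw [h1]; ring
  refine ⟨hA.le, fun j hj => ?_, fun hE => ?_, hA.lt, ?_, fun j hj => ?_⟩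
  · rw [eval_act (hF j), hA.van j hj, mul_zero]
  · obtain ⟨j, h1, h2⟩ := hA.top hE
    refine ⟨j, h1, ?_⟩
    rw [eval_act (hF j)]
    exact mul_ne_zero (pow_ne_zero _ hs) h2
  · have h1 := (hA.ind.map' T hker).units_smul (fun b : B => Units.mk0 (s ^ d b) (pow_ne_zero _ hs))
    have h2 : (fun b : B => grad (F b) (act w s c)) =
        (fun b : B => Units.mk0 (s ^ d b) (pow_ne_zero _ hs)) •
          (⇑T ∘ fun b : B => grad (F b) c) := by
      funext b
      exact hgr b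
    rw [h2]
    exact h1
  · rw [hgr]
    refine Submodule.smul_mem _ _ ?_
    have h1 : Submodule.span ℂ {v | ∃ b ∈ B, d b ≤ d j ∧ v = grad (F b) c} ≤
        (Submodule.span ℂ {v | ∃ b ∈ B, d b ≤ d j ∧ v = grad (F b) (act w s c)}).comap T := by
      refine Submodule.span_le.2 ?_
      rintro _ ⟨b, hb, hbj, rfl⟩
      have h2 : T (grad (F b) c) = (s ^ d b)⁻¹ • grad (F b) (act w s c) := by
        rw [hgr, smul_smul, inv_mul_cancel₀ (pow_ne_zero _ hs), one_smul]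
      rw [SetLike.mem_coe, Submodule.mem_comap, h2]
      exact Submodule.smul_mem _ _ (Submodule.subset_span ⟨b, hb, hbj, rfl⟩)
    exact h1 (hA.mem j hj)

theorem exists_strataS {w : Fin N → ℕ} {d : Fin r → ℕ} {F : Fin r → MvPolynomial (Fin N) ℂ}
    (hF : ∀ j, IsWeightedHomogeneous w (F j) (d j)) :
    ∃ St : ℕ × Finset (Fin r) → Set (Fin N → ℂ), (∀ τ, Constr (St τ)) ∧
      (∀ τ τ', τ ≠ τ' → Disjoint (St τ) (St τ')) ∧
      (∀ c, ∃ τ ∈ Finset.range (dmax d + 2) ×ˢ (Finset.univ : Finset (Finset (Fin r))),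
        c ∈ St τ) ∧ (∀ τ, ∀ c ∈ St τ, Adm d F c τ.1 τ.2) ∧
      ∀ τ, ∀ s : ℂ, s ≠ 0 → ∀ c ∈ St τ, act w s c ∈ St τ := by
  classical
  set I : Finset (ℕ × Finset (Fin r)) :=
    Finset.range (dmax d + 2) ×ˢ (Finset.univ : Finset (Finset (Fin r))) with hI
  let num : I → ℕ := fun τ => (I.equivFin τ : ℕ)
  let A : ℕ × Finset (Fin r) → Set (Fin N → ℂ) := fun τ => {c | Adm d F c τ.1 τ.2}
  have hA : ∀ τ, Constr (A τ) := fun τ => constr_adm d F τ.1 τ.2
  let pre : I → Finset I := fun τ => Finset.univ.filter fun τ' => num τ' < num τ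
  let St : ℕ × Finset (Fin r) → Set (Fin N → ℂ) := fun τ =>
    if h : τ ∈ I then A τ \ ⋃ τ' ∈ pre ⟨τ, h⟩, A τ'.1 else ∅
  have hSt : ∀ τ (h : τ ∈ I), St τ = A τ \ ⋃ τ' ∈ pre ⟨τ, h⟩, A τ'.1 := fun τ h => dif_pos h
  have hSt' : ∀ τ, τ ∉ I → St τ = ∅ := fun τ h => dif_neg h
  have hact : ∀ (τ : ℕ × Finset (Fin r)) (s : ℂ), s ≠ 0 → ∀ c, c ∈ A τ → act w s c ∈ A τ :=
    fun τ s hs c hc => adm_act hF hs hc
  have hact' : ∀ (τ : ℕ × Finset (Fin r)) (s : ℂ), s ≠ 0 → ∀ c, act w s c ∈ A τ → c ∈ A τ := by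
    intro τ s hs c hc
    have h1 := hact τ s⁻¹ (inv_ne_zero hs) _ hc
    have h2 : act w s⁻¹ (act w s c) = c := by
      funext i
      unfold act
      rw [← mul_assoc, ← mul_pow, inv_mul_cancel₀ hs, one_pow, one_mul]
    rwa [h2] at h1
  refine ⟨St, fun τ => ?_, fun τ τ' hne => ?_, fun c => ?_, fun τ c hc => ?_,
    fun τ s hs c hc => ?_⟩
  · by_cases h : τ ∈ I
    · rw [hSt τ h]
      exact (hA τ).diff (constr_biUnion _ fun τ' _ => hA τ'.1)
    · rw [hSt' τ h]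
      exact constr_empty
  · rw [Set.disjoint_left]
    intro c h1 h2
    by_cases h : τ ∈ I
    · by_cases h' : τ' ∈ I
      · rw [hSt τ h] at h1
        rw [hSt τ' h'] at h2
        rcases lt_trichotomy (num ⟨τ, h⟩) (num ⟨τ', h'⟩) with h3 | h3 | h3
        · exact h2.2 (Set.mem_biUnion (Finset.mem_filter.2 ⟨Finset.mem_univ _, h3⟩) h1.1)
        · have h4 : (⟨τ, h⟩ : I) = ⟨τ', h'⟩ := I.equivFin.injective (Fin.ext h3)
          exact hne (Subtype.mk.inj h4)
        · exact h1.2 (Set.mem_biUnion (Finset.mem_filter.2 ⟨Finset.mem_univ _, h3⟩) h2.1)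
      · rw [hSt' τ' h'] at h2
        exact h2
    · rw [hSt' τ h] at h1
      exact h1
  · obtain ⟨E, B, hEB⟩ := exists_adm d F c
    have h0 : (E, B) ∈ I := by
      rw [hI, Finset.mem_product, Finset.mem_range]
      exact ⟨Nat.lt_succ_of_le hEB.le, Finset.mem_univ _⟩
    have h1 : ∃ m, ∃ τ : I, num τ = m ∧ c ∈ A τ.1 := ⟨_, ⟨(E, B), h0⟩, rfl, hEB⟩
    obtain ⟨τ, hτ, hc⟩ := Nat.find_spec h1
    refine ⟨τ.1, τ.2, ?_⟩
    rw [hSt τ.1 τ.2]
    refine ⟨hc, fun h2 => ?_⟩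
    rw [Set.mem_iUnion₂] at h2
    obtain ⟨τ', h3, h4⟩ := h2
    have h5 : num τ' < num τ := (Finset.mem_filter.1 h3).2
    rw [hτ] at h5
    exact Nat.find_min h1 h5 ⟨τ', rfl, h4⟩
  · by_cases h : τ ∈ I
    · rw [hSt τ h] at hc
      exact hc.1
    · rw [hSt' τ h] at hc
      exact absurd hc (Set.notMem_empty c)
  · by_cases h : τ ∈ I
    · rw [hSt τ h] at hc ⊢
      refine ⟨hact τ s hs c hc.1, fun h2 => hc.2 ?_⟩
      rw [Set.mem_iUnion₂] at h2 ⊢
      obtain ⟨τ', h3, h4⟩ := h2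
      exact ⟨τ', h3, hact' τ'.1 s hs c h4⟩
    · rw [hSt' τ h] at hc
      exact absurd hc (Set.notMem_empty c)

theorem chi_act {χ : K0 →+* ℤ} (hχ : IsEulerCharF χ) {w : Fin N → ℕ} (hw : ∀ i, 0 < w i)
    {S : Set (Fin N → ℂ)} (hS : Constr S) (h0 : ∀ c ∈ S, c ≠ 0)
    (hs : ∀ s : ℂ, s ≠ 0 → ∀ c ∈ S, act w s c ∈ S) : χ (cls S) = 0 := by
  refine CN.chi_cstar hχ (fun i => (w i : ℤ)) S hS (fun s hs' z hz => ?_) fun z hz => ?_
  · have h1 : (fun q => s ^ ((w q : ℤ)) * z q) = act w s z := by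
      funext q
      unfold act
      rw [zpow_natCast]
    rw [h1]
    exact hs s hs' z hz
  · obtain ⟨q, hq⟩ := Function.ne_iff.1 (h0 z hz)
    exact ⟨q, by exact_mod_cast (hw q).ne', hq⟩

end WH
end MotMono
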