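import Pool.Agent.Lib.MP_4e5fcd_ag.CN.P1
import Pool.Agent.Lib.MP_4e5fcd_ag.WH.D2
import Pool.Agent.Lib.MP_4e5fcd_ag.SW.D3

/-!
# SW-V1b: the condition `Cnd`

`constr_Cnd`: as in WH-D2: where the `grad (F b) c`, `b ∈ B`, are independent, the vectors
`agrad (F b) …`, `b ∈ B`, `d b ≤ e`, are independent, and `agrad (F j) (y j) c` is in their span iff the
extended family is not independent (or: iff it is so for the family in `ℂ ^ (N + 1)`, `d2_li_iff`,
`d2_constr_li` in WH-D2; their coordinates are polynomials in `c` or constants).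
`Cnd_act`: by `grad_act`, `agrad (F j) (y j) (act w s c) = T (agrad (F j) (y j) c)` for `d j = e` and
`agrad (F b) 0 (act w s c) = s ^ (d b - e) T (agrad (F b) 0 c)` for `d b < e`, where `T` is the invertible
linear map `(v, t) ↦ (s ^ (e - w i) v i, t)`.
-/

open MvPolynomial

namespace MotMono
namespace WH

variable {N r : ℕ}

/-- the gradient and the number as one vector -/
private noncomputable def sw1bPsi (N : ℕ) : (Fin N → ℂ) × ℂ →ₗ[ℂ] (Option (Fin N) → ℂ) :=
  LinearMap.pi fun o => o.elim (LinearMap.snd ℂ (Fin N → ℂ) ℂ)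
    fun i => (LinearMap.proj i).comp (LinearMap.fst ℂ (Fin N → ℂ) ℂ)

private theorem sw1bPsi_inj : Function.Injective (sw1bPsi N) := by
  intro a b h
  refine Prod.ext (funext fun i => ?_) ?_
  · exact congrFun h (some i)
  · exact congrFun h none

private theorem sw1b_constr_li (F : Fin r → MvPolynomial (Fin N) ℂ) (t : Fin r → ℂ)
    (A : Finset (Fin r)) :
    Constr {c | LinearIndepOn ℂ (fun j => agrad (F j) (t j) c) (A : Set (Fin r))} := by
  classical
  have e : {c : Fin N → ℂ | LinearIndepOn ℂ (fun j => agrad (F j) (t j) c) (A : Set (Fin r))} =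
      ⋃ φ : A → Option (Fin N), {c | eval c (Matrix.det (fun b b' : A =>
        ((φ b').elim (C (t b)) fun i => pderiv i (F b) : MvPolynomial (Fin N) ℂ))) ≠ 0} := by
    ext c
    rw [Set.mem_iUnion]
    have h1 : LinearIndepOn ℂ (fun j => agrad (F j) (t j) c) (A : Set (Fin r)) ↔
        LinearIndependent ℂ (fun b : A => sw1bPsi N (agrad (F b) (t b) c)) :=
      ((sw1bPsi N).linearIndependent_iff_of_injOn
        (fun a _ b _ h => sw1bPsi_inj h)).symm
    rw [Set.mem_ofPred_eq, h1, d2_li_iff]
    refine exists_congr fun φ => ?_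
    have h2 : eval c (Matrix.det (fun b b' : A =>
        ((φ b').elim (C (t b)) fun i => pderiv i (F b) : MvPolynomial (Fin N) ℂ))) =
        Matrix.det (fun b b' : A => sw1bPsi N (agrad (F b) (t b) c) (φ b')) := by
      have h3 := RingHom.map_det (eval c) (Matrix.of fun b b' : A =>
        ((φ b').elim (C (t b)) fun i => pderiv i (F b) : MvPolynomial (Fin N) ℂ))
      refine h3.trans ?_
      congr 1
      ext b b'
      show eval c ((φ b').elim (C (t b)) fun i => pderiv i (F b)) =
        sw1bPsi N (agrad (F b) (t b) c) (φ b')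
      cases φ b' with
      | none => exact eval_C _
      | some i => rfl
    rw [Set.mem_ofPred_eq, h2]
  rw [e]
  exact constr_iUnion fun φ => constr_ne _

theorem constr_Cnd (d : Fin r → ℕ) (F : Fin r → MvPolynomial (Fin N) ℂ) (e : ℕ) (y : Fin r → ℂ)
    (B : Finset (Fin r)) :
    Constr {c | LinearIndependent ℂ (fun b : B => grad (F b) c) ∧ Cnd d F e y B c} := by
  classical
  have hp : ∀ p : Prop, Constr {_c : Fin N → ℂ | p} := by
    intro p
    by_cases h : p
    · have : {_c : Fin N → ℂ | p} = Set.univ := by ext; simp [h]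
      rw [this]; exact constr_univ
    · have : {_c : Fin N → ℂ | p} = ∅ := by ext; simp [h]
      rw [this]; exact constr_empty
  set t : Fin r → ℂ := fun b => if d b = e then y b else 0 with ht
  set B' : Finset (Fin r) := B.filter fun b => d b ≤ e with hB'
  have key : ∀ c : Fin N → ℂ, LinearIndepOn ℂ (fun j => grad (F j) c) (B : Set (Fin r)) →
      ∀ j, d j = e → (agrad (F j) (y j) c ∈ Submodule.span ℂ {v | ∃ b ∈ B, d b ≤ e ∧
        v = agrad (F b) (if d b = e then y b else 0) c} ↔
          (j ∈ B ∨ ¬ LinearIndepOn ℂ (fun j => agrad (F j) (t j) c)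
          ((insert j B' : Finset (Fin r)) : Set (Fin r)))) := by
    intro c hB j hje
    have htj : t j = y j := by rw [ht]; exact if_pos hje
    by_cases hj : j ∈ B
    · simp only [hj, true_or, iff_true]
      refine Submodule.subset_span ⟨j, hj, hje.le, ?_⟩
      rw [if_pos hje]
    · have hset : {v | ∃ b ∈ B, d b ≤ e ∧ v = agrad (F b) (if d b = e then y b else 0) c} =
          (fun j => agrad (F j) (t j) c) '' ((B' : Finset (Fin r)) : Set (Fin r)) := by
        ext v
        simp only [Set.mem_ofPred_eq, Set.mem_image, Finset.mem_coe, hB', Finset.mem_filter]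
        constructor
        · rintro ⟨b, h1, h2, h3⟩
          exact ⟨b, ⟨h1, h2⟩, h3.symm⟩
        · rintro ⟨b, ⟨h1, h2⟩, h3⟩
          exact ⟨b, h1, h2, h3.symm⟩
      have hsub : (B' : Set (Fin r)) ⊆ B := by
        intro b hb
        exact (Finset.mem_filter.1 hb).1
      have hBb : LinearIndepOn ℂ (fun j => agrad (F j) (t j) c) (B' : Set (Fin r)) := by
        have h1 : LinearIndependent ℂ (fun b : B' => grad (F b) c) := hB.mono hsub
        exact LinearIndependent.of_comp (LinearMap.fst ℂ (Fin N → ℂ) ℂ) h1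
      have hnot : j ∉ (B' : Set (Fin r)) := fun h => hj (hsub h)
      rw [hset, Finset.coe_insert, linearIndepOn_insert hnot]
      simp only [hj, false_or, hBb, true_and, not_not, htj]
  have e1 : {c : Fin N → ℂ | LinearIndependent ℂ (fun b : B => grad (F b) c) ∧ Cnd d F e y B c} =
      {c | LinearIndepOn ℂ (fun j => grad (F j) c) (B : Set (Fin r))} ∩
      ⋂ j : Fin r, ({_c : Fin N → ℂ | d j ≠ e ∨ j ∈ B} ∪
        {c | LinearIndepOn ℂ (fun j => agrad (F j) (t j) c)
          ((insert j B' : Finset (Fin r)) : Set (Fin r))}ᶜ) := by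
    ext c
    simp only [Set.mem_inter_iff, Set.mem_union, Set.mem_iInter, Set.mem_ofPred_eq,
      Set.mem_compl_iff]
    constructor
    · rintro ⟨h1, h2⟩
      refine ⟨h1, fun j => ?_⟩
      by_cases hj : d j = e
      · rcases (key c h1 j hj).1 (h2 j hj) with h | h
        · exact Or.inl (Or.inr h)
        · exact Or.inr h
      · exact Or.inl (Or.inl hj)
    · rintro ⟨h1, h2⟩
      refine ⟨h1, fun j hj => (key c h1 j hj).2 ?_⟩
      rcases h2 j with (h | h) | h
      · exact absurd hj h
      · exact Or.inl h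
      · exact Or.inr h
  rw [e1]
  exact (d2_constr_li F B).inter (constr_iInter fun j =>
    (hp _).union (sw1b_constr_li F t _).compl)

theorem Cnd_act {w : Fin N → ℕ} {d : Fin r → ℕ} {F : Fin r → MvPolynomial (Fin N) ℂ}
    (hF : ∀ j, IsWeightedHomogeneous w (F j) (d j)) {e : ℕ} {y : Fin r → ℂ} {B : Finset (Fin r)}
    {s : ℂ} (hs : s ≠ 0) {c : Fin N → ℂ} (h : Cnd d F e y B c) :
    Cnd d F e y B (act w s c) := by
  set T : (Fin N → ℂ) × ℂ →ₗ[ℂ] (Fin N → ℂ) × ℂ :=
    LinearMap.prodMap (LinearMap.pi fun i => (s ^ e * (s ^ w i)⁻¹) • LinearMap.proj i)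
      LinearMap.id with hT
  have hTa : ∀ (v : Fin N → ℂ) (t : ℂ), T (v, t) = (fun i => s ^ e * (s ^ w i)⁻¹ * v i, t) := by
    intro v t
    rfl
  have hg : ∀ b i, grad (F b) (act w s c) i = s ^ d b * (s ^ w i)⁻¹ * grad (F b) c i := by
    intro b i
    have h1 := grad_act (hF b) s c i
    have h2 : s ^ w i ≠ 0 := pow_ne_zero _ hs
    field_simp
    linear_combination h1
  have hse : s ^ e ≠ 0 := pow_ne_zero _ hs
  have h1 : ∀ b, d b = e → ∀ t, agrad (F b) t (act w s c) = T (agrad (F b) t c) := by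
    intro b hb t
    unfold agrad
    rw [hTa]
    refine Prod.ext (funext fun i => ?_) rfl
    show grad (F b) (act w s c) i = _
    rw [hg, hb]
  have h2 : ∀ b, T (agrad (F b) 0 c) = (s ^ e * (s ^ d b)⁻¹) • agrad (F b) 0 (act w s c) := by
    intro b
    have h3 : s ^ d b ≠ 0 := pow_ne_zero _ hs
    unfold agrad
    rw [hTa]
    refine Prod.ext (funext fun i => ?_) ?_
    · show s ^ e * (s ^ w i)⁻¹ * grad (F b) c i
        = s ^ e * (s ^ d b)⁻¹ * grad (F b) (act w s c) i
      rw [hg]
      field_simp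
    · show (0 : ℂ) = s ^ e * (s ^ d b)⁻¹ * 0
      rw [mul_zero]
  intro j hj
  rw [h1 j hj]
  have h3 := Submodule.mem_map_of_mem (f := T) (h j hj)
  refine (Submodule.map_span_le T _ _).2 ?_ h3
  rintro v ⟨b, hb, hbe, rfl⟩
  by_cases hbe' : d b = e
  · rw [← h1 b hbe']
    exact Submodule.subset_span ⟨b, hb, hbe, rfl⟩
  · rw [if_neg hbe', h2 b]
    refine Submodule.smul_mem _ _ (Submodule.subset_span ⟨b, hb, hbe, ?_⟩)
    rw [if_neg hbe']

end WH
end MotMono
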