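import Pool.Agent.Lib.MP_4e5fcd_ag.SW.V1a
import Pool.Agent.Lib.MP_4e5fcd_ag.SW.V1b
import Pool.Agent.Lib.MP_4e5fcd_ag.SW.D3
import Pool.Agent.Lib.MP_4e5fcd_ag.SW.C3
import Pool.Agent.Lib.MP_4e5fcd_ag.WH.B4
import Pool.Agent.Lib.MP_4e5fcd_ag.WH.V1

/-!
# SW-V1c: Euler characteristics of contact sets

`F = ini w d f`, `M = ∏ i, w i`, `K = m + 1`, `n = K * (∑ i, w i + 1)`, `dm` = the least `d j`.
(1) `χ (cls (CAn … m n)) = χ (cls (CAn … m m))` for `n ≥ m` (the condition does not depend on the levels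
`> m`: `CN.along_trunc`; `cls_prodSet`, `χ LL = 1`), and `CAn d f e y m m = CAF d f e y m`.
(2) A jet `γ ∈ CAn … m n` is not in `Ball w dm K n` (there `coeff m (f j) = 0` for all `j`:
`low_coeffS` with `M, h` replaced by `dm, K`: `m dm < K dm ≤ K d_j`). So it has a weighted order `h / M`,
`1 ≤ h`, `h dm < K M`, with `lead ≠ 0` in exactly one `St τ` (`exists_strataS`; see `cls_AS` in WH-B4 for
the decomposition: `B4_exists`, … are private there: copy them). By `CA_lt`, `CA_eq`, `CA_gt`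
the piece `(τ, h)`, `τ = (E, B)`, is: `E < e`: empty; `E = e`: empty if `h e ≠ m M`, and otherwise
`SecS w M f B {c ∈ St τ, c ≠ 0, F j (c) = y j for d j = e} h K n 0`; `e < E`: empty, or
`SecS w M f B {c ∈ St τ, c ≠ 0, Cnd d F e y B c} h K n η`, `η b l = if l = m ∧ d b = e then y b else 0`.
(3) `e < E`: if `hη` holds then `χ = 0` by `cls_SecS` (restrict `S` to `FixH w M h`, `lead_mem`;
`χ LL = 1`) and `chi_act` (`S` is stable: `exists_strataS`, `Cnd_act`, `FixH` is stable); if `hη` does not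
hold, `y b ≠ 0` for some `b ∈ B`, `d b = e`, `m M ≤ h e`: the coefficient `m` of `f b` is `0` for
`m M < h e` and `F b (c) = 0` for `m M = h e` (`low_coeffS`, `eq_coeffS`, `van`), so the set is empty.
(4) `E = e`, `h e = m M`: `χ = χ ({c ∈ St τ, c ≠ 0, F j (c) = y j, c ∈ FixH w M h})`. Sum over `τ` with
`τ.1 = e`: the points `c` with `F j (c) = 0` (`d j < e`), `F j (c) = y j` (`d j = e`) are `≠ 0` and lie in
`St τ` for exactly one `τ`, and `τ.1 = e` (`van`, `top`); and for `h e = m M`: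
`M ∣ h w_i ↔ e ∣ m w_i`. If there is no `h` with `h e = m M` then `fibre … m` is empty: a point of it is
`≠ 0`, some `c i ≠ 0`, `e ∣ m w_i ∣ m M`. (`h dm < K M` holds for `h e = m M`, `dm ≤ e`: `h dm ≤ h e`.)
-/

open MvPolynomial

namespace MotMono
namespace WH

variable {N r : ℕ}

private theorem v1c_constr_Low (w : Fin N → ℕ) (M h n : ℕ) :
    Constr {γ : Fin N × Fin (n + 1) → ℂ | Low w M h γ} := by
  have e : {γ : Fin N × Fin (n + 1) → ℂ | Low w M h γ} =
      ⋂ q : Fin N × Fin (n + 1), {γ | (q.2 : ℕ) * M < h * w q.1 → γ q = 0} := by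
    ext γ
    rw [Set.mem_iInter]
    exact ⟨fun hγ q => hγ q.1 q.2, fun hγ i l => hγ (i, l)⟩
  rw [e]
  refine constr_iInter fun q => ?_
  by_cases hq : (q.2 : ℕ) * M < h * w q.1
  · have e2 : {γ : Fin N × Fin (n + 1) → ℂ | (q.2 : ℕ) * M < h * w q.1 → γ q = 0} =
        {γ | eval γ (X q : MvPolynomial (Fin N × Fin (n + 1)) ℂ) = 0} := by
      ext γ
      rw [Set.mem_ofPred_eq, Set.mem_ofPred_eq, eval_X]
      exact ⟨fun h1 => h1 hq, fun h1 _ => h1⟩
    rw [e2]
    exact Constr.zeroSet _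
  · have e2 : {γ : Fin N × Fin (n + 1) → ℂ | (q.2 : ℕ) * M < h * w q.1 → γ q = 0} =
        Set.univ := by
      ext γ
      rw [Set.mem_ofPred_eq]
      exact ⟨fun _ => trivial, fun _ h1 => absurd h1 hq⟩
    rw [e2]
    exact constr_univ

private theorem v1c_constr_lead (w : Fin N → ℕ) (M h n : ℕ) {S : Set (Fin N → ℂ)}
    (hS : Constr S) : Constr {γ : Fin N × Fin (n + 1) → ℂ | lead w M h γ ∈ S} := by
  have h3 := hS.preimage (σ := Fin N × Fin (n + 1)) (fun i =>
    if hq : M ∣ h * w i ∧ h * w i / M < n + 1 then X (i, ⟨h * w i / M, hq.2⟩) else 0)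
  have e : {γ : Fin N × Fin (n + 1) → ℂ | lead w M h γ ∈ S} = {γ : Fin N × Fin (n + 1) → ℂ |
      (fun i => eval γ (if hq : M ∣ h * w i ∧ h * w i / M < n + 1 then
        X (i, ⟨h * w i / M, hq.2⟩) else 0 : MvPolynomial (Fin N × Fin (n + 1)) ℂ)) ∈ S} := by
    ext γ
    rw [Set.mem_ofPred_eq, Set.mem_ofPred_eq]
    have : lead w M h γ = fun i => eval γ (if hq : M ∣ h * w i ∧ h * w i / M < n + 1 then
        X (i, ⟨h * w i / M, hq.2⟩) else 0 : MvPolynomial (Fin N × Fin (n + 1)) ℂ) := by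
      funext i
      unfold lead
      split_ifs with hq
      · rw [eval_X]
      · rw [map_zero]
    rw [this]
  rw [e]
  exact h3

private theorem v1c_constr_FixH (w : Fin N → ℕ) (M h : ℕ) : Constr (FixH w M h) := by
  have e : FixH w M h = ⋂ i : Fin N, {c : Fin N → ℂ | ¬ M ∣ h * w i → c i = 0} := by
    ext c
    rw [Set.mem_iInter]
    exact Iff.rfl
  rw [e]
  refine constr_iInter fun i => ?_
  by_cases hq : M ∣ h * w i
  · have e2 : {c : Fin N → ℂ | ¬ M ∣ h * w i → c i = 0} = Set.univ := by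
      ext c
      rw [Set.mem_ofPred_eq]
      exact ⟨fun _ => trivial, fun _ h1 => absurd hq h1⟩
    rw [e2]
    exact constr_univ
  · have e2 : {c : Fin N → ℂ | ¬ M ∣ h * w i → c i = 0} =
        {c | eval c (X i : MvPolynomial (Fin N) ℂ) = 0} := by
      ext c
      rw [Set.mem_ofPred_eq, Set.mem_ofPred_eq, eval_X]
      exact ⟨fun h1 => h1 hq, fun h1 _ => h1⟩
    rw [e2]
    exact Constr.zeroSet _

private theorem v1c_constr_ne : Constr {c : Fin N → ℂ | c ≠ 0} :=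
  (constr_singleton (0 : Fin N → ℂ)).compl

private theorem v1c_constr_CAn (d : Fin r → ℕ) (f : Fin r → MvPolynomial (Fin N) ℂ) (e : ℕ)
    (y : Fin r → ℂ) (m n : ℕ) : Constr (CAn d f e y m n) := by
  classical
  have hP : ∀ (j : Fin r) (l : ℕ), ∃ P : MvPolynomial (Fin N × Fin (n + 1)) ℂ,
      ∀ γ : Fin N × Fin (n + 1) → ℂ, eval γ P = (along (f j) γ).coeff l :=
    fun j l => CN.exists_alongPoly (f j) l
  choose P hP using hP
  have hC : ∀ (Q : MvPolynomial (Fin N × Fin (n + 1)) ℂ) (a : ℂ),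
      Constr {x : Fin N × Fin (n + 1) → ℂ | eval x Q = a} := by
    intro Q a
    have h := constr_eq Q (MvPolynomial.C a)
    simpa only [eval_C] using h
  have h1 : CAn d f e y m n =
      (⋂ i : Fin N, {γ : Fin N × Fin (n + 1) → ℂ | eval γ (X (i, 0)) = 0}) ∩
      ⋂ j : Fin r, ((⋂ l : Fin m, {γ : Fin N × Fin (n + 1) → ℂ | eval γ (P j l) = 0}) ∩
        {γ : Fin N × Fin (n + 1) → ℂ | eval γ (P j m) = if d j = e then y j else 0}) := by
    ext γ
    simp only [CAn, Set.mem_ofPred_eq, Set.mem_inter_iff, Set.mem_iInter, hP, eval_X]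
    constructor
    · rintro ⟨h1, h2⟩
      exact ⟨h1, fun j => ⟨fun l => (h2 j).1 l l.2, (h2 j).2⟩⟩
    · rintro ⟨h1, h2⟩
      exact ⟨h1, fun j => ⟨fun l hl => (h2 j).1 ⟨l, hl⟩, (h2 j).2⟩⟩
  rw [h1]
  refine Constr.inter (constr_iInter fun i => hC _ _) (constr_iInter fun j => ?_)
  exact Constr.inter (constr_iInter fun l => hC _ _) (hC _ _)

/-- the order of a jet in a sector -/
private theorem v1c_le {w : Fin N → ℕ} (hw : ∀ i, 0 < w i) {M n h h' : ℕ} (hM : 0 < M)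
    {γ : Fin N × Fin (n + 1) → ℂ} (h1 : Low w M h γ) (h2 : lead w M h' γ ≠ 0) : h ≤ h' := by
  obtain ⟨i, hi⟩ := Function.ne_iff.1 h2
  unfold lead at hi
  split_ifs at hi with hq
  · have h3 : ¬ (h' * w i / M) * M < h * w i := fun h3 => hi (h1 i ⟨h' * w i / M, hq.2⟩ h3)
    rw [Nat.div_mul_cancel hq.1, not_lt] at h3
    exact Nat.le_of_mul_le_mul_right h3 (hw i)
  · exact absurd rfl hi

/-- the minimal order -/
private theorem v1c_exists {w : Fin N → ℕ} (hw : ∀ i, 0 < w i) {M n dm K : ℕ} (hM : 0 < M)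
    (hwM : ∀ i, w i ∣ M) {γ : Fin N × Fin (n + 1) → ℂ} (h0 : ∀ i, γ (i, 0) = 0)
    (h1 : ¬ Low w dm K γ) :
    ∃ h, 1 ≤ h ∧ h * dm < K * M ∧ Low w M h γ ∧ lead w M h γ ≠ 0 := by
  classical
  unfold Low at h1
  push Not at h1
  obtain ⟨i₀, l₀, h2, h3⟩ := h1
  have hex : ∃ h, ∃ i, ∃ l : Fin (n + 1), γ (i, l) ≠ 0 ∧ h * w i = (l : ℕ) * M := by
    obtain ⟨k, hk⟩ := hwM i₀
    exact ⟨l₀ * k, i₀, l₀, h3, by rw [hk]; ring⟩
  obtain ⟨i, l, hγ, hl⟩ := Nat.find_spec hex
  have hmin : ∀ i' (l' : Fin (n + 1)), γ (i', l') ≠ 0 → Nat.find hex * w i' ≤ (l' : ℕ) * M := by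
    intro i' l' h4
    obtain ⟨k, hk⟩ := hwM i'
    have h5 : Nat.find hex ≤ (l' : ℕ) * k := Nat.find_min' hex ⟨i', l', h4, by rw [hk]; ring⟩
    calc Nat.find hex * w i' ≤ (l' : ℕ) * k * w i' := Nat.mul_le_mul_right _ h5
      _ = (l' : ℕ) * M := by rw [hk]; ring
  refine ⟨Nat.find hex, ?_, ?_, ?_, ?_⟩
  · rcases Nat.eq_zero_or_pos (Nat.find hex) with h4 | h4
    · rw [h4, zero_mul] at hl
      have h5 : (l : ℕ) = 0 := by
        rcases Nat.eq_zero_or_pos (l : ℕ) with h6 | h6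
        · exact h6
        · exact absurd hl (Nat.mul_pos h6 hM).ne
      have h6 : l = 0 := Fin.ext h5
      rw [h6] at hγ
      exact absurd (h0 i) hγ
    · exact h4
  · have h4 := hmin i₀ l₀ h3
    have h5 : Nat.find hex * dm * w i₀ < K * M * w i₀ := by
      calc Nat.find hex * dm * w i₀ = Nat.find hex * w i₀ * dm := by ring
        _ ≤ (l₀ : ℕ) * M * dm := Nat.mul_le_mul_right _ h4
        _ = (l₀ : ℕ) * dm * M := by ring
        _ < K * w i₀ * M := Nat.mul_lt_mul_of_pos_right h2 hM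
        _ = K * M * w i₀ := by ring
    exact Nat.lt_of_mul_lt_mul_right h5
  · intro i' l' h4
    by_contra h5
    exact absurd (hmin i' l' h5) (not_le.2 h4)
  · intro h4
    have h5 := congrFun h4 i
    have h6 : Nat.find hex * w i / M = (l : ℕ) := by
      rw [hl, Nat.mul_div_cancel _ hM]
    unfold lead at h5
    rw [dif_pos ⟨hl ▸ dvd_mul_left _ _, by rw [h6]; exact l.2⟩] at h5
    apply hγ
    have h7 : l = ⟨Nat.find hex * w i / M, by rw [h6]; exact l.2⟩ := Fin.ext h6.symm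
    rw [h7]
    exact h5

/-- contact jets of higher level -/
private theorem v1c_trunc {χ : K0 →+* ℤ} (hχ : IsEulerCharF χ) (d : Fin r → ℕ)
    (f : Fin r → MvPolynomial (Fin N) ℂ) (e : ℕ) (y : Fin r → ℂ) {m n : ℕ} (hmn : m ≤ n) :
    χ (cls (CAn d f e y m n)) = χ (cls (CAF d f e y m)) := by
  set φ : (Fin N × Fin (n + 1) → ℂ) →ₗ[ℂ] (Fin N × Fin (m + 1) → ℂ) :=
    LinearMap.funLeft ℂ ℂ (fun q : Fin N × Fin (m + 1) =>
      (q.1, Fin.castLE (Nat.succ_le_succ hmn) q.2)) with hφ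
  have h1 : CAn d f e y m n = {γ : Fin N × Fin (n + 1) → ℂ |
      γ - 0 ∈ (⊤ : Submodule ℂ (Fin N × Fin (n + 1) → ℂ)) ∧ φ (γ - 0) ∈ CAF d f e y m} := by
    ext γ
    have h2 : ∀ (j : Fin r) (l : ℕ), l ≤ m →
        (along (f j) (φ γ)).coeff l = (along (f j) γ).coeff l := by
      intro j l hl
      refine CN.along_trunc (f j) (φ γ) γ l fun i l' hl' => ?_
      rw [a1_arc_coeff, a1_arc_coeff, dif_pos (by omega), dif_pos (by omega)]
      rfl
    simp only [sub_zero, Set.mem_ofPred_eq, Submodule.mem_top, true_and, CAn, CAF]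
    constructor
    · rintro ⟨h3, h4⟩
      refine ⟨fun i => h3 i, fun j => ⟨fun l hl => ?_, ?_⟩⟩
      · rw [h2 j l hl.le]
        exact (h4 j).1 l hl
      · rw [h2 j m le_rfl]
        exact (h4 j).2
    · rintro ⟨h3, h4⟩
      refine ⟨fun i => h3 i, fun j => ⟨fun l hl => ?_, ?_⟩⟩
      · rw [← h2 j l hl.le]
        exact (h4 j).1 l hl
      · rw [← h2 j m le_rfl]
        exact (h4 j).2
  rw [h1]
  refine LF.chi_linFib hχ.line ⊤ 0 φ (fun z => ?_) (constr_CAF d f e y m)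
  have hinj : Function.Injective (fun q : Fin N × Fin (m + 1) =>
      (q.1, Fin.castLE (Nat.succ_le_succ hmn) q.2)) := by
    rintro ⟨a, b⟩ ⟨a', b'⟩ hab
    simp only [Prod.mk.injEq] at hab
    obtain ⟨h3, h4⟩ := hab
    rw [h3, Fin.castLE_injective _ h4]
  obtain ⟨x, hx⟩ := LinearMap.funLeft_surjective_of_injective ℂ ℂ _ hinj z
  exact ⟨x, Submodule.mem_top, hx⟩

/-- the pieces of the fibre -/
private def v1c_Q (w : Fin N → ℕ) (d : Fin r → ℕ) (F : Fin r → MvPolynomial (Fin N) ℂ) (e : ℕ)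
    (y : Fin r → ℂ) (m : ℕ) (S : Set (Fin N → ℂ)) : Set (Fin N → ℂ) :=
  {c | c ∈ fibre w d F e y m ∧ c ∈ S ∧ c ≠ 0}

private theorem v1c_constr_Q (w : Fin N → ℕ) (d : Fin r → ℕ) (F : Fin r → MvPolynomial (Fin N) ℂ)
    (e : ℕ) (y : Fin r → ℂ) (m : ℕ) {S : Set (Fin N → ℂ)} (hS : Constr S) :
    Constr (v1c_Q w d F e y m S) :=
  (constr_fibre w d F e y m).inter (hS.inter v1c_constr_ne)

/-- the pieces of the set of contact jets -/
private def v1c_P (w : Fin N → ℕ) (d : Fin r → ℕ) (f : Fin r → MvPolynomial (Fin N) ℂ) (e : ℕ)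
    (y : Fin r → ℂ) (m n M : ℕ) (S : Set (Fin N → ℂ)) (h : ℕ) :
    Set (Fin N × Fin (n + 1) → ℂ) :=
  {γ | γ ∈ CAn d f e y m n ∧ Low w M h γ ∧ lead w M h γ ∈ S ∧ lead w M h γ ≠ 0}

private theorem v1c_constr_P (w : Fin N → ℕ) (d : Fin r → ℕ) (f : Fin r → MvPolynomial (Fin N) ℂ)
    (e : ℕ) (y : Fin r → ℂ) (m n M : ℕ) {S : Set (Fin N → ℂ)} (hS : Constr S) (h : ℕ) :
    Constr (v1c_P w d f e y m n M S h) :=
  (v1c_constr_CAn d f e y m n).inter ((v1c_constr_Low w M h n).inter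
    ((v1c_constr_lead w M h n hS).inter (v1c_constr_lead w M h n v1c_constr_ne)))

private theorem v1c_chi_pow {χ : K0 →+* ℤ} (hχ : IsEulerCharF χ) (a : K0) (k : ℕ) :
    χ (a * LL ^ k) = χ a := by
  rw [map_mul, map_pow, hχ.line, one_pow, mul_one]

private theorem v1c_piece {χ : K0 →+* ℤ} (hχ : IsEulerCharF χ) {w : Fin N → ℕ} {d : Fin r → ℕ}
    {f : Fin r → MvPolynomial (Fin N) ℂ} (hW : SWt w d f) (hS : Smo w d f) (e : ℕ)
    (y : Fin r → ℂ) (m : ℕ) (hm : 0 < m) (hy : ∃ j, d j = e ∧ y j ≠ 0) {M n : ℕ} (hM : 0 < M)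
    (hn : ∀ i, (m + 1) * (w i + 1) ≤ n) {St : Set (Fin N → ℂ)} (hSt : Constr St) {E : ℕ}
    {B : Finset (Fin r)} (hadm : ∀ c ∈ St, Adm d (ini w d f) c E B)
    (hact : ∀ s : ℂ, s ≠ 0 → ∀ c ∈ St, act w s c ∈ St) (h : ℕ) (hh : h < (m + 1) * M) :
    χ (cls (v1c_P w d f e y m n M St h)) =
      if E = e ∧ h * e = m * M then χ (cls (v1c_Q w d (ini w d f) e y m St)) else 0 := by
  classical
  have he : 0 < e := by
    obtain ⟨j, hj, -⟩ := hy
    rw [← hj]
    exact hW.d_pos j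
  have hempty : ∀ {n' : ℕ} (A : Set (Fin N × Fin (n' + 1) → ℂ)), (∀ γ ∈ A, False) →
      χ (cls A) = 0 := by
    intro n' A hA
    have : A = ∅ := Set.eq_empty_iff_forall_notMem.2 hA
    rw [this, cls_empty, map_zero]
  rcases Nat.eq_zero_or_pos h with h0 | h1
  · -- `h = 0`
    subst h0
    rw [if_neg, hempty]
    · rintro γ ⟨hγ, -, -, hne⟩
      apply hne
      funext i
      unfold lead
      split_ifs with hq
      · have h2 : (⟨0 * w i / M, hq.2⟩ : Fin (n + 1)) = 0 := by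
          apply Fin.ext
          show 0 * w i / M = 0
          rw [zero_mul, Nat.zero_div]
        rw [h2]
        exact hγ.1 i
      · rfl
    · rintro ⟨-, h2⟩
      rw [zero_mul] at h2
      exact absurd h2 (Nat.mul_pos hm hM).ne
  have hn1 : ∀ i, h * w i < (n + 1) * M := by
    intro i
    have h2 := hn i
    have h3 : (m + 1) * w i ≤ n := le_trans (Nat.mul_le_mul_left _ (Nat.le_succ _)) h2
    calc h * w i < (m + 1) * M * w i := Nat.mul_lt_mul_of_pos_right hh (hW.w_pos i)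
      _ = (m + 1) * w i * M := by ring
      _ ≤ n * M := Nat.mul_le_mul_right _ h3
      _ ≤ (n + 1) * M := Nat.mul_le_mul_right _ (Nat.le_succ _)
  have hn2 : ∀ i, h * w i + (m + 1) * M ≤ n * M := by
    intro i
    calc h * w i + (m + 1) * M ≤ (m + 1) * M * w i + (m + 1) * M :=
          Nat.add_le_add_right (Nat.mul_le_mul_right _ hh.le) _
      _ = (m + 1) * (w i + 1) * M := by ring
      _ ≤ n * M := Nat.mul_le_mul_right _ (hn i)
  have hgen : ∀ c ∈ St, c ≠ 0 → GenS w d f c E B := fun c hc hc0 =>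
    genS_of_smo hW hS hc0 (hadm c hc)
  have hWF : Wt w d (ini w d f) := wt_ini hW
  rcases lt_trichotomy E e with hE | hE | hE
  · -- `E < e`
    rw [if_neg (fun h2 => hE.ne h2.1), hempty]
    rintro γ ⟨hγ, hL, hl, -⟩
    exact CA_lt hW hM h1 hn1 hL (hadm _ hl) hy hE hγ
  · -- `E = e`
    subst hE
    by_cases hhe : h * E = m * M
    · rw [if_pos ⟨rfl, hhe⟩]
      have hdv : ∀ i, M ∣ h * w i ↔ E ∣ m * w i := by
        intro i
        have hmM : m * M ∣ m * (h * w i) ↔ h * E ∣ h * (m * w i) := by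
          rw [← hhe, show m * (h * w i) = h * (m * w i) by ring]
        rw [Nat.mul_dvd_mul_iff_left hm, Nat.mul_dvd_mul_iff_left h1] at hmM
        exact hmM
      set S := v1c_Q w d (ini w d f) E y m St with hSdef
      have hSF : S ⊆ FixH w M h := by
        intro c hc i hi
        exact hc.1.2.2 i (fun h3 => hi ((hdv i).2 h3))
      have hset : v1c_P w d f E y m n M St h = SecS w M f B S h (m + 1) n (fun _ _ => 0) := by
        ext γ
        constructor
        · rintro ⟨hγ, hL, hl, hl0⟩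
          obtain ⟨-, h3, h4⟩ := (CA_eq hW hM h1 hn1 hL (hadm _ hl) (hgen _ hl hl0) hy).1 hγ
          refine ⟨hL, ⟨⟨fun j hj => (hadm _ hl).van j hj, h3, fun i hi => ?_⟩, hl, hl0⟩, h4⟩
          exact lead_mem w M h γ i (fun h5 => hi ((hdv i).1 h5))
        · rintro ⟨hL, ⟨⟨-, h3, -⟩, hl, hl0⟩, h4⟩
          refine ⟨?_, hL, hl, hl0⟩
          exact (CA_eq hW hM h1 hn1 hL (hadm _ hl) (hgen _ hl hl0) hy).2 ⟨hhe, h3, h4⟩
      rw [hset, cls_SecS hW hM h1 hn2 (v1c_constr_Q w d (ini w d f) E y m hSt) hSF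
        (fun c hc b hb => (hadm c hc.2.1).van b ((hadm c hc.2.1).lt b hb))
        (fun c hc => (hadm c hc.2.1).ind) (fun _ _ => 0) (fun _ _ _ _ => rfl), v1c_chi_pow hχ]
    · rw [if_neg (fun h2 => hhe h2.2), hempty]
      rintro γ ⟨hγ, hL, hl, hl0⟩
      exact hhe ((CA_eq hW hM h1 hn1 hL (hadm _ hl) (hgen _ hl hl0) hy).1 hγ).1
  · -- `e < E`
    rw [if_neg (fun h2 => hE.ne' h2.1)]
    by_cases hc1 : E ≤ dmax d → m * M < h * E
    swap
    · apply hempty
      rintro γ ⟨hγ, hL, hl, hl0⟩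
      exact hc1 ((CA_gt hW hM h1 hn1 hL (hadm _ hl) (hgen _ hl hl0) hy hE).1 hγ).1
    set η : Fin r → ℕ → ℂ := fun b l => if l = m ∧ d b = e then y b else 0 with hηdef
    by_cases hη : ∀ b ∈ B, ∀ l, l * M ≤ h * d b → η b l = 0
    · set S : Set (Fin N → ℂ) := {c | c ∈ St ∧ c ≠ 0 ∧
        (LinearIndependent ℂ (fun b : B => grad (ini w d f b) c) ∧ Cnd d (ini w d f) e y B c) ∧
        c ∈ FixH w M h} with hSdef
      have hSc : Constr S := hSt.inter (v1c_constr_ne.inter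
        ((constr_Cnd d (ini w d f) e y B).inter (v1c_constr_FixH w M h)))
      have hset : v1c_P w d f e y m n M St h = SecS w M f B S h (m + 1) n η := by
        ext γ
        constructor
        · rintro ⟨hγ, hL, hl, hl0⟩
          obtain ⟨-, h3, h4⟩ := (CA_gt hW hM h1 hn1 hL (hadm _ hl) (hgen _ hl hl0) hy hE).1 hγ
          exact ⟨hL, ⟨hl, hl0, ⟨(hadm _ hl).ind, h3⟩, lead_mem w M h γ⟩, h4⟩
        · rintro ⟨hL, ⟨hl, hl0, ⟨-, h3⟩, -⟩, h4⟩
          refine ⟨?_, hL, hl, hl0⟩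
          exact (CA_gt hW hM h1 hn1 hL (hadm _ hl) (hgen _ hl hl0) hy hE).2 ⟨hc1, h3, h4⟩
      rw [hset, cls_SecS hW hM h1 hn2 hSc (fun c hc => hc.2.2.2)
        (fun c hc b hb => (hadm c hc.1).van b ((hadm c hc.1).lt b hb))
        (fun c hc => (hadm c hc.1).ind) η hη, v1c_chi_pow hχ]
      refine chi_act hχ hW.w_pos hSc (fun c hc => hc.2.1) ?_
      rintro s hs c ⟨hc1, hc2, ⟨hc3, hc4⟩, hc5⟩
      have h6 := hact s hs c hc1
      refine ⟨h6, ?_, ⟨(hadm _ h6).ind, Cnd_act hWF.hom hs hc4⟩, ?_⟩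
      · intro h7
        apply hc2
        funext i
        have h8 := congrFun h7 i
        have h9 : s ^ w i * c i = 0 := h8
        exact (mul_eq_zero.1 h9).resolve_left (pow_ne_zero _ hs)
      · intro i hi
        show s ^ w i * c i = 0
        rw [hc5 i hi, mul_zero]
    · push Not at hη
      obtain ⟨b, hb, l, hl1, hl2⟩ := hη
      have hlm : l = m ∧ d b = e := by
        by_contra hcon
        apply hl2
        rw [hηdef]
        exact if_neg hcon
      obtain ⟨rfl, hdb⟩ := hlm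
      apply hempty
      rintro γ ⟨hγ, hL, hl, hl0⟩
      have h3 := (hγ.2 b).2
      rw [if_pos hdb] at h3
      have h4 : η b l = y b := if_pos ⟨rfl, hdb⟩
      rw [h4] at hl2
      rcases hl1.lt_or_eq with h5 | h5
      · rw [low_coeffS (hW.ord b) hM γ hL l h5] at h3
        exact hl2 h3.symm
      · rw [eq_coeffS (hW.ord b) hM h1 hn1 γ hL l h5] at h3
        have h6 := (hadm _ hl).van b ((hadm _ hl).lt b hb)
        exact hl2 (h3.symm.trans h6)

theorem chi_CAFS {χ : K0 →+* ℤ} (hχ : IsEulerCharF χ) {w : Fin N → ℕ} {d : Fin r → ℕ}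
    {f : Fin r → MvPolynomial (Fin N) ℂ} (hW : SWt w d f) (hS : Smo w d f) (e : ℕ)
    (y : Fin r → ℂ) (m : ℕ) (hm : 0 < m) (hy : ∃ j, d j = e ∧ y j ≠ 0) :
    χ (cls (CAF d f e y m)) = χ (cls (fibre w d (ini w d f) e y m)) := by
  classical
  obtain ⟨j₀, hj₀, hy₀⟩ := id hy
  have hWF : Wt w d (ini w d f) := wt_ini hW
  have he : 0 < e := hj₀ ▸ hW.d_pos j₀
  have hed : e ≤ dmax d := by
    rw [← hj₀]
    exact Finset.single_le_sum (f := d) (fun _ _ => Nat.zero_le _) (Finset.mem_univ j₀)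
  obtain ⟨M, hMdef⟩ : ∃ M, M = ∏ i, w i := ⟨_, rfl⟩
  have hM : 0 < M := by
    rw [hMdef]
    exact Finset.prod_pos fun i _ => hW.w_pos i
  have hwM : ∀ i, w i ∣ M := by
    intro i
    rw [hMdef]
    exact Finset.dvd_prod_of_mem _ (Finset.mem_univ i)
  obtain ⟨n, hndef⟩ : ∃ n, n = (m + 1) * (∑ i, w i + 1) := ⟨_, rfl⟩
  have hn : ∀ i, (m + 1) * (w i + 1) ≤ n := by
    intro i
    rw [hndef]
    exact Nat.mul_le_mul_left _ (Nat.add_le_add_right
      (Finset.single_le_sum (f := w) (fun _ _ => Nat.zero_le _) (Finset.mem_univ i)) 1)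
  have hmn : m ≤ n := by
    rw [hndef]
    nlinarith [Nat.zero_le (∑ i, w i)]
  obtain ⟨St, hSt, hdis, hcov, hadm, hact⟩ := exists_strataS hWF.hom
  rw [← v1c_trunc hχ d f e y hmn]
  set T := Finset.range (dmax d + 2) ×ˢ (Finset.univ : Finset (Finset (Fin r))) with hT
  have hPU : CAn d f e y m n = ⋃ p ∈ T ×ˢ Finset.range ((m + 1) * M),
      v1c_P w d f e y m n M (St p.1) p.2 := by
    ext γ
    rw [Set.mem_iUnion₂]
    constructor
    · intro hγ
      have hB : ¬ Low w 1 (m + 1) γ := by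
        intro hB
        have h1 := (hγ.2 j₀).2
        rw [if_pos hj₀, low_coeffS (hW.ord j₀) one_pos γ hB m] at h1
        · exact hy₀ h1.symm
        · have := hW.d_pos j₀
          nlinarith
      obtain ⟨h, h1, h2, h3, h4⟩ := v1c_exists hW.w_pos hM hwM hγ.1 hB
      obtain ⟨τ, hτ, hτ'⟩ := hcov (lead w M h γ)
      refine ⟨(τ, h), Finset.mem_product.2 ⟨hτ, Finset.mem_range.2 ?_⟩, hγ, h3, hτ', h4⟩
      simpa using h2
    · rintro ⟨p, -, hγ⟩
      exact hγ.1
  have hPd : ∀ p p' : (ℕ × Finset (Fin r)) × ℕ, p ≠ p' →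
      Disjoint (v1c_P w d f e y m n M (St p.1) p.2) (v1c_P w d f e y m n M (St p'.1) p'.2) := by
    intro p p' hpp
    rw [Set.disjoint_left]
    rintro γ ⟨-, a2, a3, a4⟩ ⟨-, b2, b3, b4⟩
    have h3 : p.2 = p'.2 := le_antisymm (v1c_le hW.w_pos hM a2 b4) (v1c_le hW.w_pos hM b2 a4)
    have h4 : p.1 ≠ p'.1 := fun h4 => hpp (Prod.ext h4 h3)
    rw [← h3] at b3
    exact Set.disjoint_left.1 (hdis _ _ h4) a3 b3
  have hQU : fibre w d (ini w d f) e y m = ⋃ τ ∈ T, v1c_Q w d (ini w d f) e y m (St τ) := by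
    ext c
    rw [Set.mem_iUnion₂]
    constructor
    · intro hc
      obtain ⟨τ, hτ, hτ'⟩ := hcov c
      refine ⟨τ, hτ, hc, hτ', ?_⟩
      rintro rfl
      apply hy₀
      rw [← hc.2.1 j₀ hj₀]
      have h1 := hWF.hom j₀
      rw [eval_zero]
      by_contra h2
      have h3 := h1 (d := 0) h2
      rw [map_zero] at h3
      exact absurd h3 (hW.d_pos j₀).ne
    · rintro ⟨τ, -, hc⟩
      exact hc.1
  rw [hPU, hQU, cls_biUnion _ (fun p _ => v1c_constr_P w d f e y m n M (hSt p.1) p.2)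
    (fun p _ p' _ hpp => hPd p p' hpp), cls_biUnion T
      (fun τ _ => v1c_constr_Q w d (ini w d f) e y m (hSt τ))
      (fun τ _ τ' _ hττ => ?_), map_sum, map_sum, Finset.sum_product]
  · refine Finset.sum_congr rfl fun τ _ => ?_
    have h1 : ∀ h ∈ Finset.range ((m + 1) * M), χ (cls (v1c_P w d f e y m n M (St τ) h)) =
        if τ.1 = e ∧ h * e = m * M then χ (cls (v1c_Q w d (ini w d f) e y m (St τ))) else 0 :=
      fun h hh => v1c_piece hχ hW hS e y m hm hy hM hn (hSt τ) (hadm τ) (hact τ) h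
        (Finset.mem_range.1 hh)
    rw [Finset.sum_congr rfl h1]
    by_cases hτ : τ.1 = e
    · by_cases hdv : e ∣ m * M
      · obtain ⟨h₀, hh₀⟩ := hdv
        have hmem : h₀ ∈ Finset.range ((m + 1) * M) := by
          rw [Finset.mem_range]
          have h2 : h₀ ≤ e * h₀ := Nat.le_mul_of_pos_left _ he
          rw [← hh₀] at h2
          refine lt_of_le_of_lt h2 ?_
          nlinarith
        rw [Finset.sum_eq_single h₀]
        · exact if_pos ⟨hτ, by rw [hh₀, mul_comm]⟩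
        · intro h _ hne
          refine if_neg fun h2 => hne ?_
          have h3 : h * e = h₀ * e := by rw [h2.2, hh₀, mul_comm]
          exact Nat.eq_of_mul_eq_mul_right he h3
        · intro h2
          exact absurd hmem h2
      · rw [Finset.sum_eq_zero fun h _ => if_neg fun h2 => hdv ⟨h, by rw [← h2.2, mul_comm]⟩]
        have h2 : v1c_Q w d (ini w d f) e y m (St τ) = ∅ := by
          rw [Set.eq_empty_iff_forall_notMem]
          rintro c ⟨hc, -, hc0⟩
          obtain ⟨i, hi⟩ := Function.ne_iff.1 hc0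
          have h3 : e ∣ m * w i := by
            by_contra h3
            exact hi (hc.2.2 i h3)
          exact hdv (h3.trans (Nat.mul_dvd_mul_left _ (hwM i)))
        rw [h2, cls_empty, map_zero]
    · rw [Finset.sum_eq_zero fun h _ => if_neg fun h2 => hτ h2.1]
      have h2 : v1c_Q w d (ini w d f) e y m (St τ) = ∅ := by
        rw [Set.eq_empty_iff_forall_notMem]
        rintro c ⟨hc, hcS, hc0⟩
        have hA := hadm τ c hcS
        apply hτ
        have h3 : τ.1 ≤ e := by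
          by_contra h3
          push Not at h3
          have h4 := hA.van j₀ (by rw [hj₀]; exact h3)
          rw [hc.2.1 j₀ hj₀] at h4
          exact hy₀ h4
        obtain ⟨j, hj, hj2⟩ := hA.top (h3.trans hed)
        refine le_antisymm h3 ?_
        by_contra h4
        push Not at h4
        exact hj2 (hc.1 j (by rw [hj]; exact h4))
      rw [h2, cls_empty, map_zero]
  · rw [Set.disjoint_left]
    rintro c ⟨-, a, -⟩ ⟨-, b, -⟩
    exact Set.disjoint_left.1 (hdis _ _ hττ) a b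

end WH
end MotMono
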