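import Pool.Agent.Lib.MP_4e5fcd_ag.CN.V1
import Pool.Agent.Lib.MP_4e5fcd_ag.CN.P2
import Pool.Agent.Lib.MP_4e5fcd_ag.WH.V2
import Pool.Agent.Lib.MP_4e5fcd_ag.SW.V1c

/-!
# SW-V2: visible values at the origin

Copy the proof of WH-V2 with `chi_CAFS` instead of `chi_CAF`.
-/

open MvPolynomial

namespace MotMono
namespace WH

variable {N r : ℕ}

private theorem V2s_mk_congr (Λ Λ' : ℕ → ℤ) (h : ∀ m, 0 < m → Λ m = Λ' m) :
    (PowerSeries.mk fun d => if d = 0 then (0 : ℂ) else (Λ d : ℂ)) =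
      PowerSeries.mk fun d => if d = 0 then (0 : ℂ) else (Λ' d : ℂ) := by
  ext d
  rw [PowerSeries.coeff_mk, PowerSeries.coeff_mk]
  by_cases hd : d = 0
  · rw [if_pos hd, if_pos hd]
  · rw [if_neg hd, if_neg hd, h d (Nat.pos_of_ne_zero hd)]

private theorem V2s_trivial (Λ : ℕ → ℤ) (h : ∀ m, 0 < m → Λ m = 0) (Z : PowerSeries ℂ)
    (hZ : IsZeta Λ Z) (lam : ℂ) (hP : ZeroOrPole Z lam) : False := by
  have hL : (PowerSeries.mk fun d => if d = 0 then (0 : ℂ) else (Λ d : ℂ)) = 0 := by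
    ext d
    rw [PowerSeries.coeff_mk]
    by_cases hd : d = 0
    · rw [if_pos hd]
      simp
    · rw [if_neg hd, h d (Nat.pos_of_ne_zero hd)]
      simp
  have h1 := hZ.2
  rw [hL, neg_zero, zero_mul] at h1
  have h2 : Z = 1 := by
    ext d
    rcases d with _ | d
    · have := hZ.1
      rw [PowerSeries.coeff_zero_eq_constantCoeff, this]
      simp
    · have h3 : PowerSeries.coeff (d + 1) (PowerSeries.X * PowerSeries.derivative ℂ Z)
          = (0 : ℂ) := by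
        rw [h1]
        simp
      rw [PowerSeries.coeff_succ_X_mul] at h3
      have h4 : PowerSeries.coeff d (PowerSeries.derivative ℂ Z)
          = PowerSeries.coeff (d + 1) Z * (d + 1) := PowerSeries.coeff_derivative Z d
      rw [h4] at h3
      have h5 : ((d : ℂ) + 1) ≠ 0 := by
        exact_mod_cast Nat.succ_ne_zero d
      rw [(mul_eq_zero.1 h3).resolve_right h5]
      rw [PowerSeries.coeff_one, if_neg (Nat.succ_ne_zero d)]
  obtain ⟨P, Q, hPQ, hQP, hroot⟩ := hP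
  rw [h2, mul_one] at hQP
  have h6 : Q = P := Polynomial.coe_injective ℂ hQP
  rw [h6] at hPQ hroot
  have h7 : IsUnit P := isCoprime_self.1 hPQ
  have h8 : P.eval lam ≠ 0 := by
    have := h7.map (Polynomial.evalRingHom lam)
    exact this.ne_zero
  rcases hroot with h | h
  · exact h8 h
  · exact h8 h

theorem vis_of_eigS {χ : K0 →+* ℤ} (hχ : IsEulerCharF χ) {w : Fin N → ℕ} {d : Fin r → ℕ}
    {f : Fin r → MvPolynomial (Fin N) ℂ} (hW : SWt w d f) (hS : Smo w d f) {lam : ℂ}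
    (h : Eig χ w d (ini w d f) lam) : CN.Vis χ (Ideal.span (Set.range f)) 0 lam := by
  obtain ⟨e, y, ⟨j0, hj0, hy0⟩, Z, hZ, hP⟩ := h
  have hc : ∀ m, 0 < m → χ (cls (CAF d f e y m)) = χ (cls (fibre w d (ini w d f) e y m)) :=
    fun m hm => chi_CAFS hχ hW hS e y m hm ⟨j0, hj0, hy0⟩
  have hex : ∃ m, 0 < m ∧ (CAF d f e y m).Nonempty := by
    by_contra hcon
    push Not at hcon
    refine V2s_trivial _ (fun m hm => ?_) Z hZ lam hP
    rw [← hc m hm, hcon m hm, cls_empty, map_zero]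
  obtain ⟨m, hm, γ, hγ⟩ := hex
  have hbp : CN.bp γ = 0 := by
    funext i
    exact hγ.1 i
  have hord : CN.OrdGe (Ideal.span (Set.range f)) m γ := by
    rw [CN.ordGe_span]
    rintro _ ⟨j, rfl⟩
    exact (hγ.2 j).1
  refine ⟨m, γ, hm, hbp, hord, ⟨f j0, Ideal.subset_span ⟨j0, rfl⟩, ?_⟩, Z, ?_, hP⟩
  · rw [(hγ.2 j0).2, if_pos hj0]
    exact hy0
  · have e1 : ∀ d', CN.CA (Ideal.span (Set.range f)) 0 (fun g => (along g γ).coeff m) d' =
        CAF d f e y d' := by
      intro d'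
      ext δ
      have h1 := CN.mem_CA_span (m := d') (Set.range f) γ hord δ
      rw [hbp] at h1
      rw [h1]
      constructor
      · rintro ⟨h2, h3⟩
        refine ⟨fun i => congrFun h2 i, fun j => ?_⟩
        obtain ⟨h4, h5⟩ := h3 (f j) ⟨j, rfl⟩
        exact ⟨h4, h5.trans (hγ.2 j).2⟩
      · rintro ⟨h2, h3⟩
        refine ⟨funext fun i => h2 i, ?_⟩
        rintro _ ⟨j, rfl⟩
        exact ⟨(h3 j).1, ((h3 j).2).trans ((hγ.2 j).2).symm⟩
    refine ⟨hZ.1, ?_⟩
    rw [hZ.2]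
    rw [V2s_mk_congr (fun m => χ (cls (fibre w d (ini w d f) e y m))) _ (fun m' hm' => ?_)]
    show χ (cls (fibre w d (ini w d f) e y m')) =
      χ (cls (CN.CA (Ideal.span (Set.range f)) 0 (fun g => (along g γ).coeff m) m'))
    rw [e1 m', hc m' hm']

end WH
end MotMono
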