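import Pool.Agent.Lib.MP_4e5fcd_ag.SW.B1
import Pool.Agent.Lib.MP_4e5fcd_ag.WH.B2

/-!
# SW-B2: the order along the jets of a sector

The proof of WH-B2 (`mem_AS_iff`), with `expand_alongS`, `low_coeffS`, `eq_coeffS`. `gen_coeff`: compare
the coefficients `m M` of
`X^(h d_j) * sub g * sub (dfm f_j) = ∑ X^(h (d_j - d_b)) * sub a_b * (X^(h d_b) * sub (dfm f_b))`.
-/

open MvPolynomial

namespace MotMono
namespace WH

variable {N r : ℕ}

private theorem b2_lead {w : Fin N → ℕ} {M h n : ℕ} (hM : 0 < M)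
    (hn : ∀ i, h * w i < (n + 1) * M) (γ : Fin N × Fin (n + 1) → ℂ) :
    (fun i => (yy w M h γ i).coeff 0) = lead w M h γ := by
  funext i
  exact yy_coeff_zero w hM hn γ i

private theorem b2_expand {f : Fin r → MvPolynomial (Fin N) ℂ}
    {M n m : ℕ} (γ : Fin N × Fin (n + 1) → ℂ) (b : Fin r)
    (hB : ∀ l < m, (along (f b) γ).coeff l = 0) :
    (Polynomial.X : Polynomial ℂ) ^ (m * M) ∣ Polynomial.expand ℂ M (along (f b) γ) := by
  have h1 : (Polynomial.X : Polynomial ℂ) ^ m ∣ along (f b) γ := by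
    rw [Polynomial.X_pow_dvd_iff]
    exact hB
  obtain ⟨Q, hQ⟩ := h1
  refine ⟨Polynomial.expand ℂ M Q, ?_⟩
  rw [hQ, map_mul, map_pow, Polynomial.expand_X, ← pow_mul, Nat.mul_comm m M]

private theorem b2_mem_span {R : Type*} [CommRing R] (B : Finset (Fin r)) (P : Fin r → Prop)
    (F : Fin r → R) (x : R) (hx : x ∈ Ideal.span {g | ∃ b ∈ B, P b ∧ g = F b}) :
    ∃ a : Fin r → R, (∀ b, ¬ P b → a b = 0) ∧ x = ∑ b ∈ B, a b * F b := by
  classical
  refine Submodule.span_induction ?_ ?_ ?_ ?_ hx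
  · rintro _ ⟨b, hb, hP, rfl⟩
    refine ⟨fun b' => if b' = b then 1 else 0, fun b' hb' => ?_, ?_⟩
    · exact if_neg fun h : b' = b => hb' (by rw [h]; exact hP)
    · simp [hb]
  · exact ⟨fun _ => 0, fun _ _ => rfl, by simp⟩
  · rintro x y _ _ ⟨a, ha, rfl⟩ ⟨a', ha', rfl⟩
    refine ⟨fun b => a b + a' b, fun b hb => ?_, ?_⟩
    · show a b + a' b = 0
      rw [ha b hb, ha' b hb, add_zero]
    rw [← Finset.sum_add_distrib]
    exact Finset.sum_congr rfl fun b _ => by ring
  · rintro c x _ ⟨a, ha, rfl⟩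
    refine ⟨fun b => c * a b, fun b hb => ?_, ?_⟩
    · show c * a b = 0
      rw [ha b hb, mul_zero]
    rw [smul_eq_mul, Finset.mul_sum]
    exact Finset.sum_congr rfl fun b _ => by ring

theorem gen_coeff {w : Fin N → ℕ} {d : Fin r → ℕ} {f : Fin r → MvPolynomial (Fin N) ℂ}
    (hW : SWt w d f) {M h n m : ℕ} (hM : 0 < M) (hh : 1 ≤ h)
    (hn : ∀ i, h * w i < (n + 1) * M) (γ : Fin N × Fin (n + 1) → ℂ)
    (hL : Low w M h γ) {B : Finset (Fin r)}
    (hB : ∀ b ∈ B, ∀ l < m, (along (f b) γ).coeff l = 0) (j : Fin r)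
    (g : MvPolynomial (Fin (N + 1)) ℂ)
    (hg : eval (Fin.cons 0 (lead w M h γ) : Fin (N + 1) → ℂ) g ≠ 0)
    (a : Fin r → MvPolynomial (Fin (N + 1)) ℂ) (ha : ∀ b ∈ B, d j < d b → a b = 0)
    (hr : g * dfm w (d j) (f j) = ∑ b ∈ B, a b * dfm w (d b) (f b)) :
    (∀ l < m, (along (f j) γ).coeff l = 0) ∧
      eval (Fin.cons 0 (lead w M h γ) : Fin (N + 1) → ℂ) g * (along (f j) γ).coeff m =
        ∑ b ∈ B with d b = d j,
          eval (Fin.cons 0 (lead w M h γ) : Fin (N + 1) → ℂ) (a b) * (along (f b) γ).coeff m := by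
  classical
  have hl := b2_lead hM hn γ
  have key : sub h (yy w M h γ) g * Polynomial.expand ℂ M (along (f j) γ) =
      ∑ b ∈ B, sub h (yy w M h γ) (a b) * Polynomial.X ^ (h * (d j - d b)) *
        Polynomial.expand ℂ M (along (f b) γ) := by
    rw [expand_alongS (hW.ord j) hM γ hL, mul_left_comm, ← map_mul, hr, map_sum, Finset.mul_sum]
    refine Finset.sum_congr rfl fun b hb => ?_
    by_cases hdb : d j < d b
    · rw [ha b hb hdb, zero_mul, map_zero, mul_zero, zero_mul, zero_mul]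
    · rw [expand_alongS (hW.ord b) hM γ hL, map_mul]
      have h3 : h * d j = h * (d j - d b) + h * d b := by
        rw [← Nat.mul_add, Nat.sub_add_cancel (not_lt.1 hdb)]
      rw [h3, pow_add]
      ring
  have hdvd : (Polynomial.X : Polynomial ℂ) ^ (m * M) ∣
      Polynomial.expand ℂ M (along (f j) γ) := by
    have h1 : (Polynomial.X : Polynomial ℂ) ^ (m * M) ∣
        sub h (yy w M h γ) g * Polynomial.expand ℂ M (along (f j) γ) := by
      rw [key]
      exact Finset.dvd_sum fun b hb => Dvd.dvd.mul_left (b2_expand γ b (hB b hb)) _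
    have h2 : ¬ (Polynomial.X : Polynomial ℂ) ∣ sub h (yy w M h γ) g := by
      rw [Polynomial.X_dvd_iff, coeff_zero_sub hh, hl]
      exact hg
    exact Polynomial.prime_X.pow_dvd_of_dvd_mul_left _ h2 h1
  refine ⟨fun l hlm => ?_, ?_⟩
  · rw [Polynomial.X_pow_dvd_iff] at hdvd
    have h5 := hdvd (l * M) (Nat.mul_lt_mul_of_pos_right hlm hM)
    rwa [Polynomial.coeff_expand_mul hM] at h5
  · have hc := congrArg (fun P : Polynomial ℂ => P.coeff (m * M)) key
    -- the coefficient `m M` of a product with a polynomial divisible by `X ^ (m M)`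
    have hmul : ∀ P Q : Polynomial ℂ, (Polynomial.X : Polynomial ℂ) ^ (m * M) ∣ Q →
        (P * Q).coeff (m * M) = P.coeff 0 * Q.coeff (m * M) := by
      rintro P _ ⟨Q, rfl⟩
      have e1 : P * (Polynomial.X ^ (m * M) * Q) = Polynomial.X ^ (m * M) * (P * Q) := by ring
      rw [e1, Polynomial.coeff_X_pow_mul', Polynomial.coeff_X_pow_mul', if_pos le_rfl,
        if_pos le_rfl, Nat.sub_self, Polynomial.mul_coeff_zero]
    simp only [Polynomial.finsetSum_coeff] at hc
    rw [hmul _ _ hdvd, coeff_zero_sub hh, hl, Polynomial.coeff_expand_mul hM] at hc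
    rw [hc, Finset.sum_filter]
    refine Finset.sum_congr rfl fun b hb => ?_
    rw [hmul _ _ (b2_expand γ b (hB b hb)), Polynomial.coeff_expand_mul hM,
      Polynomial.mul_coeff_zero, coeff_zero_sub hh, hl]
    by_cases hdb : d b = d j
    · rw [if_pos hdb, hdb, Nat.sub_self, Nat.mul_zero, pow_zero, Polynomial.coeff_one_zero,
        mul_one]
    · rw [if_neg hdb]
      rcases lt_or_gt_of_ne hdb with h1 | h1
      · have h2 : 0 < h * (d j - d b) := Nat.mul_pos hh (Nat.sub_pos_of_lt h1)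
        rw [Polynomial.coeff_X_pow, if_neg h2.ne, mul_zero, zero_mul]
      · rw [ha b hb h1, map_zero, zero_mul, zero_mul]

theorem mem_AS_iffS {w : Fin N → ℕ} {d : Fin r → ℕ} {f : Fin r → MvPolynomial (Fin N) ℂ}
    (hW : SWt w d f) {M h n K : ℕ} (hM : 0 < M) (hh : 1 ≤ h)
    (hn : ∀ i, h * w i < (n + 1) * M) (γ : Fin N × Fin (n + 1) → ℂ)
    (hL : Low w M h γ) {E : ℕ} {B : Finset (Fin r)} (hA : Adm d (ini w d f) (lead w M h γ) E B)
    (hG : GenS w d f (lead w M h γ) E B) :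
    γ ∈ AS f n K ↔ (E ≤ dmax d → K * M ≤ h * E) ∧
      ∀ b ∈ B, ∀ l < K, (along (f b) γ).coeff l = 0 := by
  constructor
  · rintro ⟨-, hall⟩
    refine ⟨fun hE => ?_, fun b _ l hl => hall b l hl⟩
    obtain ⟨j, hdj, hne⟩ := hA.top hE
    by_contra hlt
    push Not at hlt
    have hdvd : M ∣ h * d j := by
      by_contra hnd
      exact hne (not_dvd_lead ((wt_ini hW).hom j) hM _ (lead_mem w M h γ) hnd)
    obtain ⟨l₀, hl₀⟩ := hdvd
    have hl1 : l₀ * M = h * d j := by rw [hl₀, Nat.mul_comm]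
    have hl2 : l₀ < K := by
      have h1 : l₀ * M < K * M := by rw [hl1, hdj]; exact hlt
      exact Nat.lt_of_mul_lt_mul_right h1
    have h2 := eq_coeffS (hW.ord j) hM hh hn γ hL l₀ hl1
    rw [hall j l₀ hl2] at h2
    exact hne h2.symm
  · rintro ⟨hK, hB⟩
    refine ⟨fun i => ?_, fun j l hl => ?_⟩
    · refine hL i 0 ?_
      rw [Fin.val_zero, Nat.zero_mul]
      exact Nat.mul_pos hh (hW.w_pos i)
    · rcases le_or_gt E (d j) with hEj | hjE
      · have hdm : d j ≤ dmax d := Finset.single_le_sum (f := d) (fun _ _ => Nat.zero_le _)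
          (Finset.mem_univ j)
        have h1 := hK (hEj.trans hdm)
        refine low_coeffS (hW.ord j) hM γ hL l ?_
        calc l * M < K * M := Nat.mul_lt_mul_of_pos_right hl hM
          _ ≤ h * E := h1
          _ ≤ h * d j := Nat.mul_le_mul_left _ hEj
      · obtain ⟨g, hg0, hgm⟩ := hG j hjE
        obtain ⟨a, ha, hr⟩ := b2_mem_span B (fun b => d b ≤ d j) _ _ hgm
        exact (gen_coeff hW hM hh hn γ hL hB j g hg0 a
          (fun b _ hb => ha b (not_le.2 hb)) hr).1 l hl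

end WH
end MotMono
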