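import Pool.Agent.Lib.MP_4e5fcd_ag.SW.B1
import Pool.Agent.Lib.MP_4e5fcd_ag.WH.B3

/-!
# SW-B3: smooth truncations are generated by the basis

`genS_of_smo`: copy the proof of WH-B3 (`gen_of_smooth`), with `J = trnS w d f e`, `e = d j`:
`eval (cons 0 c) (dfm w (d i) (f i)) = eval c (ini w d f i) = 0` for `d i ≤ e < E` (`eval_dfm`), and
`xgrad (dfm w (d i) (f i)) c = grad (ini w d f i) c` (`xgrad_dfm`), so the `xgrad` of the elements of
`J` at `c` lie in the span `W` of the `grad (ini w d f b) c`, `b ∈ B'`.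
`smooth_ini`: apply the homomorphism `s = 0`, `aeval (Fin.cons 0 X)`, to `g k`, `h`: it maps
`dfm w (d j) (f j)` to `ini w d f j`, `J` onto `trn d (ini w d f) e`, and
`grad (aeval (Fin.cons 0 X) g) c = xgrad g c` (chain rule; for monomials, or
`MvPolynomial.induction_on`).
-/

open MvPolynomial

namespace MotMono
namespace WH

variable {N r : ℕ}

private theorem B3s_xgrad_mul (a g : MvPolynomial (Fin (N + 1)) ℂ) (c : Fin N → ℂ) :
    xgrad (a * g) c = eval (Fin.cons 0 c : Fin (N + 1) → ℂ) a • xgrad g c + eval (Fin.cons 0 c : Fin (N + 1) → ℂ) g • xgrad a c := by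
  funext i
  simp only [xgrad, Derivation.leibniz, smul_eq_mul, map_add, map_mul, Pi.add_apply, Pi.smul_apply]

private theorem B3s_xgrad_add (a g : MvPolynomial (Fin (N + 1)) ℂ) (c : Fin N → ℂ) :
    xgrad (a + g) c = xgrad a c + xgrad g c := by
  funext i
  simp only [xgrad, map_add, Pi.add_apply]

private theorem B3s_xgrad_zero (c : Fin N → ℂ) : xgrad (0 : MvPolynomial (Fin (N + 1)) ℂ) c = 0 := by
  funext i
  simp only [xgrad, map_zero, Pi.zero_apply]

private theorem B3s_xgrad_sum {ι : Type*} (s : Finset ι) (F : ι → MvPolynomial (Fin (N + 1)) ℂ)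
    (c : Fin N → ℂ) : xgrad (∑ k ∈ s, F k) c = ∑ k ∈ s, xgrad (F k) c := by
  funext i
  simp only [xgrad, map_sum, Finset.sum_apply]

private theorem B3s_span {S : Set (MvPolynomial (Fin (N + 1)) ℂ)} {c : Fin N → ℂ}
    {W : Submodule ℂ (Fin N → ℂ)} (hS : ∀ s ∈ S, eval (Fin.cons 0 c : Fin (N + 1) → ℂ) s = 0) (hW : ∀ s ∈ S, xgrad s c ∈ W)
    {q : MvPolynomial (Fin (N + 1)) ℂ} (hq : q ∈ Ideal.span S) : eval (Fin.cons 0 c : Fin (N + 1) → ℂ) q = 0 ∧ xgrad q c ∈ W := by
  refine Submodule.span_induction (p := fun q _ => eval (Fin.cons 0 c : Fin (N + 1) → ℂ) q = 0 ∧ xgrad q c ∈ W) ?_ ?_ ?_ ?_ hq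
  · intro x hx
    exact ⟨hS x hx, hW x hx⟩
  · refine ⟨map_zero _, ?_⟩
    rw [B3s_xgrad_zero]
    exact W.zero_mem
  · rintro x y - - ⟨hx, hx'⟩ ⟨hy, hy'⟩
    refine ⟨by rw [map_add, hx, hy, add_zero], ?_⟩
    rw [B3s_xgrad_add]
    exact W.add_mem hx' hy'
  · rintro a x - ⟨hx, hx'⟩
    refine ⟨by rw [smul_eq_mul, map_mul, hx, mul_zero], ?_⟩
    rw [smul_eq_mul, B3s_xgrad_mul, hx, zero_smul, add_zero]
    exact W.smul_mem _ hx'

theorem genS_of_smo {w : Fin N → ℕ} {d : Fin r → ℕ} {f : Fin r → MvPolynomial (Fin N) ℂ}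
    (hW : SWt w d f) (hS : Smo w d f) {c : Fin N → ℂ} (hc : c ≠ 0) {E : ℕ} {B : Finset (Fin r)}
    (hA : Adm d (ini w d f) c E B) : GenS w d f c E B := by
  classical
  obtain ⟨F, hF⟩ : ∃ F : Fin r → MvPolynomial (Fin (N + 1)) ℂ, F = fun b => dfm w (d b) (f b) :=
    ⟨_, rfl⟩
  intro j hj
  have hev : ∀ i, eval (Fin.cons 0 c : Fin (N + 1) → ℂ) (F i) = eval c (ini w d f i) :=
    fun i => by rw [hF]; exact eval_dfm w (d i) (f i) (hW.ord i) c
  have hxg : ∀ i, xgrad (F i) c = grad (ini w d f i) c :=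
    fun i => by rw [hF]; exact xgrad_dfm w (d i) (f i) (hW.ord i) c
  have hvan : ∀ i, d i ≤ d j → eval (Fin.cons 0 c : Fin (N + 1) → ℂ) (F i) = 0 := fun i hi => by
    rw [hev]
    exact hA.van i (lt_of_le_of_lt hi hj)
  obtain ⟨m, g, h, hg, hind, hh, hspan⟩ := hS c hc (d j) (fun i hi => hA.van i (lt_of_le_of_lt hi hj))
  set B' : Finset (Fin r) := B.filter fun b => d b ≤ d j with hB'
  -- independence of the gradients of `B'`
  have hindB : LinearIndependent ℂ (fun b : B' => xgrad (F b) c) := by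
    have h1 : ∀ b : B', (b : Fin r) ∈ B := fun b => (Finset.mem_filter.mp b.2).1
    have h2 := hA.ind.comp (fun b : B' => (⟨b, h1 b⟩ : B)) (by
      intro x y hxy
      have := congrArg Subtype.val hxy
      exact Subtype.ext this)
    have h3 : (fun b : B' => xgrad (F b) c) =
        (fun b : B => grad (ini w d f b) c) ∘ (fun b : B' => (⟨b, h1 b⟩ : B)) := by
      funext b
      exact hxg b
    rw [h3]
    exact h2
  set W : Submodule ℂ (Fin N → ℂ) := Submodule.span ℂ (Set.range fun b : B' => xgrad (F b) c) with hWs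
  have hmemW : ∀ i, d i ≤ d j → xgrad (F i) c ∈ W := by
    intro i hi
    have h2 := hA.mem i (lt_of_le_of_lt hi hj)
    rw [hxg]
    refine Submodule.span_mono ?_ h2
    rintro v ⟨b, hb, hbi, rfl⟩
    exact ⟨⟨b, Finset.mem_filter.mpr ⟨hb, hbi.trans hi⟩⟩, hxg b⟩
  have hJ : ∀ q ∈ trnS w d f (d j),
      eval (Fin.cons 0 c : Fin (N + 1) → ℂ) q = 0 ∧ xgrad q c ∈ W := by
    intro q hq
    have hq' : q ∈ Ideal.span {g | ∃ i, d i ≤ d j ∧ g = F i} := by
      rw [hF]
      exact hq
    refine B3s_span (S := {g | ∃ i, d i ≤ d j ∧ g = F i}) ?_ ?_ hq'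
    · rintro s ⟨i, hi, rfl⟩
      exact hvan i hi
    · rintro s ⟨i, hi, rfl⟩
      exact hmemW i hi
  -- the matrix `C`
  have hfJ : ∀ i, d i ≤ d j → F i ∈ trnS w d f (d j) := fun i hi => Ideal.subset_span
    ⟨i, hi, congrFun hF i⟩
  have hC : ∀ b : B', ∃ a : Fin m → MvPolynomial (Fin (N + 1)) ℂ, ∑ k, a k * g k = h * F b := by
    intro b
    have hb := (Finset.mem_filter.mp b.2).2
    exact Ideal.mem_span_range_iff_exists_fun.mp (hspan (F b) (hfJ b hb))
  choose C hC using hC
  have hgr : ∀ b : B', eval (Fin.cons 0 c : Fin (N + 1) → ℂ) h • xgrad (F b) c =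
      ∑ k, eval (Fin.cons 0 c : Fin (N + 1) → ℂ) (C b k) • xgrad (g k) c := by
    intro b
    have hb := (Finset.mem_filter.mp b.2).2
    have h3 : xgrad (∑ k, C b k * g k) c = xgrad (h * F b) c := by rw [hC b]
    rw [B3s_xgrad_mul, hvan b hb, zero_smul, add_zero, B3s_xgrad_sum] at h3
    rw [← h3]
    refine Finset.sum_congr rfl fun k _ => ?_
    rw [B3s_xgrad_mul, (hJ (g k) (hg k)).1, zero_smul, add_zero]
  -- `m = card B'`
  have hcard : Fintype.card B' = m := by
    apply le_antisymm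
    · set W' : Submodule ℂ (Fin N → ℂ) := Submodule.span ℂ (Set.range fun k => xgrad (g k) c)
      have hfin : Module.finrank ℂ W' = m := by
        rw [finrank_span_eq_card hind, Fintype.card_fin]
      have hle : W ≤ W' := by
        rw [hWs, Submodule.span_le]
        rintro v ⟨b, rfl⟩
        have h4 : xgrad (F b) c = (eval (Fin.cons 0 c : Fin (N + 1) → ℂ) h)⁻¹ • ∑ k, eval (Fin.cons 0 c : Fin (N + 1) → ℂ) (C b k) • xgrad (g k) c := by
          rw [← hgr b, smul_smul, inv_mul_cancel₀ hh, one_smul]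
        show xgrad (F b) c ∈ W'
        rw [h4]
        refine W'.smul_mem _ (W'.sum_mem fun k _ => W'.smul_mem _ ?_)
        exact Submodule.subset_span ⟨k, rfl⟩
      have h5 := Submodule.finrank_mono hle
      rw [hfin, hWs, finrank_span_eq_card hindB] at h5
      exact h5
    · have hle : Submodule.span ℂ (Set.range fun k => xgrad (g k) c) ≤ W := by
        rw [Submodule.span_le]
        rintro v ⟨k, rfl⟩
        exact (hJ (g k) (hg k)).2
      have h5 := Submodule.finrank_mono hle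
      rw [finrank_span_eq_card hind, Fintype.card_fin, hWs, finrank_span_eq_card hindB] at h5
      exact h5
  have σ : Fin m ≃ B' := (Fintype.equivFinOfCardEq hcard).symm
  set D : Matrix (Fin m) (Fin m) (MvPolynomial (Fin (N + 1)) ℂ) := Matrix.of fun i k => C (σ i) k with hD
  have hdet : eval (Fin.cons 0 c : Fin (N + 1) → ℂ) D.det ≠ 0 := by
    have h6 : eval (Fin.cons 0 c : Fin (N + 1) → ℂ) D.det = (D.map (eval (Fin.cons 0 c : Fin (N + 1) → ℂ))).det := by
      rw [RingHom.map_det]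
      rfl
    rw [h6]
    have h7 : LinearIndependent ℂ (D.map (eval (Fin.cons 0 c : Fin (N + 1) → ℂ))).row := by
      rw [Fintype.linearIndependent_iff]
      intro lam hlam i
      have h8 : ∀ k, ∑ i, lam i * eval (Fin.cons 0 c : Fin (N + 1) → ℂ) (C (σ i) k) = 0 := by
        intro k
        have := congrFun hlam k
        simpa [Finset.sum_apply, Matrix.row, hD] using this
      have h9 : ∑ b : B', (lam (σ.symm b) * eval (Fin.cons 0 c : Fin (N + 1) → ℂ) h) • xgrad (F b) c = 0 := by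
        rw [← Equiv.sum_comp σ]
        have h10 : ∀ i, (lam (σ.symm (σ i)) * eval (Fin.cons 0 c : Fin (N + 1) → ℂ) h) • xgrad (F (σ i)) c
            = ∑ k, (lam i * eval (Fin.cons 0 c : Fin (N + 1) → ℂ) (C (σ i) k)) • xgrad (g k) c := by
          intro i
          rw [Equiv.symm_apply_apply, mul_smul, hgr, Finset.smul_sum]
          refine Finset.sum_congr rfl fun k _ => ?_
          rw [smul_smul]
        rw [Finset.sum_congr rfl fun i _ => h10 i, Finset.sum_comm]
        refine Finset.sum_eq_zero fun k _ => ?_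
        rw [← Finset.sum_smul, h8 k, zero_smul]
      have h11 := Fintype.linearIndependent_iff.mp hindB _ h9 (σ i)
      rw [Equiv.symm_apply_apply] at h11
      exact (mul_eq_zero.mp h11).resolve_right hh
    have h12 := Matrix.linearIndependent_rows_iff_isUnit.mp h7
    rw [Matrix.isUnit_iff_isUnit_det] at h12
    exact h12.ne_zero
  -- the conclusion
  have hgk : ∀ k, D.det * g k ∈ Ideal.span {g | ∃ b ∈ B, d b ≤ d j ∧ g = F b} := by
    intro k
    have h13 : D.det * g k = ∑ i, D.adjugate k i * (h * F (σ i)) := by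
      have h14 : D.adjugate.mulVec (D.mulVec g) = D.det • g := by
        rw [Matrix.mulVec_mulVec, Matrix.adjugate_mul, Matrix.smul_mulVec, Matrix.one_mulVec]
      have h15 := congrFun h14 k
      rw [Pi.smul_apply, smul_eq_mul] at h15
      rw [← h15]
      simp only [Matrix.mulVec, dotProduct]
      refine Finset.sum_congr rfl fun i _ => ?_
      rw [← hC (σ i)]
      rfl
    rw [h13]
    refine Ideal.sum_mem _ fun i _ => ?_
    rw [← mul_assoc]
    refine Ideal.mul_mem_left _ _ (Ideal.subset_span ?_)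
    have hb := Finset.mem_filter.mp (σ i).2
    exact ⟨σ i, hb.1, hb.2, rfl⟩
  refine ⟨D.det * h, ?_, ?_⟩
  · rw [map_mul]
    exact mul_ne_zero hdet hh
  · have hgoal : D.det * h * F j ∈ Ideal.span {g | ∃ b ∈ B, d b ≤ d j ∧ g = F b} := by
      obtain ⟨a, ha⟩ := Ideal.mem_span_range_iff_exists_fun.mp (hspan (F j) (hfJ j le_rfl))
      rw [mul_assoc, ← ha, Finset.mul_sum]
      refine Ideal.sum_mem _ fun k _ => ?_
      have : D.det * (a k * g k) = a k * (D.det * g k) := by ring
      rw [this]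
      exact Ideal.mul_mem_left _ _ (hgk k)
    rw [hF] at hgoal
    exact hgoal

/-- the homomorphism `s = 0` -/
private noncomputable def b3pi : MvPolynomial (Fin (N + 1)) ℂ →ₐ[ℂ] MvPolynomial (Fin N) ℂ :=
  aeval (Fin.cons 0 X : Fin (N + 1) → MvPolynomial (Fin N) ℂ)

private theorem b3pi_surj : Function.Surjective (b3pi (N := N)) := by
  intro q
  refine ⟨rename Fin.succ q, ?_⟩
  rw [b3pi, aeval_rename]
  have : (Fin.cons 0 X : Fin (N + 1) → MvPolynomial (Fin N) ℂ) ∘ Fin.succ = X := by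
    funext i
    rfl
  rw [this, aeval_X_left_apply]

private theorem eval_b3pi (c : Fin N → ℂ) (G : MvPolynomial (Fin (N + 1)) ℂ) :
    eval c (b3pi G) = eval (Fin.cons 0 c : Fin (N + 1) → ℂ) G := by
  induction G using MvPolynomial.induction_on with
  | C a => simp [b3pi]
  | add p q hp hq => rw [map_add, map_add, map_add, hp, hq]
  | mul_X p i hp =>
    rw [map_mul, map_mul, map_mul, hp]
    congr 1
    refine Fin.cases ?_ (fun k => ?_) i
    · simp [b3pi]
    · simp [b3pi]

private theorem pderiv_b3pi (i : Fin N) (G : MvPolynomial (Fin (N + 1)) ℂ) :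
    pderiv i (b3pi G) = b3pi (pderiv i.succ G) := by
  classical
  induction G using MvPolynomial.induction_on with
  | C a => simp [b3pi]
  | add p q hp hq => rw [map_add, map_add, map_add, map_add, hp, hq]
  | mul_X p j hp =>
    rw [map_mul, Derivation.leibniz, Derivation.leibniz, hp]
    refine Fin.cases ?_ (fun k => ?_) j
    · have h1 : b3pi (X 0 : MvPolynomial (Fin (N + 1)) ℂ) = 0 := by simp [b3pi]
      rw [h1, pderiv_X_of_ne (Fin.succ_ne_zero i).symm]
      simp only [smul_eq_mul, map_zero, mul_zero, zero_mul, zero_add, map_mul, h1]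
    · have h1 : b3pi (X k.succ : MvPolynomial (Fin (N + 1)) ℂ) = X k := by simp [b3pi]
      have h2 : b3pi (pderiv i.succ (X k.succ : MvPolynomial (Fin (N + 1)) ℂ)) =
          pderiv i (X k : MvPolynomial (Fin N) ℂ) := by
        by_cases hik : i = k
        · subst hik
          rw [pderiv_X_self, pderiv_X_self, map_one]
        · rw [pderiv_X_of_ne (fun h => hik h.symm),
            pderiv_X_of_ne (fun h => hik (Fin.succ_injective _ h).symm), map_zero]
      simp only [smul_eq_mul, map_add, map_mul, h1, h2]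

private theorem grad_b3pi (c : Fin N → ℂ) (G : MvPolynomial (Fin (N + 1)) ℂ) :
    grad (b3pi G) c = xgrad G c := by
  funext i
  show eval c (pderiv i (b3pi G)) = _
  rw [pderiv_b3pi, eval_b3pi]
  rfl

private theorem b3pi_dfm (w : Fin N → ℕ) (δ : ℕ) (g : MvPolynomial (Fin N) ℂ)
    (hg : ∀ m, coeff m g ≠ 0 → δ ≤ ∑ i, m i * w i) :
    b3pi (dfm w δ g) = weightedHomogeneousComponent w δ g := by
  classical
  refine MvPolynomial.funext fun c => ?_
  rw [eval_b3pi, eval_dfm w δ g hg]

theorem smooth_ini {w : Fin N → ℕ} {d : Fin r → ℕ} {f : Fin r → MvPolynomial (Fin N) ℂ}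
    (hW : SWt w d f) (hS : Smo w d f) (c : Fin N → ℂ) (hc : c ≠ 0) (e : ℕ)
    (hz : ∀ j, d j ≤ e → eval c (ini w d f j) = 0) : SmoothAt (trn d (ini w d f) e) c := by
  obtain ⟨m, g, h, hg, hind, hh, hspan⟩ := hS c hc e hz
  have hmap : ∀ G ∈ trnS w d f e, b3pi G ∈ trn d (ini w d f) e := by
    intro G hG
    have h1 : trnS w d f e ≤ (trn d (ini w d f) e).comap (b3pi (N := N)) := by
      refine Ideal.span_le.2 ?_
      rintro _ ⟨j, hj, rfl⟩
      show b3pi (dfm w (d j) (f j)) ∈ trn d (ini w d f) e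
      rw [b3pi_dfm w (d j) (f j) (hW.ord j)]
      exact Ideal.subset_span ⟨j, hj, rfl⟩
    exact h1 hG
  refine ⟨m, fun k => b3pi (g k), b3pi h, fun k => hmap _ (hg k), ?_, ?_, ?_⟩
  · have h1 : (fun k => grad (b3pi (g k)) c) = fun k => xgrad (g k) c := by
      funext k
      exact grad_b3pi c (g k)
    rw [h1]
    exact hind
  · rw [eval_b3pi]
    exact hh
  · intro q hq
    have h1 : trn d (ini w d f) e ≤ (trnS w d f e).map (b3pi (N := N)) := by
      refine Ideal.span_le.2 ?_
      rintro _ ⟨j, hj, rfl⟩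
      show ini w d f j ∈ _
      have h2 : ini w d f j = b3pi (dfm w (d j) (f j)) := (b3pi_dfm w (d j) (f j) (hW.ord j)).symm
      rw [h2]
      exact Ideal.mem_map_of_mem _ (Ideal.subset_span ⟨j, hj, rfl⟩)
    obtain ⟨q', hq', rfl⟩ := (Ideal.mem_map_iff_of_surjective _ b3pi_surj).1 (h1 hq)
    have h3 := Ideal.mem_map_of_mem (b3pi (N := N)) (hspan q' hq')
    rw [Ideal.map_span, ← Set.range_comp, map_mul] at h3
    exact h3

end WH
end MotMono
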