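import Mathlib

/-!
# SW-BH1: the character sum for Brieskorn-Hamm complete intersections

`g i l = m i` if `m i ∣ l`, and `0` otherwise. For `μ = exp (2πi ∑ 1 / m i) ≠ 1` the sum over
`l = 1, …, e` of `μ^l` times `∑_{|B| ≥ r} ∏_{i ∈ B} g i l ∏_{i ∉ B} (1 - g i l)` is
`e ∑_k κ(k)`, where `k` runs through the `k ∈ ∏ [0, m i)` with `μ ∏ ζ i ^ k i = 1` and
`κ(k) = (-1)^(N - r) (|supp k| - 1 choose N - r)`.
-/

namespace MotMono
namespace BH

variable {N : ℕ}

/-- `m i` if `m i ∣ l`, and `0` otherwise -/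
def gg (m : Fin N → ℕ) (i : Fin N) (l : ℕ) : ℤ := if m i ∣ l then (m i : ℤ) else 0

/-- the Lefschetz number of the `l`-th power of the monodromy -/
def lef (m : Fin N → ℕ) (r l : ℕ) : ℤ :=
  ∑ B : Finset (Fin N), if r ≤ B.card then
    (∏ i ∈ B, gg m i l) * ∏ i ∈ Bᶜ, (1 - gg m i l) else 0

/-- the root of unity `exp (2πi / m i)` -/
noncomputable def zt (m : Fin N → ℕ) (i : Fin N) : ℂ := Complex.exp (2 * Real.pi * Complex.I / m i)

theorem zt_prim {m : Fin N → ℕ} (hm : ∀ i, 2 ≤ m i) (i : Fin N) : IsPrimitiveRoot (zt m i) (m i) :=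
  Complex.isPrimitiveRoot_exp (m i) (by have := hm i; omega)

theorem gg_eq {m : Fin N → ℕ} (hm : ∀ i, 2 ≤ m i) (i : Fin N) (l : ℕ) :
    ((gg m i l : ℤ) : ℂ) = ∑ k ∈ Finset.range (m i), (zt m i ^ k) ^ l := by
  have h0 := zt_prim hm i
  have h1 : ∀ k ∈ Finset.range (m i), (zt m i ^ k) ^ l = (zt m i ^ l) ^ k := by
    intro k _
    rw [← pow_mul, ← pow_mul, mul_comm]
  rw [Finset.sum_congr rfl h1]
  unfold gg
  by_cases h : m i ∣ l
  · rw [if_pos h, (h0.pow_eq_one_iff_dvd l).2 h]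
    simp
  · rw [if_neg h]
    have h2 : zt m i ^ l ≠ 1 := fun h3 => h ((h0.pow_eq_one_iff_dvd l).1 h3)
    rw [geom_sum_eq h2, ← pow_mul, mul_comm, pow_mul, h0.pow_eq_one, one_pow, sub_self, zero_div]
    simp

theorem one_sub_gg_eq {m : Fin N → ℕ} (hm : ∀ i, 2 ≤ m i) (i : Fin N) (l : ℕ) :
    (1 - (gg m i l : ℤ) : ℂ) =
      ∑ k ∈ Finset.range (m i), (if k = 0 then 0 else -1) * (zt m i ^ k) ^ l := by
  have h0 : 0 < m i := by have := hm i; omega
  rw [gg_eq hm i l]
  have h1 : ∀ k ∈ Finset.range (m i), (if k = 0 then (0 : ℂ) else -1) * (zt m i ^ k) ^ l =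
      (if k = 0 then 1 else 0) - (zt m i ^ k) ^ l := by
    intro k _
    by_cases hk : k = 0
    · rw [if_pos hk, if_pos hk, hk]
      simp
    · rw [if_neg hk, if_neg hk]
      ring
  rw [Finset.sum_congr rfl h1, Finset.sum_sub_distrib, Finset.sum_ite_eq' (Finset.range (m i)) 0,
    if_pos (Finset.mem_range.2 h0)]

/-- the coefficient of the character `k` in the term of `B` -/
def cf (B : Finset (Fin N)) (k : Fin N → ℕ) : ℤ :=
  ∏ i, if i ∈ B then 1 else if k i = 0 then 0 else -1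

theorem cf_eq (B : Finset (Fin N)) (k : Fin N → ℕ) :
    cf B k = if Bᶜ ⊆ Finset.univ.filter (fun i => k i ≠ 0) then (-1) ^ Bᶜ.card else 0 := by
  classical
  unfold cf
  by_cases h : Bᶜ ⊆ Finset.univ.filter (fun i => k i ≠ 0)
  · rw [if_pos h]
    have h1 : ∀ i ∈ Finset.univ, (if i ∈ B then (1 : ℤ) else if k i = 0 then 0 else -1) =
        if i ∈ Bᶜ then -1 else 1 := by
      intro i _
      by_cases hi : i ∈ B
      · rw [if_pos hi, if_neg (fun h2 => (Finset.mem_compl.1 h2) hi)]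
      · rw [if_neg hi, if_pos (Finset.mem_compl.2 hi), if_neg]
        exact (Finset.mem_filter.1 (h (Finset.mem_compl.2 hi))).2
    rw [Finset.prod_congr rfl h1, Finset.prod_ite_mem, Finset.univ_inter, Finset.prod_const]
  · rw [if_neg h]
    obtain ⟨i, hi, hi2⟩ := Finset.not_subset.1 h
    refine Finset.prod_eq_zero (Finset.mem_univ i) ?_
    rw [if_neg (Finset.mem_compl.1 hi), if_pos]
    by_contra h3
    exact hi2 (Finset.mem_filter.2 ⟨Finset.mem_univ _, h3⟩)

/-- the coefficient of the character `k` -/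
def kap (r : ℕ) (k : Fin N → ℕ) : ℤ :=
  ∑ B : Finset (Fin N), if r ≤ B.card then cf B k else 0

theorem kap_eq {r : ℕ} (hrN : r ≤ N) {k : Fin N → ℕ} (hk : k ≠ 0) :
    kap r k = (-1) ^ (N - r) *
      (((Finset.univ.filter (fun i => k i ≠ 0)).card - 1).choose (N - r) : ℕ) := by
  classical
  set C : Finset (Fin N) := Finset.univ.filter (fun i => k i ≠ 0) with hC
  have hC0 : C.card ≠ 0 := by
    intro h
    rw [Finset.card_eq_zero] at h
    apply hk
    funext i
    by_contra h2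
    have : i ∈ C := Finset.mem_filter.2 ⟨Finset.mem_univ _, h2⟩
    rw [h] at this
    exact Finset.notMem_empty _ this
  have h1 : kap r k = ∑ D : Finset (Fin N), if D.card ≤ N - r ∧ D ⊆ C then (-1 : ℤ) ^ D.card else 0 := by
    unfold kap
    refine Finset.sum_bij' (fun B _ => Bᶜ) (fun D _ => Dᶜ) (fun _ _ => Finset.mem_univ _)
      (fun _ _ => Finset.mem_univ _) (fun B _ => compl_compl B) (fun D _ => compl_compl D) ?_
    intro B _
    rw [cf_eq]
    have h2 : B.card + Bᶜ.card = N := by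
      rw [Finset.card_add_card_compl, Fintype.card_fin]
    by_cases h3 : r ≤ B.card
    · rw [if_pos h3]
      by_cases h4 : Bᶜ ⊆ C
      · rw [if_pos h4, if_pos ⟨by omega, h4⟩]
      · rw [if_neg h4, if_neg (fun h5 => h4 h5.2)]
    · rw [if_neg h3, if_neg (fun h5 => h3 (by omega))]
  have h2 : (∑ D : Finset (Fin N), if D.card ≤ N - r ∧ D ⊆ C then (-1 : ℤ) ^ D.card else 0) =
      ∑ D ∈ C.powerset, if D.card ≤ N - r then (-1 : ℤ) ^ D.card else 0 := by
    rw [← Finset.sum_filter, ← Finset.sum_filter]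
    refine Finset.sum_congr ?_ fun _ _ => rfl
    ext D
    simp only [Finset.mem_filter, Finset.mem_univ, true_and, Finset.mem_powerset]
    tauto
  rw [h1, h2, Finset.sum_powerset_apply_card (fun c => if c ≤ N - r then (-1 : ℤ) ^ c else 0)]
  have h3 : (∑ c ∈ Finset.range (C.card + 1), C.card.choose c • (if c ≤ N - r then (-1 : ℤ) ^ c else 0)) =
      ∑ c ∈ Finset.range (N - r + 1), (-1 : ℤ) ^ c * (C.card.choose c : ℤ) := by
    have h4 : ∀ M, C.card ≤ M → N - r ≤ M → (∑ c ∈ Finset.range (C.card + 1),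
        C.card.choose c • (if c ≤ N - r then (-1 : ℤ) ^ c else 0)) =
        ∑ c ∈ Finset.range (M + 1), (if c ≤ N - r then (-1 : ℤ) ^ c * (C.card.choose c : ℤ) else 0) := by
      intro M hM _
      refine Finset.sum_subset_zero_on_sdiff (Finset.range_subset_range.2 (by omega)) ?_ ?_
      · intro c hc
        rw [Finset.mem_sdiff, Finset.mem_range, Finset.mem_range] at hc
        rw [Nat.choose_eq_zero_of_lt (by omega)]
        simp
      · intro c _
        by_cases h5 : c ≤ N - r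
        · rw [if_pos h5, if_pos h5, nsmul_eq_mul]
          ring
        · rw [if_neg h5, if_neg h5, nsmul_eq_mul, mul_zero]
    rw [h4 (max C.card (N - r)) (le_max_left _ _) (le_max_right _ _)]
    symm
    refine Finset.sum_subset_zero_on_sdiff
      (Finset.range_subset_range.2 (by have := le_max_right C.card (N - r); omega)) ?_ ?_
    · intro c hc
      rw [Finset.mem_sdiff, Finset.mem_range, Finset.mem_range] at hc
      rw [if_neg (by omega)]
    · intro c hc
      rw [Finset.mem_range] at hc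
      rw [if_pos (by omega)]
  rw [h3]
  obtain ⟨n, hn⟩ := Nat.exists_eq_succ_of_ne_zero hC0
  rw [hn, Nat.succ_sub_one]
  exact Int.alternating_sum_range_choose_eq_choose

theorem lef_eq {m : Fin N → ℕ} (hm : ∀ i, 2 ≤ m i) (r l : ℕ) :
    ((lef m r l : ℤ) : ℂ) = ∑ k ∈ Fintype.piFinset (fun i => Finset.range (m i)),
      (kap r k : ℂ) * (∏ i, zt m i ^ k i) ^ l := by
  classical
  have h1 : ∀ B : Finset (Fin N),
      (((∏ i ∈ B, gg m i l) * ∏ i ∈ Bᶜ, (1 - gg m i l) : ℤ) : ℂ) =
      ∑ k ∈ Fintype.piFinset (fun i => Finset.range (m i)),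
        (cf B k : ℂ) * (∏ i, zt m i ^ k i) ^ l := by
    intro B
    have h2 : (((∏ i ∈ B, gg m i l) * ∏ i ∈ Bᶜ, (1 - gg m i l) : ℤ) : ℂ) =
        ∏ i, ∑ k ∈ Finset.range (m i),
          (if i ∈ B then (1 : ℂ) else if k = 0 then 0 else -1) * (zt m i ^ k) ^ l := by
      push_cast
      rw [← Finset.prod_mul_prod_compl B]
      congr 1
      · refine Finset.prod_congr rfl fun i hi => ?_
        rw [gg_eq hm i l]
        refine Finset.sum_congr rfl fun k _ => ?_
        rw [if_pos hi, one_mul]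
      · refine Finset.prod_congr rfl fun i hi => ?_
        rw [one_sub_gg_eq hm i l]
        refine Finset.sum_congr rfl fun k _ => ?_
        rw [if_neg (Finset.mem_compl.1 hi)]
    rw [h2, Finset.prod_univ_sum]
    refine Finset.sum_congr rfl fun k _ => ?_
    rw [Finset.prod_mul_distrib, Finset.prod_pow]
    congr 1
    unfold cf
    push_cast
    rfl
  unfold lef
  push_cast
  rw [show (∑ k ∈ Fintype.piFinset (fun i => Finset.range (m i)),
      (kap r k : ℂ) * (∏ i, zt m i ^ k i) ^ l) =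
      ∑ k ∈ Fintype.piFinset (fun i => Finset.range (m i)), ∑ B : Finset (Fin N),
        (if r ≤ B.card then (cf B k : ℂ) else 0) * (∏ i, zt m i ^ k i) ^ l from
    Finset.sum_congr rfl fun k _ => by
      unfold kap
      push_cast
      rw [Finset.sum_mul], Finset.sum_comm]
  refine Finset.sum_congr rfl fun B _ => ?_
  by_cases h : r ≤ B.card
  · rw [if_pos h]
    have h3 := h1 B
    push_cast at h3
    rw [h3]
    refine Finset.sum_congr rfl fun k _ => ?_
    rw [if_pos h]
  · rw [if_neg h]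
    symm
    refine Finset.sum_eq_zero fun k _ => ?_
    rw [if_neg h, zero_mul]

/-- the sum of the powers of an `e`-th root of unity -/
theorem sum_pow_icc {e : ℕ} {z : ℂ} (hz : z ^ e = 1) :
    ∑ l ∈ Finset.Icc 1 e, z ^ l = if z = 1 then (e : ℂ) else 0 := by
  by_cases h : z = 1
  · rw [if_pos h, h]
    simp
  · rw [if_neg h]
    have h1 : ∑ l ∈ Finset.Icc 1 e, z ^ l = (∑ l ∈ Finset.range e, z ^ l) * z := by
      rw [Finset.sum_mul]
      symm
      refine Finset.sum_bij (fun a _ => a + 1) ?_ ?_ ?_ ?_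
      · intro a ha
        rw [Finset.mem_range] at ha
        rw [Finset.mem_Icc]
        omega
      · intro a _ b _ hab
        omega
      · intro b hb
        rw [Finset.mem_Icc] at hb
        exact ⟨b - 1, Finset.mem_range.2 (by omega), by omega⟩
      · intro a _
        rw [pow_succ]
    rw [h1, geom_sum_eq h, hz, sub_self, zero_div, zero_mul]

theorem lef_sum_ne {m : Fin N → ℕ} (hm : ∀ i, 2 ≤ m i) {r : ℕ} (hr : 0 < r) (hrN : r ≤ N) {e : ℕ}
    (he : 0 < e) (hme : ∀ i, m i ∣ e) {s₀ : ℚ} (hs : s₀ = -∑ i, 1 / (m i : ℚ))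
    (hz : ∀ z : ℤ, s₀ ≠ z) :
    ∑ l ∈ Finset.Icc 1 e, Complex.exp (-(2 * Real.pi * Complex.I * s₀ * l)) *
      ((lef m r l : ℤ) : ℂ) ≠ 0 := by
  classical
  set μ : ℂ := Complex.exp (-(2 * Real.pi * Complex.I * s₀)) with hμ
  have hm0 : ∀ i, (m i : ℂ) ≠ 0 := fun i => by
    have := hm i
    exact_mod_cast (by omega : m i ≠ 0)
  have hμp : μ = ∏ i, zt m i := by
    rw [hμ, hs]
    unfold zt
    rw [← Complex.exp_sum]
    congr 1
    push_cast
    rw [mul_neg, neg_neg, Finset.mul_sum]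
    refine Finset.sum_congr rfl fun i _ => ?_
    rw [mul_one_div]
  have hμ1 : μ ≠ 1 := by
    intro h
    rw [hμ, Complex.exp_eq_one_iff] at h
    obtain ⟨n, hn⟩ := h
    apply hz (-n)
    have h1 : (2 * Real.pi * Complex.I : ℂ) ≠ 0 := Complex.two_pi_I_ne_zero
    have h2 : (s₀ : ℂ) = ((-n : ℤ) : ℂ) := by
      apply mul_left_cancel₀ h1
      push_cast
      linear_combination -hn
    exact_mod_cast h2
  have hzte : ∀ i, zt m i ^ e = 1 := fun i => ((zt_prim hm i).pow_eq_one_iff_dvd e).2 (hme i)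
  have hμe : μ ^ e = 1 := by
    rw [hμp, ← Finset.prod_pow]
    exact Finset.prod_eq_one fun i _ => hzte i
  set P := Fintype.piFinset (fun i => Finset.range (m i)) with hP
  have h1 : ∀ l ∈ Finset.Icc 1 e, Complex.exp (-(2 * Real.pi * Complex.I * s₀ * l)) *
      ((lef m r l : ℤ) : ℂ) = ∑ k ∈ P, (kap r k : ℂ) * (μ * ∏ i, zt m i ^ k i) ^ l := by
    intro l _
    rw [lef_eq hm, Finset.mul_sum]
    refine Finset.sum_congr rfl fun k _ => ?_
    have h2 : Complex.exp (-(2 * Real.pi * Complex.I * s₀ * l)) = μ ^ l := by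
      rw [hμ, ← Complex.exp_nat_mul]
      congr 1
      ring
    rw [h2, mul_pow]
    ring
  rw [Finset.sum_congr rfl h1, Finset.sum_comm]
  have h2 : ∀ k ∈ P, ∑ l ∈ Finset.Icc 1 e, (kap r k : ℂ) * (μ * ∏ i, zt m i ^ k i) ^ l =
      (e : ℂ) * (if μ * ∏ i, zt m i ^ k i = 1 then (kap r k : ℂ) else 0) := by
    intro k _
    rw [← Finset.mul_sum, sum_pow_icc]
    · by_cases h : μ * ∏ i, zt m i ^ k i = 1
      · rw [if_pos h, if_pos h]
        ring
      · rw [if_neg h, if_neg h]
        ring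
    · rw [mul_pow, hμe, one_mul, ← Finset.prod_pow]
      refine Finset.prod_eq_one fun i _ => ?_
      rw [← pow_mul, mul_comm, pow_mul, hzte, one_pow]
  rw [Finset.sum_congr rfl h2, ← Finset.mul_sum]
  refine mul_ne_zero (by exact_mod_cast he.ne') ?_
  rw [← Finset.sum_filter]
  have h3 : ∀ k ∈ P.filter (fun k => μ * ∏ i, zt m i ^ k i = 1), k ≠ 0 := by
    rintro k hk rfl
    apply hμ1
    have := (Finset.mem_filter.1 hk).2
    simpa using this
  have h4 : (∑ k ∈ P.filter (fun k => μ * ∏ i, zt m i ^ k i = 1), (kap r k : ℂ)) =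
      (-1) ^ (N - r) * ((∑ k ∈ P.filter (fun k => μ * ∏ i, zt m i ^ k i = 1),
        ((Finset.univ.filter (fun i => k i ≠ 0)).card - 1).choose (N - r) : ℕ) : ℂ) := by
    push_cast
    rw [Finset.mul_sum]
    refine Finset.sum_congr rfl fun k hk => ?_
    rw [kap_eq hrN (h3 k hk)]
    push_cast
    rfl
  rw [h4]
  refine mul_ne_zero (pow_ne_zero _ (by norm_num)) ?_
  rw [Nat.cast_ne_zero]
  refine (Finset.sum_pos' (fun _ _ => Nat.zero_le _) ⟨fun i => m i - 1, ?_, ?_⟩).ne'
  · rw [Finset.mem_filter, hP, Fintype.mem_piFinset]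
    refine ⟨fun i => Finset.mem_range.2 (by have := hm i; omega), ?_⟩
    rw [hμp, ← Finset.prod_mul_distrib]
    refine Finset.prod_eq_one fun i _ => ?_
    rw [← pow_succ', Nat.sub_add_cancel (by have := hm i; omega)]
    exact (zt_prim hm i).pow_eq_one
  · have h5 : (Finset.univ.filter (fun i : Fin N => m i - 1 ≠ 0)) = Finset.univ := by
      rw [Finset.filter_true_of_mem]
      intro i _
      have := hm i
      omega
    show 0 < ((Finset.univ.filter (fun i : Fin N => m i - 1 ≠ 0)).card - 1).choose (N - r)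
    rw [h5, Finset.card_univ, Fintype.card_fin]
    exact Nat.choose_pos (by omega)

end BH
end MotMono
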