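import Pool.Agent.Lib.MP_4e5fcd_ag.LF.X4
import Pool.Agent.Lib.MP_4e5fcd_ag.SW.BH1

/-!
# SW-BH2: Euler characteristics of the fibres of Brieskorn-Hamm complete intersections

`XX a m y l`: the fixed points of the `l`-th power of the monodromy on the fibre
`∑_i a j i x_i ^ (m i) = y j`; `TT a y B`: the affine space of the `u` with `∑_i a j i u_i = y j` and
`u_i = 0` for `i ∉ B`. By Fubini for `u_i = x_i ^ (m i)` the Euler characteristic of `XX a m y l` is
`∑_B ∏_{i ∈ B} g i l ∏_{i ∉ B} (1 - g i l) χ (TT a y B)`.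
-/

open MvPolynomial

namespace MotMono
namespace BH

variable {N r : ℕ}

/-- the fixed points of the `l`-th power of the monodromy on the fibre over `y` -/
def XX (a : Fin r → Fin N → ℂ) (m : Fin N → ℕ) (y : Fin r → ℂ) (l : ℕ) : Set (Fin N → ℂ) :=
  {x | (∀ j, ∑ i, a j i * x i ^ m i = y j) ∧ ∀ i, ¬ m i ∣ l → x i = 0}

/-- the solutions of the linear system `a u = y` with support in `B` -/
def TT (a : Fin r → Fin N → ℂ) (y : Fin r → ℂ) (B : Finset (Fin N)) : Set (Fin N → ℂ) :=
  {u | (∀ j, ∑ i, a j i * u i = y j) ∧ ∀ i, i ∉ B → u i = 0}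

/-- the submodule of the solutions of the homogeneous system -/
def KK (a : Fin r → Fin N → ℂ) (B : Finset (Fin N)) : Submodule ℂ (Fin N → ℂ) where
  carrier := {u | (∀ j, ∑ i, a j i * u i = 0) ∧ ∀ i, i ∉ B → u i = 0}
  zero_mem' := by simp
  add_mem' := by
    rintro u v ⟨h1, h2⟩ ⟨h3, h4⟩
    refine ⟨fun j => ?_, fun i hi => ?_⟩
    · have : ∀ i ∈ Finset.univ, a j i * (u + v) i = a j i * u i + a j i * v i := by
        intro i _
        rw [Pi.add_apply]
        ring
      rw [Finset.sum_congr rfl this, Finset.sum_add_distrib, h1 j, h3 j, add_zero]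
    · rw [Pi.add_apply, h2 i hi, h4 i hi, add_zero]
  smul_mem' := by
    rintro c u ⟨h1, h2⟩
    refine ⟨fun j => ?_, fun i hi => ?_⟩
    · have : ∀ i ∈ Finset.univ, a j i * (c • u) i = c * (a j i * u i) := by
        intro i _
        rw [Pi.smul_apply, smul_eq_mul]
        ring
      rw [Finset.sum_congr rfl this, ← Finset.mul_sum, h1 j, mul_zero]
    · rw [Pi.smul_apply, h2 i hi, smul_zero]

theorem mem_KK {a : Fin r → Fin N → ℂ} {B : Finset (Fin N)} {u : Fin N → ℂ} :
    u ∈ KK a B ↔ (∀ j, ∑ i, a j i * u i = 0) ∧ ∀ i, i ∉ B → u i = 0 := Iff.rfl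

/-- the polynomial `∑_i a j i x_i` -/
private theorem bh_lin (a : Fin N → ℂ) (u : Fin N → ℂ) :
    eval u (∑ i, C (a i) * X i : MvPolynomial (Fin N) ℂ) = ∑ i, a i * u i := by
  simp

theorem constr_TT (a : Fin r → Fin N → ℂ) (y : Fin r → ℂ) (B : Finset (Fin N)) :
    Constr (TT a y B) := by
  classical
  have h1 : TT a y B = (⋂ j, {u | eval u (∑ i, C (a j i) * X i : MvPolynomial (Fin N) ℂ) =
      eval u (C (y j) : MvPolynomial (Fin N) ℂ)}) ∩
      ⋂ i ∈ Bᶜ, {u | eval u (X i : MvPolynomial (Fin N) ℂ) = 0} := by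
    ext u
    simp only [TT, Set.mem_ofPred_eq, Set.mem_inter_iff, Set.mem_iInter, bh_lin, eval_C, eval_X,
      Finset.mem_compl]
  rw [h1]
  exact (constr_iInter fun j => constr_eq _ _).inter
    (constr_biInter_finset _ fun i _ => Constr.zeroSet (X i))

theorem constr_XX (a : Fin r → Fin N → ℂ) (m : Fin N → ℕ) (y : Fin r → ℂ) (l : ℕ) :
    Constr (XX a m y l) := by
  classical
  have h1 : XX a m y l = (⋂ j, {u | eval u (∑ i, C (a j i) * X i ^ m i : MvPolynomial (Fin N) ℂ) =
      eval u (C (y j) : MvPolynomial (Fin N) ℂ)}) ∩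
      ⋂ i ∈ Finset.univ.filter (fun i => ¬ m i ∣ l), {u | eval u (X i : MvPolynomial (Fin N) ℂ) = 0} := by
    ext u
    simp only [XX, Set.mem_ofPred_eq, Set.mem_inter_iff, Set.mem_iInter, map_sum, map_mul, map_pow,
      eval_C, eval_X, Finset.mem_filter, Finset.mem_univ, true_and]
  rw [h1]
  exact (constr_iInter fun j => constr_eq _ _).inter
    (constr_biInter_finset _ fun i _ => Constr.zeroSet (X i))

theorem chi_TT {χ : K0 →+* ℤ} (hχ : χ LL = 1) {a : Fin r → Fin N → ℂ} {y : Fin r → ℂ}
    {B : Finset (Fin N)} (h : (TT a y B).Nonempty) : χ (cls (TT a y B)) = 1 := by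
  obtain ⟨u₀, hu₀⟩ := h
  have h1 : cls (TT a y B) = cls (KK a B : Set (Fin N → ℂ)) := by
    refine cls_iso (constr_TT a y B) (constr_submodule _) ?_
    refine ⟨fun u i => u i - u₀ i, fun u i => u i + u₀ i, ?_, ?_, ?_, ?_, ?_, ?_⟩
    · intro i
      exact ⟨X i - C (u₀ i), 1, fun x _ => ⟨by simp, by simp⟩⟩
    · intro i
      exact ⟨X i + C (u₀ i), 1, fun x _ => ⟨by simp, by simp⟩⟩
    · intro u hu
      refine mem_KK.2 ⟨fun j => ?_, fun i hi => ?_⟩
      · have : ∀ i ∈ Finset.univ, a j i * (u i - u₀ i) = a j i * u i - a j i * u₀ i := by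
          intro i _
          ring
        rw [Finset.sum_congr rfl this, Finset.sum_sub_distrib, hu.1 j, hu₀.1 j, sub_self]
      · show u i - u₀ i = 0
        rw [hu.2 i hi, hu₀.2 i hi, sub_self]
    · intro u hu
      obtain ⟨h2, h3⟩ := mem_KK.1 hu
      refine ⟨fun j => ?_, fun i hi => ?_⟩
      · have : ∀ i ∈ Finset.univ, a j i * (u i + u₀ i) = a j i * u i + a j i * u₀ i := by
          intro i _
          ring
        rw [Finset.sum_congr rfl this, Finset.sum_add_distrib, h2 j, hu₀.1 j, zero_add]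
      · show u i + u₀ i = 0
        rw [h3 i hi, hu₀.2 i hi, add_zero]
    · intro u _
      funext i
      show u i - u₀ i + u₀ i = u i
      ring
    · intro u _
      funext i
      show u i + u₀ i - u₀ i = u i
      ring
  rw [h1, cls_submodule, map_pow, hχ, one_pow]

/-- the sets of the Fubini argument -/
def fam (a : Fin r → Fin N → ℂ) (m : Fin N → ℕ) (y : Fin r → ℂ) (l : ℕ) :
    Option (Finset (Fin N)) → Set (Fin N ⊕ Fin N → ℂ)
  | none => {z | (fun i => z (Sum.inl i)) ∈ XX a m y l ∧ ∀ i, z (Sum.inl i) ^ m i = z (Sum.inr i)}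
  | some B => {z | (fun i => z (Sum.inr i)) ∈ TT a y B ∧ ∀ i, z (Sum.inl i) = 0}

theorem constr_fam (a : Fin r → Fin N → ℂ) (m : Fin N → ℕ) (y : Fin r → ℂ) (l : ℕ)
    (o : Option (Finset (Fin N))) : Constr (fam a m y l o) := by
  cases o with
  | none =>
    have h1 : fam a m y l none = {z | (fun i => z (Sum.inl i)) ∈ XX a m y l} ∩
        ⋂ i : Fin N, {z | eval z (X (Sum.inl i) ^ m i : MvPolynomial (Fin N ⊕ Fin N) ℂ) =
          eval z (X (Sum.inr i))} := by
      ext z
      simp only [fam, Set.mem_ofPred_eq, Set.mem_inter_iff, Set.mem_iInter, map_pow, eval_X]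
    rw [h1]
    exact ((constr_XX a m y l).comp (Sum.inl : Fin N → Fin N ⊕ Fin N)).inter
      (constr_iInter fun i => constr_eq _ _)
  | some B =>
    have h1 : fam a m y l (some B) = {z | (fun i => z (Sum.inr i)) ∈ TT a y B} ∩
        ⋂ i : Fin N, {z | eval z (X (Sum.inl i) : MvPolynomial (Fin N ⊕ Fin N) ℂ) = 0} := by
      ext z
      simp only [fam, Set.mem_ofPred_eq, Set.mem_inter_iff, Set.mem_iInter, eval_X]
    rw [h1]
    exact ((constr_TT a y B).comp (Sum.inr : Fin N → Fin N ⊕ Fin N)).inter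
      (constr_iInter fun i => Constr.zeroSet _)

theorem cls_fam_none (a : Fin r → Fin N → ℂ) (m : Fin N → ℕ) (y : Fin r → ℂ) (l : ℕ) :
    cls (fam a m y l none) = cls (XX a m y l) := by
  refine cls_iso (constr_fam a m y l none) (constr_XX a m y l) ?_
  refine ⟨fun z i => z (Sum.inl i), fun x => Sum.elim x (fun i => x i ^ m i), ?_, ?_, ?_, ?_, ?_, ?_⟩
  · intro i
    exact ⟨X (Sum.inl i), 1, fun x _ => ⟨by simp, by simp⟩⟩
  · rintro (i | i)
    · exact ⟨X i, 1, fun x _ => ⟨by simp, by simp⟩⟩
    · exact ⟨X i ^ m i, 1, fun x _ => ⟨by simp, by simp⟩⟩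
  · intro z hz
    exact hz.1
  · intro x hx
    exact ⟨hx, fun i => rfl⟩
  · intro z hz
    funext k
    rcases k with i | i
    · rfl
    · exact hz.2 i
  · intro x _
    rfl

theorem cls_fam_some (a : Fin r → Fin N → ℂ) (m : Fin N → ℕ) (y : Fin r → ℂ) (l : ℕ)
    (B : Finset (Fin N)) : cls (fam a m y l (some B)) = cls (TT a y B) := by
  refine cls_iso (constr_fam a m y l (some B)) (constr_TT a y B) ?_
  refine ⟨fun z i => z (Sum.inr i), fun x => Sum.elim (fun _ => 0) x, ?_, ?_, ?_, ?_, ?_, ?_⟩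
  · intro i
    exact ⟨X (Sum.inr i), 1, fun x _ => ⟨by simp, by simp⟩⟩
  · rintro (i | i)
    · exact ⟨0, 1, fun x _ => ⟨by simp, by simp⟩⟩
    · exact ⟨X i, 1, fun x _ => ⟨by simp, by simp⟩⟩
  · intro z hz
    exact hz.1
  · intro x hx
    exact ⟨hx, fun i => rfl⟩
  · intro z hz
    funext k
    rcases k with i | i
    · exact (hz.2 i).symm
    · rfl
  · intro x _
    rfl

/-- the possible values of `x_i` over `u_i` -/
noncomputable def rts (m : Fin N → ℕ) (l : ℕ) (u : Fin N → ℂ) (i : Fin N) : Finset ℂ :=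
  open Classical in
  if m i ∣ l then (Polynomial.nthRoots (m i) (u i)).toFinset else if u i = 0 then {0} else ∅

theorem mem_rts {m : Fin N → ℕ} (hm : ∀ i, 2 ≤ m i) (l : ℕ) (u : Fin N → ℂ) (i : Fin N) (x : ℂ) :
    x ∈ rts m l u i ↔ x ^ m i = u i ∧ (¬ m i ∣ l → x = 0) := by
  have h0 : 0 < m i := by have := hm i; omega
  unfold rts
  by_cases h : m i ∣ l
  · rw [if_pos h, Multiset.mem_toFinset, Polynomial.mem_nthRoots h0]
    tauto
  · rw [if_neg h]
    by_cases h2 : u i = 0
    · rw [if_pos h2, Finset.mem_singleton, h2, pow_eq_zero_iff h0.ne']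
      tauto
    · rw [if_neg h2]
      constructor
      · intro h3
        exact absurd h3 (Finset.notMem_empty _)
      · rintro ⟨h3, h4⟩
        rw [h4 h, zero_pow h0.ne'] at h3
        exact absurd h3.symm h2

theorem card_rts {m : Fin N → ℕ} (hm : ∀ i, 2 ≤ m i) (l : ℕ) (u : Fin N → ℂ) (i : Fin N) :
    ((rts m l u i).card : ℤ) = if u i = 0 then 1 else gg m i l := by
  have h0 : 0 < m i := by have := hm i; omega
  by_cases h2 : u i = 0
  · rw [if_pos h2]
    have h3 : rts m l u i = {0} := by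
      ext x
      rw [mem_rts hm, Finset.mem_singleton, h2, pow_eq_zero_iff h0.ne']
      tauto
    rw [h3]
    simp
  · rw [if_neg h2]
    unfold rts gg
    by_cases h : m i ∣ l
    · rw [if_pos h, if_pos h]
      have hprim := Complex.isPrimitiveRoot_exp (m i) h0.ne'
      rw [Multiset.toFinset_card_of_nodup (hprim.nthRoots_nodup h2), hprim.card_nthRoots, if_pos]
      exact IsAlgClosed.exists_pow_nat_eq (u i) h0
    · rw [if_neg h, if_neg h, if_neg h2]
      simp

theorem chi_XX {χ : K0 →+* ℤ} (hχ : IsEulerCharF χ) {a : Fin r → Fin N → ℂ} {m : Fin N → ℕ}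
    (hm : ∀ i, 2 ≤ m i) {y : Fin r → ℂ}
    (hy : ∀ B : Finset (Fin N), (TT a y B).Nonempty ↔ r ≤ B.card) (l : ℕ) :
    χ (cls (XX a m y l)) = lef m r l := by
  classical
  set co : Finset (Fin N) → ℤ := fun B => (∏ i ∈ B, gg m i l) * ∏ i ∈ Bᶜ, (1 - gg m i l) with hco
  have key := hχ.fubini (ι := Option (Finset (Fin N))) (τ := Fin N) (fun _ => Fin N)
    (fam a m y l) (constr_fam a m y l) (fun o => o.elim 1 fun B => -co B) (by
    intro u
    rw [Fintype.sum_option]
    have h1 : ∀ B : Finset (Fin N), χ (cls {x : Fin N → ℂ | Sum.elim x u ∈ fam a m y l (some B)}) =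
        if (∀ j, ∑ i, a j i * u i = y j) ∧ ∀ i, i ∉ B → u i = 0 then 1 else 0 := by
      intro B
      by_cases h : (∀ j, ∑ i, a j i * u i = y j) ∧ ∀ i, i ∉ B → u i = 0
      · rw [if_pos h]
        have h2 : {x : Fin N → ℂ | Sum.elim x u ∈ fam a m y l (some B)} = {0} := by
          ext x
          constructor
          · intro hx
            exact Set.mem_singleton_iff.2 (funext fun i => hx.2 i)
          · intro hx
            rw [Set.mem_singleton_iff] at hx
            subst hx
            exact ⟨h, fun i => rfl⟩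
        rw [h2, cls_singleton, map_one]
      · rw [if_neg h]
        have h2 : {x : Fin N → ℂ | Sum.elim x u ∈ fam a m y l (some B)} = ∅ := by
          rw [Set.eq_empty_iff_forall_notMem]
          intro x hx
          exact h hx.1
        rw [h2, cls_empty, map_zero]
    have h3 : χ (cls {x : Fin N → ℂ | Sum.elim x u ∈ fam a m y l none}) =
        if (∀ j, ∑ i, a j i * u i = y j) then ∏ i, (if u i = 0 then 1 else gg m i l) else 0 := by
      by_cases h : ∀ j, ∑ i, a j i * u i = y j
      · rw [if_pos h]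
        have h2 : {x : Fin N → ℂ | Sum.elim x u ∈ fam a m y l none} =
            (Fintype.piFinset (rts m l u) : Set (Fin N → ℂ)) := by
          ext x
          rw [Finset.mem_coe, Fintype.mem_piFinset]
          constructor
          · rintro ⟨⟨_, hx2⟩, hx3⟩ i
            exact (mem_rts hm l u i (x i)).2 ⟨hx3 i, hx2 i⟩
          · intro hx
            refine ⟨⟨fun j => ?_, fun i hi => ((mem_rts hm l u i (x i)).1 (hx i)).2 hi⟩,
              fun i => ((mem_rts hm l u i (x i)).1 (hx i)).1⟩
            rw [← h j]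
            refine Finset.sum_congr rfl fun i _ => ?_
            show a j i * x i ^ m i = a j i * u i
            rw [((mem_rts hm l u i (x i)).1 (hx i)).1]
        rw [h2, LF.chi_finset, Fintype.card_piFinset]
        push_cast
        exact Finset.prod_congr rfl fun i _ => card_rts hm l u i
      · rw [if_neg h]
        have h2 : {x : Fin N → ℂ | Sum.elim x u ∈ fam a m y l none} = ∅ := by
          rw [Set.eq_empty_iff_forall_notMem]
          rintro x ⟨⟨hx1, _⟩, hx2⟩
          apply h
          intro j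
          rw [← hx1 j]
          refine Finset.sum_congr rfl fun i _ => ?_
          show a j i * u i = a j i * x i ^ m i
          have h4 : x i ^ m i = u i := hx2 i
          rw [h4]
        rw [h2, cls_empty, map_zero]
    rw [h3]
    simp only [Option.elim, h1, one_mul]
    by_cases h : ∀ j, ∑ i, a j i * u i = y j
    · rw [if_pos h]
      have h4 : (∏ i, (if u i = 0 then 1 else gg m i l)) =
          ∏ i, (gg m i l + if u i = 0 then 1 - gg m i l else 0) := by
        refine Finset.prod_congr rfl fun i _ => ?_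
        by_cases hi : u i = 0
        · rw [if_pos hi, if_pos hi]
          ring
        · rw [if_neg hi, if_neg hi]
          ring
      rw [h4, Finset.prod_add, Finset.powerset_univ, ← Finset.sum_add_distrib]
      refine Finset.sum_eq_zero fun B _ => ?_
      by_cases h5 : ∀ i, i ∉ B → u i = 0
      · rw [if_pos ⟨h, h5⟩, hco]
        have h6 : (∏ i ∈ Finset.univ \ B, (if u i = 0 then 1 - gg m i l else 0)) =
            ∏ i ∈ Bᶜ, (1 - gg m i l) := by
          rw [← Finset.compl_eq_univ_sdiff]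
          exact Finset.prod_congr rfl fun i hi => if_pos (h5 i (Finset.mem_compl.1 hi))
        rw [h6]
        ring
      · rw [if_neg (fun h6 => h5 h6.2)]
        push Not at h5
        obtain ⟨i, hi, hi2⟩ := h5
        have h6 : (∏ i ∈ Finset.univ \ B, (if u i = 0 then 1 - gg m i l else 0)) = 0 := by
          refine Finset.prod_eq_zero (i := i) ?_ (if_neg hi2)
          rw [← Finset.compl_eq_univ_sdiff]
          exact Finset.mem_compl.2 hi
        rw [h6]
        ring
    · rw [if_neg h, zero_add]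
      refine Finset.sum_eq_zero fun B _ => ?_
      rw [if_neg (fun h6 => h h6.1), mul_zero])
  rw [Fintype.sum_option] at key
  simp only [Option.elim, one_mul, cls_fam_none, cls_fam_some] at key
  have h1 : ∀ B : Finset (Fin N), χ (cls (TT a y B)) = if r ≤ B.card then 1 else 0 := by
    intro B
    by_cases h : r ≤ B.card
    · rw [if_pos h, chi_TT hχ.line ((hy B).2 h)]
    · rw [if_neg h]
      have h2 : TT a y B = ∅ := by
        by_contra h3
        exact h ((hy B).1 (Set.nonempty_iff_ne_empty.2 h3))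
      rw [h2, cls_empty, map_zero]
  simp only [h1] at key
  unfold lef
  have h2 : (∑ B : Finset (Fin N), if r ≤ B.card then
      (∏ i ∈ B, gg m i l) * ∏ i ∈ Bᶜ, (1 - gg m i l) else 0) =
      -∑ B : Finset (Fin N), -co B * (if r ≤ B.card then 1 else 0) := by
    rw [← Finset.sum_neg_distrib]
    refine Finset.sum_congr rfl fun B _ => ?_
    by_cases h : r ≤ B.card
    · rw [if_pos h, if_pos h, hco]
      ring
    · rw [if_neg h, if_neg h]
      ring
  rw [h2]
  linarith

end BH
end MotMono
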