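import Pool.Agent.Lib.MP_4e5fcd_ag.SW.BH2

/-!
# SW-BH3: the linear algebra of a matrix all of whose maximal minors are not zero
-/

namespace MotMono
namespace BH

variable {N r : ℕ}

/-- all `r × r` minors of the `r × N` matrix are different from zero -/
def Minors (a : Fin r → Fin N → ℂ) : Prop :=
  ∀ g : Fin r → Fin N, Function.Injective g → (Matrix.of fun j k => a j (g k)).det ≠ 0

/-- a vector in the kernel with at most `r` nonzero coordinates is zero -/
theorem ker_small {a : Fin r → Fin N → ℂ} (ha : Minors a) (hrN : r ≤ N) {v : Fin N → ℂ}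
    (hv : ∀ j, ∑ i, a j i * v i = 0) {S : Finset (Fin N)} (hS : ∀ i, i ∉ S → v i = 0)
    (hc : S.card ≤ r) : v = 0 := by
  classical
  obtain ⟨T, hST, _, hT⟩ := Finset.exists_subsuperset_card_eq (Finset.subset_univ S) hc
    (by rw [Finset.card_univ, Fintype.card_fin]; exact hrN)
  set g := T.orderEmbOfFin hT with hg
  have hdet := ha g g.injective
  have h1 : (Matrix.of fun j k => a j (g k)).mulVec (fun k => v (g k)) = 0 := by
    funext j
    have h2 : ∑ i, a j i * v i = ∑ i ∈ T, a j i * v i := by
      symm
      refine Finset.sum_subset (Finset.subset_univ _) fun i _ hi => ?_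
      rw [hS i (fun h => hi (hST h)), mul_zero]
    have h3 : ∑ i ∈ T, a j i * v i = ∑ k, a j (g k) * v (g k) := by
      have h4 : T = Finset.univ.map g.toEmbedding := by
        ext i
        rw [Finset.mem_map]
        constructor
        · intro hi
          have h5 : i ∈ Set.range g := by
            rw [hg, Finset.range_orderEmbOfFin]
            exact hi
          obtain ⟨k, hk⟩ := h5
          exact ⟨k, Finset.mem_univ _, hk⟩
        · rintro ⟨k, _, rfl⟩
          exact Finset.orderEmbOfFin_mem T hT k
      conv_lhs => rw [h4]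
      rw [Finset.sum_map]
      rfl
    show ∑ k, a j (g k) * v (g k) = 0
    rw [← h3, ← h2, hv j]
  have h2 := Matrix.eq_zero_of_mulVec_eq_zero hdet h1
  funext i
  by_cases hi : i ∈ T
  · have h5 : i ∈ Set.range g := by
      rw [hg, Finset.range_orderEmbOfFin]
      exact hi
    obtain ⟨k, hk⟩ := h5
    rw [← hk]
    exact congrFun h2 k
  · exact hS i (fun h => hi (hST h))

/-- the rows of the matrix are independent over any `r` columns -/
theorem row_indep {a : Fin r → Fin N → ℂ} (ha : Minors a) {S : Finset (Fin N)} (hc : r ≤ S.card)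
    {c : Fin r → ℂ} (h : ∀ i ∈ S, ∑ j, c j * a j i = 0) : c = 0 := by
  have hdet := ha (S.orderEmbOfCardLe hc) (S.orderEmbOfCardLe hc).injective
  refine Matrix.eq_zero_of_vecMul_eq_zero hdet ?_
  funext k
  show ∑ j, c j * a j (S.orderEmbOfCardLe hc k) = 0
  exact h _ (Finset.orderEmbOfCardLe_mem S hc k)

/-- `a u = y` has a solution with support in `B`, if `B` has at least `r` elements -/
theorem tt_nonempty {a : Fin r → Fin N → ℂ} (ha : Minors a) (y : Fin r → ℂ) {B : Finset (Fin N)}
    (hc : r ≤ B.card) : (TT a y B).Nonempty := by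
  classical
  set g := B.orderEmbOfCardLe hc with hg
  have hdet := ha g g.injective
  set A : Matrix (Fin r) (Fin r) ℂ := Matrix.of fun j k => a j (g k) with hA
  have h1 : A.mulVec (A⁻¹.mulVec y) = y := by
    rw [Matrix.mulVec_mulVec, Matrix.mul_nonsing_inv A (isUnit_iff_ne_zero.2 hdet), Matrix.one_mulVec]
  set v : Fin r → ℂ := A⁻¹.mulVec y with hv
  refine ⟨fun i => ∑ k, if g k = i then v k else 0, fun j => ?_, fun i hi => ?_⟩
  · have h2 : ∑ i, a j i * (∑ k, if g k = i then v k else 0) = ∑ k, a j (g k) * v k := by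
      simp only [Finset.mul_sum]
      rw [Finset.sum_comm]
      refine Finset.sum_congr rfl fun k _ => ?_
      rw [Finset.sum_eq_single (g k)]
      · rw [if_pos rfl]
      · intro i _ hi
        rw [if_neg (fun h => hi h.symm), mul_zero]
      · intro h
        exact absurd (Finset.mem_univ _) h
    rw [h2]
    exact congrFun h1 j
  · refine Finset.sum_eq_zero fun k _ => ?_
    rw [if_neg]
    intro h
    exact hi (h ▸ Finset.orderEmbOfCardLe_mem B hc k)

theorem exists_generic {a : Fin r → Fin N → ℂ} (ha : Minors a) :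
    ∃ y : Fin r → ℂ, ∀ B : Finset (Fin N), (TT a y B).Nonempty ↔ r ≤ B.card := by
  classical
  set sp : Finset (Fin N) → Subspace ℂ (Fin r → ℂ) :=
    fun B => Submodule.span ℂ ((B.image fun i => fun j => a j i : Finset (Fin r → ℂ)) : Set (Fin r → ℂ))
    with hsp
  have h1 : (⊤ : Subspace ℂ (Fin r → ℂ)) ∉
      (Finset.univ.filter fun B : Finset (Fin N) => B.card < r).image sp := by
    intro h
    obtain ⟨B, hB, h2⟩ := Finset.mem_image.1 h
    have h3 : Module.finrank ℂ (sp B) ≤ B.card :=
      (finrank_span_finset_le_card _).trans Finset.card_image_le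
    rw [h2, finrank_top, Module.finrank_fin_fun] at h3
    have := (Finset.mem_filter.1 hB).2
    omega
  have h2 := Subspace.biUnion_ne_univ_of_top_notMem h1
  obtain ⟨y, hy⟩ := (Set.ne_univ_iff_exists_notMem _).1 h2
  refine ⟨y, fun B => ⟨?_, tt_nonempty ha y⟩⟩
  rintro ⟨u, hu1, hu2⟩
  by_contra h3
  apply hy
  rw [Set.mem_iUnion₂]
  refine ⟨sp B, Finset.mem_image_of_mem _ (Finset.mem_filter.2 ⟨Finset.mem_univ _, by omega⟩), ?_⟩
  have h4 : y = ∑ i ∈ B, u i • (fun j => a j i : Fin r → ℂ) := by
    funext j
    rw [← hu1 j, Finset.sum_apply]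
    symm
    refine (Finset.sum_subset (Finset.subset_univ B) fun i _ hi => ?_).trans ?_
    · show u i * a j i = 0
      rw [hu2 i hi, zero_mul]
    · refine Finset.sum_congr rfl fun i _ => ?_
      show u i * a j i = a j i * u i
      ring
  rw [h4]
  refine Submodule.sum_mem _ fun i hi => Submodule.smul_mem _ _ (Submodule.subset_span ?_)
  rw [Finset.mem_coe]
  exact Finset.mem_image_of_mem (fun i => (fun j => a j i : Fin r → ℂ)) hi

end BH
end MotMono
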