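import Pool.Agent.Lib.MP_4e5fcd_ag.SW.N2
import Pool.Agent.Lib.MP_4e5fcd_ag.SW.BH3

/-!
# SW-BH4: semi-Brieskorn-Hamm complete intersections

`f j = ∑_i a j i x_i ^ (m i) + terms of order > 1 for the weights 1 / m i`, `m i ≥ 2`, all maximal
minors of `(a j i)` different from zero: the assumptions of `swci_main` hold for the weights
`e / m i`, `e = ∏ m i`.
-/

open MvPolynomial

namespace MotMono
namespace BH

open WH

variable {N r : ℕ}

/-- the initial forms -/
noncomputable def FF (a : Fin r → Fin N → ℂ) (m : Fin N → ℕ) (j : Fin r) : MvPolynomial (Fin N) ℂ :=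
  ∑ i, C (a j i) * X i ^ m i

/-- the product of the exponents -/
def ee (m : Fin N → ℕ) : ℕ := ∏ i, m i

/-- the weights -/
def ww (m : Fin N → ℕ) (i : Fin N) : ℕ := ee m / m i

theorem ee_pos {m : Fin N → ℕ} (hm : ∀ i, 2 ≤ m i) : 0 < ee m :=
  Finset.prod_pos fun i _ => by have := hm i; omega

theorem dvd_ee (m : Fin N → ℕ) (i : Fin N) : m i ∣ ee m := Finset.dvd_prod_of_mem m (Finset.mem_univ i)

theorem m_mul_ww (m : Fin N → ℕ) (i : Fin N) : m i * ww m i = ee m :=
  Nat.mul_div_cancel' (dvd_ee m i)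

theorem ww_pos {m : Fin N → ℕ} (hm : ∀ i, 2 ≤ m i) (i : Fin N) : 0 < ww m i := by
  have h1 := m_mul_ww m i
  have h2 := ee_pos hm
  rw [← h1] at h2
  exact Nat.pos_of_mul_pos_left h2

theorem weight_eq (w : Fin N → ℕ) (k : Fin N →₀ ℕ) : Finsupp.weight w k = ∑ i, k i * w i := by
  rw [Finsupp.weight_apply]
  exact Finsupp.sum_fintype k (fun i c => c • w i) (fun i => zero_smul ℕ (w i))

/-- the weight in terms of the exponents -/
theorem sum_div {m : Fin N → ℕ} (hm : ∀ i, 2 ≤ m i) (k : Fin N → ℕ) :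
    ((∑ i, k i * ww m i : ℕ) : ℚ) = ee m * ∑ i, (k i : ℚ) / m i := by
  push_cast
  rw [Finset.mul_sum]
  refine Finset.sum_congr rfl fun i _ => ?_
  have h1 : ((m i : ℕ) : ℚ) ≠ 0 := by
    have := hm i
    exact_mod_cast (by omega : m i ≠ 0)
  have h2 : ((m i : ℕ) : ℚ) * (ww m i : ℚ) = ee m := by exact_mod_cast m_mul_ww m i
  field_simp
  rw [← h2]
  ring

theorem coeff_FF (a : Fin r → Fin N → ℂ) (m : Fin N → ℕ) (j : Fin r) (k : Fin N →₀ ℕ)
    (h : coeff k (FF a m j) ≠ 0) : ∑ i, k i * ww m i = ee m := by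
  classical
  unfold FF at h
  rw [coeff_sum] at h
  obtain ⟨i, _, hi⟩ := Finset.exists_ne_zero_of_sum_ne_zero h
  rw [coeff_C_mul, coeff_X_pow] at hi
  by_cases h2 : Finsupp.single i (m i) = k
  · rw [← h2, Finset.sum_eq_single i]
    · rw [Finsupp.single_eq_same]
      exact m_mul_ww m i
    · intro l _ hl
      rw [Finsupp.single_eq_of_ne hl, zero_mul]
    · intro h3
      exact absurd (Finset.mem_univ _) h3
  · rw [if_neg h2, mul_zero] at hi
    exact absurd rfl hi

theorem eval_FF (a : Fin r → Fin N → ℂ) (m : Fin N → ℕ) (j : Fin r) (x : Fin N → ℂ) :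
    eval x (FF a m j) = ∑ i, a j i * x i ^ m i := by
  unfold FF
  simp

theorem grad_FF (a : Fin r → Fin N → ℂ) (m : Fin N → ℕ) (j : Fin r) (x : Fin N → ℂ) (i : Fin N) :
    grad (FF a m j) x i = a j i * (m i * x i ^ (m i - 1)) := by
  classical
  unfold grad FF
  rw [map_sum, map_sum, Finset.sum_eq_single i]
  · rw [pderiv_mul, pderiv_C, pderiv_pow, pderiv_X_self]
    simp
  · intro l _ hl
    rw [pderiv_mul, pderiv_C, pderiv_pow, pderiv_X_of_ne hl]
    simp
  · intro h
    exact absurd (Finset.mem_univ _) h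

theorem cint_FF {a : Fin r → Fin N → ℂ} (ha : Minors a) (hrN : r ≤ N) {m : Fin N → ℕ}
    (hm : ∀ i, 2 ≤ m i) : CInt (fun _ : Fin r => ee m) (FF a m) := by
  classical
  intro c hc e hz
  by_cases he : ee m ≤ e
  · have hz' : ∀ j, ∑ i, a j i * c i ^ m i = 0 := fun j => by
      rw [← eval_FF]
      exact hz j he
    set S : Finset (Fin N) := Finset.univ.filter fun i => c i ≠ 0 with hS
    have hS0 : ∀ i, i ∉ S → c i = 0 := by
      intro i hi
      by_contra h
      exact hi (Finset.mem_filter.2 ⟨Finset.mem_univ _, h⟩)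
    have hSc : r ≤ S.card := by
      by_contra h
      apply hc
      have h1 := ker_small ha hrN (v := fun i => c i ^ m i) hz' (S := S) (fun i hi => by
        show c i ^ m i = 0
        rw [hS0 i hi, zero_pow (by have := hm i; omega)]) (by omega)
      funext i
      have h2 : c i ^ m i = 0 := congrFun h1 i
      exact (pow_eq_zero_iff (by have := hm i; omega)).1 h2
    rw [Fintype.linearIndependent_iff]
    intro g hg j
    set g' : Fin r → ℂ := fun j => g ⟨j, he⟩ with hg'
    have h1 : g' = 0 := by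
      refine row_indep ha hSc fun i hi => ?_
      have hci : c i ≠ 0 := (Finset.mem_filter.1 hi).2
      have h2 := congrFun hg i
      rw [Finset.sum_apply, Pi.zero_apply] at h2
      have h3 : ∑ j : {j : Fin r // ee m ≤ e}, (g j • grad (FF a m j) c) i =
          ∑ j, g' j * (a j i * (m i * c i ^ (m i - 1))) := by
        have h4 : ∀ j : {j : Fin r // ee m ≤ e}, (g j • grad (FF a m j) c) i =
            g' j * (a j i * (m i * c i ^ (m i - 1))) := by
          intro j
          rw [Pi.smul_apply, grad_FF, smul_eq_mul]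
        rw [Finset.sum_congr rfl fun j _ => h4 j]
        exact Fintype.sum_equiv (Equiv.subtypeUnivEquiv fun _ => he) _ _ fun _ => rfl
      rw [h3] at h2
      have h5 : (∑ j, g' j * a j i) * (m i * c i ^ (m i - 1)) = 0 := by
        rw [← h2, Finset.sum_mul]
        exact Finset.sum_congr rfl fun j _ => by ring
      have h6 : ((m i : ℂ) * c i ^ (m i - 1)) ≠ 0 := by
        refine mul_ne_zero ?_ (pow_ne_zero _ hci)
        have := hm i
        exact_mod_cast (by omega : m i ≠ 0)
      exact (mul_eq_zero.1 h5).resolve_right h6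
    exact congrFun h1 j
  · have : IsEmpty {j : Fin r // ee m ≤ e} := ⟨fun j => he j.2⟩
    exact linearIndependent_empty_type

theorem ini_eq {a : Fin r → Fin N → ℂ} {m : Fin N → ℕ} (hm : ∀ i, 2 ≤ m i)
    {f : Fin r → MvPolynomial (Fin N) ℂ}
    (hf : ∀ j k, coeff k (f j - ∑ i, C (a j i) * X i ^ m i) ≠ 0 → 1 < ∑ i, (k i : ℚ) / m i) :
    ini (ww m) (fun _ => ee m) f = FF a m := by
  classical
  funext j
  ext k
  unfold ini
  rw [coeff_weightedHomogeneousComponent, weight_eq]
  have he : (0 : ℚ) < ee m := by exact_mod_cast ee_pos hm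
  by_cases h : ∑ i, k i * ww m i = ee m
  · rw [if_pos h]
    by_contra h2
    have h3 : coeff k (f j - FF a m j) ≠ 0 := by
      rw [coeff_sub]
      exact sub_ne_zero.2 h2
    have h4 := hf j k h3
    have h5 := sum_div hm (fun i => k i)
    rw [h] at h5
    nlinarith
  · rw [if_neg h]
    by_contra h2
    exact h (coeff_FF a m j k fun h3 => h2 h3.symm)

theorem bh_main {χ : K0 →+* ℤ} (hχ : IsEulerCharF χ) (hr : 0 < r) (hrN : r ≤ N) {m : Fin N → ℕ}
    (hm : ∀ i, 2 ≤ m i) {a : Fin r → Fin N → ℂ} (ha : Minors a)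
    {f : Fin r → MvPolynomial (Fin N) ℂ}
    (hf : ∀ j k, coeff k (f j - ∑ i, C (a j i) * X i ^ m i) ≠ 0 → 1 < ∑ i, (k i : ℚ) / m i)
    (s₀ : ℚ) (hpole : IsPole (Zmot (Ideal.span (Set.range f))) s₀) (ε : ℝ) (hε : 0 < ε) :
    ∃ p : Fin N → ℂ, ‖p‖ < ε ∧ (∀ g ∈ Ideal.span (Set.range f), eval p g = 0) ∧
      ∃ y : ConePoint (Ideal.span (Set.range f)) p, y.Nonzero ∧
        ∃ Z, IsZeta (fun m => χ (cls (contactArcs (Ideal.span (Set.range f)) p y m))) Z ∧
          ZeroOrPole Z (Complex.exp (2 * Real.pi * Complex.I * s₀)) := by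
  classical
  have he0 := ee_pos hm
  have hee : (0 : ℚ) < ee m := by exact_mod_cast he0
  have hini := ini_eq hm hf
  obtain ⟨y, hy⟩ := exists_generic ha
  refine swci_main hχ (ww m) (fun _ => ee m) f hr (ww_pos hm) (fun _ => he0) ?_ ?_ ?_ s₀ ?_ hpole ε hε
  · intro j k hk
    show ee m ≤ _
    by_cases h : coeff k (FF a m j) = 0
    · have h3 : coeff k (f j - FF a m j) ≠ 0 := by
        rw [coeff_sub, h, sub_zero]
        exact hk
      have h4 := hf j k h3
      have h5 := sum_div hm (fun i => k i)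
      have h6 : (ee m : ℚ) ≤ ((∑ i, k i * ww m i : ℕ) : ℚ) := by
        rw [h5]
        nlinarith
      exact_mod_cast h6
    · exact (coeff_FF a m j k h).ge
  · intro j h
    rw [hini] at h
    set g := (Finset.univ : Finset (Fin N)).orderEmbOfCardLe (k := r)
      (by rw [Finset.card_univ, Fintype.card_fin]; exact hrN) with hg
    have hdet := ha g g.injective
    apply hdet
    refine Matrix.det_eq_zero_of_row_eq_zero j fun k => ?_
    show a j (g k) = 0
    have h2 := congrArg (coeff (Finsupp.single (g k) (m (g k)))) h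
    rw [coeff_zero] at h2
    rw [← h2]
    unfold FF
    rw [coeff_sum, Finset.sum_eq_single (g k)]
    · rw [coeff_C_mul, coeff_X_pow, if_pos rfl, mul_one]
    · intro l _ hl
      rw [coeff_C_mul, coeff_X_pow, if_neg, mul_zero]
      intro h3
      rw [Finsupp.single_eq_single_iff] at h3
      rcases h3 with h3 | h3
      · exact hl h3.1
      · have := hm l
        omega
    · intro h3
      exact absurd (Finset.mem_univ _) h3
  · rw [hini]
    exact cint_FF ha hrN hm
  · rintro e ⟨j₀, rfl⟩ - heq hz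
    refine ⟨y, ⟨?_, ?_⟩⟩
    · by_contra h
      push Not at h
      have h1 : (TT a y ∅).Nonempty := ⟨0, fun j => by rw [h j rfl]; simp, fun i _ => rfl⟩
      have h2 := (hy ∅).1 h1
      rw [Finset.card_empty] at h2
      omega
    · have h1 : ∀ l ∈ Finset.Icc 1 (ee m), Complex.exp (-(2 * Real.pi * Complex.I * s₀ * l)) *
          (χ (cls (fibre (ww m) (fun _ => ee m) (ini (ww m) (fun _ => ee m) f) (ee m) y l)) : ℂ) =
          Complex.exp (-(2 * Real.pi * Complex.I * s₀ * l)) * ((lef m r l : ℤ) : ℂ) := by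
        intro l _
        have h2 : fibre (ww m) (fun _ => ee m) (ini (ww m) (fun _ => ee m) f) (ee m) y l = XX a m y l := by
          rw [hini]
          ext x
          have h3 : ∀ i, ee m ∣ l * ww m i ↔ m i ∣ l := by
            intro i
            rw [← m_mul_ww m i]
            exact Nat.mul_dvd_mul_iff_right (ww_pos hm i)
          simp only [fibre, XX, Set.mem_ofPred_eq, lt_irrefl, false_imp_iff, implies_true, true_and,
            eval_FF, h3, true_imp_iff]
        rw [h2, chi_XX hχ hm hy]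
      rw [Finset.sum_congr rfl h1]
      refine lef_sum_ne hm hr hrN he0 (dvd_ee m) ?_ hz
      rw [heq]
      unfold qn nn
      have h2 : (Finset.univ.filter fun _j : Fin r => ee m < ee m) = ∅ :=
        Finset.filter_false_of_mem fun _ _ => lt_irrefl _
      simp only [h2, Finset.sum_empty, Finset.card_empty]
      push_cast
      rw [sub_zero, mul_zero, add_zero, neg_div, Finset.sum_div]
      congr 1
      refine Finset.sum_congr rfl fun i _ => ?_
      have h3 : ((m i : ℕ) : ℚ) ≠ 0 := by
        have := hm i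
        exact_mod_cast (by omega : m i ≠ 0)
      have h4 : ((m i : ℕ) : ℚ) * (ww m i : ℚ) = ee m := by exact_mod_cast m_mul_ww m i
      rw [div_eq_div_iff hee.ne' h3, one_mul, ← h4]
      ring

end BH
end MotMono
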