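import Pool.Agent.Lib.MP_4e5fcd_ag.SW.Defs
import Pool.Agent.Lib.MP_4e5fcd_ag.WH.B1

/-!
# SW-Base: definitions for the proof
-/

open MvPolynomial

namespace MotMono
namespace WH

variable {N r : ℕ}

/-- the assumptions on weights, degrees, initial forms -/
structure SWt (w : Fin N → ℕ) (d : Fin r → ℕ) (f : Fin r → MvPolynomial (Fin N) ℂ) : Prop where
  w_pos : ∀ i, 0 < w i
  d_pos : ∀ j, 0 < d j
  ord : ∀ j m, coeff m (f j) ≠ 0 → d j ≤ ∑ i, m i * w i
  ini_ne : ∀ j, ini w d f j ≠ 0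

/-- the smoothness assumption -/
def Smo (w : Fin N → ℕ) (d : Fin r → ℕ) (f : Fin r → MvPolynomial (Fin N) ℂ) : Prop :=
  ∀ c, c ≠ 0 → ∀ e, (∀ j, d j ≤ e → eval c (ini w d f j) = 0) → SmoothS (trnS w d f e) c

/-- near `(0, c)` every `dfm w (d j) (f j)` with `d j < E` is in the ideal generated by the
`dfm w (d b) (f b)`, `b ∈ B`, `d b ≤ d j` -/
def GenS (w : Fin N → ℕ) (d : Fin r → ℕ) (f : Fin r → MvPolynomial (Fin N) ℂ) (c : Fin N → ℂ)
    (E : ℕ) (B : Finset (Fin r)) : Prop :=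
  ∀ j, d j < E → ∃ h, eval (Fin.cons 0 c : Fin (N + 1) → ℂ) h ≠ 0 ∧ h * dfm w (d j) (f j) ∈
    Ideal.span {g | ∃ b ∈ B, d b ≤ d j ∧ g = dfm w (d b) (f b)}

/-- substitution of `s = τ ^ h`, `x i = v i` -/
noncomputable def sub (h : ℕ) (v : Fin N → Polynomial ℂ) :
    MvPolynomial (Fin (N + 1)) ℂ →ₐ[ℂ] Polynomial ℂ :=
  aeval (Fin.cons (Polynomial.X ^ h) v : Fin (N + 1) → Polynomial ℂ)

/-- the jets of weighted order `h / M` with leading coefficients in `S` along which the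
coefficients of order `l < K` of `f b`, `b ∈ B`, are `η b l` -/
def SecS (w : Fin N → ℕ) (M : ℕ) (f : Fin r → MvPolynomial (Fin N) ℂ) (B : Finset (Fin r))
    (S : Set (Fin N → ℂ)) (h K n : ℕ) (η : Fin r → ℕ → ℂ) : Set (Fin N × Fin (n + 1) → ℂ) :=
  {γ | Low w M h γ ∧ lead w M h γ ∈ S ∧ ∀ b ∈ B, ∀ l < K, (along (f b) γ).coeff l = η b l}

/-- the corresponding `τ`-jets -/
def TSS (w : Fin N → ℕ) (d : Fin r → ℕ) (M : ℕ) (f : Fin r → MvPolynomial (Fin N) ℂ)
    (B : Finset (Fin r)) (S : Set (Fin N → ℂ)) (h K : ℕ) (η : Fin r → ℕ → ℂ) :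
    Set (Fin N × Fin (K * M + 1) → ℂ) :=
  {z | (fun i => z (i, 0)) ∈ S ∧ (∀ i (v : Fin (K * M + 1)), ¬ M ∣ (v : ℕ) + h * w i → z (i, v) = 0) ∧
    ∀ b ∈ B, ∀ v l, v + h * d b = l * M → l < K →
      (sub h (arc z) (dfm w (d b) (f b))).coeff v = η b l}

open Classical in
/-- the polynomial `s`, the polynomials `dfm w (d b) (f b)`, `b ∈ B`, at the places `φ b + 1`, and the
coordinates at the other places -/
noncomputable def uuS (w : Fin N → ℕ) (d : Fin r → ℕ) (f : Fin r → MvPolynomial (Fin N) ℂ)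
    (B : Finset (Fin r)) (φ : Fin r → Fin N) : Fin (N + 1) → MvPolynomial (Fin (N + 1)) ℂ :=
  Fin.cons (X 0) fun i => if h : ∃ b ∈ B, φ b = i then dfm w (d h.choose) (f h.choose) else X i.succ

/-- the action of `ℂ^*` -/
noncomputable def act (w : Fin N → ℕ) (s : ℂ) (c : Fin N → ℂ) : Fin N → ℂ := fun i => s ^ w i * c i

/-- contact jets of level `n` -/
def CAn (d : Fin r → ℕ) (f : Fin r → MvPolynomial (Fin N) ℂ) (e : ℕ) (y : Fin r → ℂ) (m n : ℕ) :
    Set (Fin N × Fin (n + 1) → ℂ) :=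
  {γ | (∀ i, γ (i, 0) = 0) ∧ ∀ j, (∀ l < m, (along (f j) γ).coeff l = 0) ∧
    (along (f j) γ).coeff m = if d j = e then y j else 0}

/-- the gradient of `g` at `c` together with the number `t` -/
noncomputable def agrad (g : MvPolynomial (Fin N) ℂ) (t : ℂ) (c : Fin N → ℂ) :
    (Fin N → ℂ) × ℂ := (grad g c, t)

/-- the values `y` are compatible with the linear relations between the gradients at `c` of the
`f j` of degree at most `e` -/
def Cnd (d : Fin r → ℕ) (f : Fin r → MvPolynomial (Fin N) ℂ) (e : ℕ) (y : Fin r → ℂ)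
    (B : Finset (Fin r)) (c : Fin N → ℂ) : Prop :=
  ∀ j, d j = e → agrad (f j) (y j) c ∈
    Submodule.span ℂ {v | ∃ b ∈ B, d b ≤ e ∧ v = agrad (f b) (if d b = e then y b else 0) c}

end WH
end MotMono
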