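import Pool.Agent.Lib.MP_4e5fcd_ag.WH.FDefs

/-!
# Semi-weighted-homogeneous ideals: definitions of the statement

`f j` is a polynomial of weighted order `d j` for the weights `w`, `ini w d f j` is its initial form.
`dfm w (d j) (f j)` is the polynomial `f j (s ^ w x) / s ^ (d j)` in `s, x`: `s` is the variable
number `0`, and `x i` the variable number `i + 1`.
-/

open MvPolynomial

namespace MotMono
namespace WH

variable {N r : ℕ}

/-- the initial forms -/
noncomputable def ini (w : Fin N → ℕ) (d : Fin r → ℕ) (f : Fin r → MvPolynomial (Fin N) ℂ) :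
    Fin r → MvPolynomial (Fin N) ℂ :=
  fun j => weightedHomogeneousComponent w (d j) (f j)

/-- the polynomial `g (s ^ w x) / s ^ δ`, if all monomials of `g` have weight at least `δ` -/
noncomputable def dfm (w : Fin N → ℕ) (δ : ℕ) (g : MvPolynomial (Fin N) ℂ) :
    MvPolynomial (Fin (N + 1)) ℂ :=
  ∑ m ∈ g.support, C (coeff m g) * X 0 ^ (∑ i, m i * w i - δ) * ∏ i : Fin N, X i.succ ^ m i

/-- the gradient of `g` in the directions `x` at the point `(0, c)` -/
noncomputable def xgrad (g : MvPolynomial (Fin (N + 1)) ℂ) (c : Fin N → ℂ) : Fin N → ℂ :=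
  fun i => eval (Fin.cons 0 c : Fin (N + 1) → ℂ) (pderiv i.succ g)

/-- Near `(0, c)` the ideal `J` is generated by elements with linearly independent gradients in
the directions `x` (so `V(J)` is smooth over the `s`-line at `(0, c)`). -/
def SmoothS (J : Ideal (MvPolynomial (Fin (N + 1)) ℂ)) (c : Fin N → ℂ) : Prop :=
  ∃ (m : ℕ) (g : Fin m → MvPolynomial (Fin (N + 1)) ℂ) (h : MvPolynomial (Fin (N + 1)) ℂ),
    (∀ k, g k ∈ J) ∧ LinearIndependent ℂ (fun k => xgrad (g k) c) ∧
    eval (Fin.cons 0 c : Fin (N + 1) → ℂ) h ≠ 0 ∧ ∀ q ∈ J, h * q ∈ Ideal.span (Set.range g)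

/-- the ideal generated by the polynomials `f j (s ^ w x) / s ^ (d j)` with `d j ≤ e` -/
noncomputable def trnS (w : Fin N → ℕ) (d : Fin r → ℕ) (f : Fin r → MvPolynomial (Fin N) ℂ)
    (e : ℕ) : Ideal (MvPolynomial (Fin (N + 1)) ℂ) :=
  Ideal.span {g | ∃ j, d j ≤ e ∧ g = dfm w (d j) (f j)}

end WH
end MotMono
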