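import Pool.Agent.Lib.MP_4e5fcd_ag.SW.B4
import Pool.Agent.Lib.MP_4e5fcd_ag.SW.C3
import Pool.Agent.Lib.MP_4e5fcd_ag.WH.E1
import Pool.Agent.Lib.MP_4e5fcd_ag.WH.D3

/-!
# SW-E1: the motivic zeta function of `I` is that of the ideal of the initial forms

`mu_ini`: `K = 0`: both sets are the set of all jets at the origin. `K ≥ 1`: if `r = 0`, trivial;
`dm` = the least `d j`, `M = ∏ i, w i`, `n` as in WH-E1. Strata from `exists_strata` for `ini w d f`;
`cls_ASS` and `cls_AS` (`smooth_ini`, `wt_ini`; `dm ≤ d j`), term by term: in both cases the sector is the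
one of `{c ∈ St τ, c ≠ 0, c ∈ FixH w M h}` (`lead_mem`), `cls_SecS` (`η = 0`, `Sec = SecS … 0`) and
`cls_Sec` give the same class. `mu_eq`. `zmot_ini`: `zmot_coeff`.
-/

open MvPolynomial

namespace MotMono
namespace WH

variable {N r : ℕ}

private theorem e1s_term {w : Fin N → ℕ} {d : Fin r → ℕ} {f : Fin r → MvPolynomial (Fin N) ℂ}
    (hW : SWt w d f) {M K h n : ℕ} (hM : 0 < M) (hn : ∀ i, K * (w i + 1) ≤ n) (hh : h < K * M)
    (hh1 : 1 ≤ h) {E : ℕ} {B : Finset (Fin r)} {S : Set (Fin N → ℂ)} (hS : Constr S)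
    (hadm : ∀ c ∈ S, Adm d (ini w d f) c E B) :
    cls (Sec w M f B {c | c ∈ S ∧ c ≠ 0} h K n) =
      cls (Sec w M (ini w d f) B {c | c ∈ S ∧ c ≠ 0} h K n) := by
  classical
  have h0 : ∀ g : Fin r → MvPolynomial (Fin N) ℂ, Sec w M g B {c | c ∈ S ∧ c ≠ 0} h K n =
      Sec w M g B {c | (c ∈ S ∧ c ≠ 0) ∧ c ∈ FixH w M h} h K n := by
    intro g
    ext γ
    have := e1_lead_mem w M h γ
    simp only [Sec, Set.mem_ofPred_eq]
    tauto
  have hS' : Constr {c | (c ∈ S ∧ c ≠ 0) ∧ c ∈ FixH w M h} :=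
    (hS.inter e1_constr_ne).inter (e1_constr_FixH w M h)
  have hn' : ∀ i, h * w i + K * M ≤ n * M := by
    intro i
    calc h * w i + K * M ≤ K * M * w i + K * M :=
          Nat.add_le_add_right (Nat.mul_le_mul_right _ hh.le) _
      _ = K * (w i + 1) * M := by ring
      _ ≤ n * M := Nat.mul_le_mul_right _ (hn i)
  rw [h0 f, h0 (ini w d f), cls_Sec (wt_ini hW) hM hn' hS' (fun c hc => hc.2)
    (fun c hc b hb => (hadm c hc.1.1).van b ((hadm c hc.1.1).lt b hb))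
    (fun c hc => (hadm c hc.1.1).ind)]
  have h1 : Sec w M f B {c | (c ∈ S ∧ c ≠ 0) ∧ c ∈ FixH w M h} h K n =
      SecS w M f B {c | (c ∈ S ∧ c ≠ 0) ∧ c ∈ FixH w M h} h K n (fun _ _ => 0) := rfl
  rw [h1, cls_SecS hW hM hh1 hn' hS' (fun c hc => hc.2)
    (fun c hc b hb => (hadm c hc.1.1).van b ((hadm c hc.1.1).lt b hb))
    (fun c hc => (hadm c hc.1.1).ind) (fun _ _ => 0) (fun _ _ _ _ => rfl)]

theorem mu_ini {w : Fin N → ℕ} {d : Fin r → ℕ} {f : Fin r → MvPolynomial (Fin N) ℂ}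
    (hW : SWt w d f) (hS : Smo w d f) (K : ℕ) : mu f K = mu (ini w d f) K := by
  classical
  rcases Nat.eq_zero_or_pos K with rfl | hK
  · have h1 : AS f 0 0 = AS (ini w d f) 0 0 := by
      ext γ
      simp [AS]
    unfold mu
    rw [h1]
  rcases Nat.eq_zero_or_pos r with hr | hr
  · subst hr
    have h1 : f = ini w d f := by
      funext j
      exact j.elim0
    rw [← h1]
  obtain ⟨j₀, -, hj₀⟩ := Finset.exists_min_image (Finset.univ : Finset (Fin r)) d
    ⟨⟨0, hr⟩, Finset.mem_univ _⟩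
  have hdm0 : 0 < d j₀ := hW.d_pos j₀
  have hdm : ∀ j, d j₀ ≤ d j := fun j => hj₀ j (Finset.mem_univ j)
  have hM : 0 < ∏ i, w i := Finset.prod_pos fun i _ => hW.w_pos i
  have hwM : ∀ i, w i ∣ ∏ i, w i := fun i => Finset.dvd_prod_of_mem w (Finset.mem_univ i)
  have hn : ∀ i, K * (w i + 1) ≤ K * (∑ i, w i + 1) := by
    intro i
    refine Nat.mul_le_mul_left _ (Nat.add_le_add_right ?_ _)
    exact Finset.single_le_sum (f := w) (fun _ _ => Nat.zero_le _) (Finset.mem_univ i)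
  have hKn : K ≤ K * (∑ i, w i + 1) + 1 := by
    have : K * 1 ≤ K * (∑ i, w i + 1) := Nat.mul_le_mul_left _ (by omega)
    omega
  generalize hnn : K * (∑ i, w i + 1) = n at hn hKn
  generalize hMM : ∏ i, w i = M at hM hwM
  obtain ⟨St, hSt, hdis, hcov, hadm⟩ := exists_strata d (ini w d f)
  have hmain : cls (AS f n K) = cls (AS (ini w d f) n K) := by
    rw [cls_ASS hW hS hM hwM hK hn hdm0 hdm St hSt hdis hcov hadm,
      cls_AS (wt_ini hW) hM hwM hK hn hdm0 (fun j _ => hdm j)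
        (fun c hc e hz => smooth_ini hW hS c hc e hz) St hSt hdis hcov hadm]
    congr 1
    refine Finset.sum_congr rfl fun τ _ => ?_
    refine Finset.sum_congr rfl fun h hh => ?_
    have hh' := Finset.mem_filter.1 hh
    exact e1s_term hW hM hn (Finset.mem_range.1 hh'.1) hh'.2.1 (hSt τ) (hadm τ)
  rw [← mu_eq f n K hKn, ← mu_eq (ini w d f) n K hKn, hmain]

theorem zmot_ini {w : Fin N → ℕ} {d : Fin r → ℕ} {f : Fin r → MvPolynomial (Fin N) ℂ}
    (hW : SWt w d f) (hS : Smo w d f) :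
    Zmot (Ideal.span (Set.range f)) = Zmot (Ideal.span (Set.range (ini w d f))) := by
  ext k
  rw [zmot_coeff, zmot_coeff, mu_ini hW hS, mu_ini hW hS]

end WH
end MotMono
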