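import Pool.Agent.Lib.MP_4e5fcd_ag.CN.V3
import Pool.Agent.Lib.MP_4e5fcd_ag.WH.V4
import Pool.Agent.Lib.MP_4e5fcd_ag.SW.C3

/-!
# SW-V4: the value `1` if the initial forms have a common zero `c ≠ 0`

`Smo` with `e = dmax d`: `g : Fin m → …`, `h`, for `J = trnS w d f (dmax d)`, which contains all
`dfm w (d j) (f j)`. `m > 0`: otherwise `h * dfm … = 0`, so `dfm w (d j) (f j) = 0`, but its value on
`s = 0` is `ini w d f j ≠ 0`. The `g k` vanish at `(0, c)`. Let `u : Fin (N + 1) → …` be
`X 0`, the `g k` at places `φ k + 1` (`φ` from `exists_minor` applied to the polynomials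
`aeval (Fin.cons 0 X) (g k)` with gradients `xgrad (g k) c`), and `X i.succ - C (c i)` at the other
places: `jacDet u ≠ 0` at `(0, c)` (first row `(1, 0, …, 0)`, as in `jac_uuS`), `u (0, c) = 0`.
`CN.exists_near_preimage`: for small `s ≠ 0` there is `q = (s, x)` near `(0, c)` with `g k (q) = 0` for
all `k`; as `h`, `jacDet u` are continuous they do not vanish at `q` (for `‖q - (0, c)‖` small).
`p = act w s x`, `‖p‖ ≤ ‖s‖ * ‖x‖` small (`w i ≥ 1`, `‖s‖ ≤ 1`). `f j (p) = s ^ (d j) dfm (f j) (q) = 0`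
(`eval_dfm_of_ne`; `h * dfm (f j) ∈ span (g)`). `SmoothAt I p`: `G k = g k (s, s ^ (-w) x)`
(`aeval (Fin.cons (C s) (fun i => C (s ^ (-w i)) * X i))`); it maps `dfm w (d j) (f j)` to
`s ^ (-d j) f j`, so `G k ∈ I`, and `H * f j ∈ span (G)`, `H (p) = h (q) ≠ 0`; the gradient of `G k` at `p` is
`s ^ (-w i)` times the `x`-gradient of `g k` at `q`, and these are linearly independent because
`jacDet u (q) ≠ 0` (rows of the matrix: a linear relation between the `x`-parts of the rows
`φ k + 1` gives one between the rows `0` and `φ k + 1`). `good_of_smooth` at `p` (`I ≠ ⊥`), `.2`: `Near` at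
`p`; the triangle inequality gives `Near` at `0`.
-/

open MvPolynomial

namespace MotMono
namespace WH

variable {N r : ℕ}

/-- the chain rule for a substitution which is linear in each variable `x i` -/
private theorem v4s_pderiv (v : Fin (N + 1) → MvPolynomial (Fin N) ℂ) (i : Fin N)
    (a : MvPolynomial (Fin N) ℂ) (h : ∀ j, pderiv i (v j) = if j = i.succ then a else 0)
    (g : MvPolynomial (Fin (N + 1)) ℂ) :
    pderiv i (aeval v g) = a * aeval v (pderiv i.succ g) := by
  induction g using MvPolynomial.induction_on with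
  | C b =>
    rw [pderiv_C, map_zero, mul_zero, aeval_C, algebraMap_eq, pderiv_C]
  | add p q hp hq =>
    rw [map_add, map_add, hp, hq, map_add, map_add, mul_add]
  | mul_X p j hp =>
    rw [map_mul, aeval_X, pderiv_mul, hp, h, pderiv_mul, map_add, map_mul, map_mul, aeval_X]
    by_cases hj : j = i.succ
    · subst hj
      rw [if_pos rfl, pderiv_X_self, map_one]
      ring
    · rw [if_neg hj, pderiv_X_of_ne hj, map_zero]
      ring

/-- if the first polynomial is the first variable, the Jacobian determinant is a minor -/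
private theorem v4s_jac (u : Fin (N + 1) → MvPolynomial (Fin (N + 1)) ℂ) (h0 : u 0 = X 0)
    (q : Fin (N + 1) → ℂ) :
    eval q (jacDet u) = Matrix.det (Matrix.of fun i j : Fin N =>
      eval q (pderiv j.succ (u i.succ))) := by
  have h1 : eval q (jacDet u) = (Matrix.of fun i j => eval q (pderiv j (u i))).det := by
    unfold jacDet
    rw [RingHom.map_det]
    rfl
  rw [h1, Matrix.det_succ_row_zero, Finset.sum_eq_single 0]
  · have h2 : (Matrix.of fun i j => eval q (pderiv j (u i))) 0 0 = 1 := by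
      show eval q (pderiv 0 (u 0)) = 1
      rw [h0, pderiv_X_self, map_one]
    rw [h2, Fin.val_zero, pow_zero, one_mul, one_mul]
    rfl
  · intro j _ hj
    have h2 : (Matrix.of fun i j => eval q (pderiv j (u i))) 0 j = 0 := by
      show eval q (pderiv j (u 0)) = 0
      rw [h0, pderiv_X_of_ne (Ne.symm hj), map_zero]
    rw [h2, mul_zero, zero_mul]
  · intro h
    exact absurd (Finset.mem_univ _) h

open Classical in
/-- the coordinates: `s`, the `g k`, and the `x i - c i` -/
private noncomputable def v4sU {m : ℕ} (g : Fin m → MvPolynomial (Fin (N + 1)) ℂ)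
    (φ : Fin m → Fin N) (c : Fin N → ℂ) : Fin (N + 1) → MvPolynomial (Fin (N + 1)) ℂ :=
  Fin.cons (X 0) fun i => if h : ∃ k, φ k = i then g h.choose else X i.succ - C (c i)

private theorem v4sU_phi {m : ℕ} (g : Fin m → MvPolynomial (Fin (N + 1)) ℂ)
    {φ : Fin m → Fin N} (hφ : Function.Injective φ) (c : Fin N → ℂ) (k : Fin m) :
    v4sU g φ c (φ k).succ = g k := by
  unfold v4sU
  rw [Fin.cons_succ]
  have h : ∃ k', φ k' = φ k := ⟨k, rfl⟩
  rw [dif_pos h]
  exact congrArg g (hφ h.choose_spec)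

private theorem v4s_minor (hN : 0 < N) {m : ℕ} (g : Fin m → MvPolynomial (Fin (N + 1)) ℂ)
    (c : Fin N → ℂ) (hli : LinearIndependent ℂ (fun k => xgrad (g k) c)) :
    ∃ φ : Fin m → Fin N, Function.Injective φ ∧
      eval (Fin.cons 0 c : Fin (N + 1) → ℂ) (jacDet (v4sU g φ c)) ≠ 0 := by
  classical
  set v : Fin (N + 1) → MvPolynomial (Fin N) ℂ := Fin.cons 0 X with hv
  set gg : Fin m → MvPolynomial (Fin N) ℂ := fun k => aeval v (g k) with hgg
  have hvd : ∀ i j, pderiv i (v j) = if j = i.succ then 1 else 0 := by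
    intro i j
    refine Fin.cases ?_ (fun l => ?_) j
    · rw [hv, Fin.cons_zero, map_zero, if_neg (Fin.succ_ne_zero i).symm]
    · rw [hv, Fin.cons_succ]
      by_cases hl : l = i
      · subst hl
        rw [pderiv_X_self, if_pos rfl]
      · rw [pderiv_X_of_ne hl, if_neg fun h => hl (Fin.succ_injective _ h)]
  have hev : ∀ q : MvPolynomial (Fin (N + 1)) ℂ,
      eval c (aeval v q) = eval (Fin.cons 0 c : Fin (N + 1) → ℂ) q := by
    intro q
    have h1 : (eval c).comp (aeval v : _ →ₐ[ℂ] MvPolynomial (Fin N) ℂ).toRingHom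
        = eval (Fin.cons 0 c : Fin (N + 1) → ℂ) := by
      refine MvPolynomial.ringHom_ext (fun a => ?_) fun j => ?_
      · simp
      · refine Fin.cases ?_ (fun l => ?_) j
        · simp [hv]
        · simp [hv]
    exact congrArg (fun F : MvPolynomial (Fin (N + 1)) ℂ →+* ℂ => F q) h1
  have hgr : ∀ k, grad (gg k) c = xgrad (g k) c := by
    intro k
    funext i
    show eval c (pderiv i (aeval v (g k))) = _
    rw [v4s_pderiv v i 1 (hvd i), one_mul, hev]
    rfl
  have hli' : LinearIndependent ℂ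
      (fun b : (Finset.univ : Finset (Fin m)) => grad (gg b) c) := by
    have h1 := hli.comp (fun b : (Finset.univ : Finset (Fin m)) => (b : Fin m))
      Subtype.val_injective
    have e1 : (fun b : (Finset.univ : Finset (Fin m)) => grad (gg b) c) =
        (fun k => xgrad (g k) c) ∘ fun b : (Finset.univ : Finset (Fin m)) => (b : Fin m) :=
      funext fun b => hgr b
    rw [e1]
    exact h1
  obtain ⟨φ, hφ, hdet⟩ := exists_minor hN hli'
  have hφ' : Function.Injective φ := by
    intro a b hab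
    exact hφ (Finset.mem_coe.2 (Finset.mem_univ a)) (Finset.mem_coe.2 (Finset.mem_univ b)) hab
  refine ⟨φ, hφ', ?_⟩
  rw [v4s_jac (v4sU g φ c) rfl]
  have h1 : eval c (jacDet (uu gg Finset.univ φ)) = (Matrix.of fun i j : Fin N =>
      eval (Fin.cons 0 c : Fin (N + 1) → ℂ) (pderiv j.succ (v4sU g φ c i.succ))).det := by
    unfold jacDet
    rw [RingHom.map_det]
    congr 1
    ext i j
    show eval c (pderiv j (uu gg Finset.univ φ i)) = eval _ (pderiv j.succ (v4sU g φ c i.succ))
    by_cases hi : ∃ k, φ k = i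
    · obtain ⟨k, rfl⟩ := hi
      rw [v4sU_phi g hφ']
      have h2 : uu gg Finset.univ φ (φ k) = gg k := by
        unfold uu
        have h : ∃ b ∈ (Finset.univ : Finset (Fin m)), φ b = φ k := ⟨k, Finset.mem_univ k, rfl⟩
        rw [dif_pos h]
        exact congrArg gg (hφ' h.choose_spec.2)
      rw [h2]
      exact congrFun (hgr k) j
    · have h2 : uu gg Finset.univ φ i = X i := by
        unfold uu
        rw [dif_neg]
        rintro ⟨b, _, hb⟩
        exact hi ⟨b, hb⟩
      have h3 : v4sU g φ c i.succ = X i.succ - C (c i) := by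
        unfold v4sU
        rw [Fin.cons_succ, dif_neg hi]
      rw [h2, h3, map_sub, pderiv_C, sub_zero]
      by_cases hij : i = j
      · subst hij
        rw [pderiv_X_self, pderiv_X_self, map_one, map_one]
      · rw [pderiv_X_of_ne hij, pderiv_X_of_ne fun h => hij (Fin.succ_injective _ h), map_zero,
          map_zero]
  rw [← h1]
  exact hdet

private theorem v4s_smooth {w : Fin N → ℕ} {d : Fin r → ℕ}
    {f : Fin r → MvPolynomial (Fin N) ℂ} (hW : SWt w d f) {m : ℕ}
    {g : Fin m → MvPolynomial (Fin (N + 1)) ℂ} {h : MvPolynomial (Fin (N + 1)) ℂ}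
    (hgJ : ∀ k, g k ∈ trnS w d f (dmax d))
    (hsp : ∀ q ∈ trnS w d f (dmax d), h * q ∈ Ideal.span (Set.range g)) {s : ℂ} (hs : s ≠ 0)
    {x : Fin N → ℂ} (hh : eval (Fin.cons s x : Fin (N + 1) → ℂ) h ≠ 0)
    (hli : LinearIndependent ℂ fun k => fun i : Fin N =>
      eval (Fin.cons s x : Fin (N + 1) → ℂ) (pderiv i.succ (g k))) :
    SmoothAt (Ideal.span (Set.range f)) (act w s x) := by
  classical
  have hsw : ∀ i, s ^ w i ≠ 0 := fun i => pow_ne_zero _ hs
  set v : Fin (N + 1) → MvPolynomial (Fin N) ℂ :=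
    Fin.cons (C s) (fun i => C (s ^ w i)⁻¹ * X i) with hv
  have hvd : ∀ i j, pderiv i (v j) = if j = i.succ then C (s ^ w i)⁻¹ else 0 := by
    intro i j
    refine Fin.cases ?_ (fun l => ?_) j
    · rw [hv, Fin.cons_zero, pderiv_C, if_neg (Fin.succ_ne_zero i).symm]
    · rw [hv, Fin.cons_succ, pderiv_mul, pderiv_C, zero_mul, zero_add]
      by_cases hl : l = i
      · subst hl
        rw [pderiv_X_self, if_pos rfl, mul_one]
      · rw [pderiv_X_of_ne hl, if_neg fun h => hl (Fin.succ_injective _ h), mul_zero]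
  have hev : ∀ (z : Fin N → ℂ) (q : MvPolynomial (Fin (N + 1)) ℂ), eval z (aeval v q) =
      eval (Fin.cons s (fun i => (s ^ w i)⁻¹ * z i) : Fin (N + 1) → ℂ) q := by
    intro z q
    have h1 : (eval z).comp (aeval v : _ →ₐ[ℂ] MvPolynomial (Fin N) ℂ).toRingHom
        = eval (Fin.cons s (fun i => (s ^ w i)⁻¹ * z i) : Fin (N + 1) → ℂ) := by
      refine MvPolynomial.ringHom_ext (fun a => ?_) fun j => ?_
      · simp
      · refine Fin.cases ?_ (fun l => ?_) j
        · simp [hv]
        · simp [hv]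
    exact congrArg (fun F : MvPolynomial (Fin (N + 1)) ℂ →+* ℂ => F q) h1
  have hact : (fun i => (s ^ w i)⁻¹ * act w s x i) = x := by
    funext i
    show (s ^ w i)⁻¹ * (s ^ w i * x i) = x i
    rw [inv_mul_cancel_left₀ (hsw i)]
  have hdfm : ∀ j, C (s ^ d j) * aeval v (dfm w (d j) (f j)) = f j := by
    intro j
    refine MvPolynomial.funext fun z => ?_
    rw [map_mul, eval_C, hev, eval_dfm_of_ne w (d j) (f j) (hW.ord j)]
    congr 1
    congr 1
    funext i
    show s ^ w i * ((s ^ w i)⁻¹ * z i) = z i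
    rw [mul_inv_cancel_left₀ (hsw i)]
  have hdfm' : ∀ j, aeval v (dfm w (d j) (f j)) ∈ Ideal.span (Set.range f) := by
    intro j
    have h1 : aeval v (dfm w (d j) (f j)) = C (s ^ d j)⁻¹ * f j := by
      conv_rhs => rw [← hdfm j]
      rw [← mul_assoc, ← C_mul, inv_mul_cancel₀ (pow_ne_zero _ hs), C_1, one_mul]
    rw [h1]
    exact Ideal.mul_mem_left _ _ (Ideal.subset_span ⟨j, rfl⟩)
  have hJ : ∀ q ∈ trnS w d f (dmax d), aeval v q ∈ Ideal.span (Set.range f) := by
    have h1 : trnS w d f (dmax d) ≤ (Ideal.span (Set.range f)).comap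
        (aeval v : _ →ₐ[ℂ] MvPolynomial (Fin N) ℂ).toRingHom := by
      unfold trnS
      rw [Ideal.span_le]
      rintro _ ⟨j, _, rfl⟩
      exact hdfm' j
    exact fun q hq => h1 hq
  have hspan : ∀ q ∈ Ideal.span (Set.range g), aeval v q ∈
      Ideal.span (Set.range fun k => aeval v (g k)) := by
    have h1 : Ideal.span (Set.range g) ≤ (Ideal.span (Set.range fun k => aeval v (g k))).comap
        (aeval v : _ →ₐ[ℂ] MvPolynomial (Fin N) ℂ).toRingHom := by
      rw [Ideal.span_le]
      rintro _ ⟨k, rfl⟩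
      exact Ideal.subset_span ⟨k, rfl⟩
    exact fun q hq => h1 hq
  refine ⟨m, fun k => aeval v (g k), aeval v h, fun k => hJ _ (hgJ k), ?_, ?_, ?_⟩
  · set T : (Fin N → ℂ) →ₗ[ℂ] (Fin N → ℂ) :=
      LinearMap.pi fun i => (s ^ w i)⁻¹ • LinearMap.proj i with hT
    have hTinj : Function.Injective T := by
      intro a b hab
      funext i
      have h1 : (s ^ w i)⁻¹ * a i = (s ^ w i)⁻¹ * b i := congrFun hab i
      exact mul_left_cancel₀ (inv_ne_zero (hsw i)) h1
    have h1 := (T.linearIndependent_iff_of_injOn (v := fun k => fun i : Fin N =>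
      eval (Fin.cons s x : Fin (N + 1) → ℂ) (pderiv i.succ (g k)))
      (fun a _ b _ h => hTinj h)).2 hli
    have e1 : (fun k => grad (aeval v (g k)) (act w s x)) = T ∘ fun k => fun i : Fin N =>
        eval (Fin.cons s x : Fin (N + 1) → ℂ) (pderiv i.succ (g k)) := by
      funext k i
      show eval (act w s x) (pderiv i (aeval v (g k))) =
        (s ^ w i)⁻¹ * eval (Fin.cons s x : Fin (N + 1) → ℂ) (pderiv i.succ (g k))
      rw [v4s_pderiv v i _ (hvd i), map_mul, eval_C, hev, hact]
    rw [e1]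
    exact h1
  · rw [hev, hact]
    exact hh
  · intro q hq
    refine Submodule.span_induction (p := fun q _ => aeval v h * q ∈
      Ideal.span (Set.range fun k => aeval v (g k))) ?_ ?_ ?_ ?_ hq
    · rintro _ ⟨j, rfl⟩
      have h1 : aeval v h * f j = C (s ^ d j) * aeval v (h * dfm w (d j) (f j)) := by
        conv_lhs => rw [← hdfm j]
        rw [map_mul]
        ring
      rw [h1]
      refine Ideal.mul_mem_left _ _ (hspan _ (hsp _ (Ideal.subset_span ⟨j, ?_, rfl⟩)))
      exact Finset.single_le_sum (f := d) (fun i _ => Nat.zero_le _) (Finset.mem_univ j)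
    · rw [mul_zero]
      exact Ideal.zero_mem _
    · intro a b _ _ ha hb
      rw [mul_add]
      exact Ideal.add_mem _ ha hb
    · intro a b _ hb
      rw [smul_eq_mul, mul_left_comm]
      exact Ideal.mul_mem_left _ _ hb

theorem near_one_of_zeroS {χ : K0 →+* ℤ} (hχ : IsEulerCharF χ) {w : Fin N → ℕ} {d : Fin r → ℕ}
    {f : Fin r → MvPolynomial (Fin N) ℂ} (hW : SWt w d f) (hS : Smo w d f) (hr : 0 < r)
    {c : Fin N → ℂ} (hc : c ≠ 0) (hv : ∀ j, eval c (ini w d f j) = 0) :
    CN.Near χ (Ideal.span (Set.range f)) 0 1 := by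
  classical
  have hN : 0 < N := by
    rcases Nat.eq_zero_or_pos N with hN | hN
    · subst hN
      exact absurd (Subsingleton.elim c 0) hc
    · exact hN
  obtain ⟨m, g, h, hgJ, hli, hh, hsp⟩ := hS c hc (dmax d) fun j _ => hv j
  obtain ⟨φ, hφ, hdet⟩ := v4s_minor hN g c hli
  set o : Fin (N + 1) → ℂ := Fin.cons 0 c with ho
  set u := v4sU g φ c with hu
  have hJ0 : ∀ q ∈ trnS w d f (dmax d), eval o q = 0 := by
    have h1 : trnS w d f (dmax d) ≤ RingHom.ker (eval o) := by
      unfold trnS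
      rw [Ideal.span_le]
      rintro _ ⟨j, _, rfl⟩
      show eval o _ = 0
      rw [ho, eval_dfm w (d j) (f j) (hW.ord j)]
      exact hv j
    exact fun q hq => h1 hq
  have hu0 : (fun i => eval o (u i)) = 0 := by
    funext i
    refine Fin.cases ?_ (fun l => ?_) i
    · show eval o (X 0) = 0
      rw [eval_X, ho, Fin.cons_zero]
    · by_cases hl : ∃ k, φ k = l
      · obtain ⟨k, rfl⟩ := hl
        rw [hu, v4sU_phi g hφ]
        exact hJ0 _ (hgJ k)
      · have h3 : u l.succ = X l.succ - C (c l) := by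
          rw [hu]
          unfold v4sU
          rw [Fin.cons_succ, dif_neg hl]
        rw [h3, map_sub, eval_X, eval_C, ho, Fin.cons_succ, sub_self]
        rfl
  -- a neighbourhood where `h` and the Jacobian determinant do not vanish
  have hcont : ∀ q : MvPolynomial (Fin (N + 1)) ℂ, Continuous fun z : Fin (N + 1) → ℂ =>
      eval z q := fun q => MvPolynomial.continuous_eval q
  have hnhds : ∀ᶠ z in nhds o, eval z h ≠ 0 ∧ eval z (jacDet u) ≠ 0 :=
    ((hcont h).continuousAt.eventually_ne hh).and ((hcont (jacDet u)).continuousAt.eventually_ne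
      hdet)
  obtain ⟨ε₁, hε₁, hball⟩ := Metric.eventually_nhds_iff.1 hnhds
  intro ε hε
  obtain ⟨δ, hδ, hpre⟩ := CN.exists_near_preimage u o hdet (min ε₁ 1)
    (lt_min hε₁ one_pos)
  rw [hu0] at hpre
  -- the choice of `s`
  have hcn : 0 ≤ ‖c‖ := norm_nonneg c
  set η : ℝ := min (min δ 1) (ε / (2 * (‖c‖ + 1))) / 2 with hη
  have hη0 : 0 < min (min δ 1) (ε / (2 * (‖c‖ + 1))) := by positivity
  have hη1 : 0 < η := by positivity
  have hηδ : η < δ := by
    have h1 : min (min δ 1) (ε / (2 * (‖c‖ + 1))) ≤ δ := (min_le_left _ _).trans (min_le_left _ _)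
    rw [hη]
    linarith
  have hη1' : η ≤ 1 := by
    have h1 : min (min δ 1) (ε / (2 * (‖c‖ + 1))) ≤ 1 :=
      (min_le_left _ _).trans (min_le_right _ _)
    rw [hη]
    linarith
  have hηε : η * (‖c‖ + 1) < ε / 2 := by
    have h1 : min (min δ 1) (ε / (2 * (‖c‖ + 1))) ≤ ε / (2 * (‖c‖ + 1)) := min_le_right _ _
    have h2 : η < ε / (2 * (‖c‖ + 1)) := by
      rw [hη]
      linarith
    have h3 : η * (‖c‖ + 1) < ε / (2 * (‖c‖ + 1)) * (‖c‖ + 1) :=
      mul_lt_mul_of_pos_right h2 (by positivity)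
    have h4 : ε / (2 * (‖c‖ + 1)) * (‖c‖ + 1) = ε / 2 := by
      field_simp
    rwa [h4] at h3
  set s : ℂ := (η : ℂ) with hsdef
  have hs0 : s ≠ 0 := by
    rw [hsdef]
    exact_mod_cast hη1.ne'
  have hsn : ‖s‖ = η := by
    rw [hsdef, Complex.norm_real, Real.norm_of_nonneg hη1.le]
  set q0 : Fin (N + 1) → ℂ := Fin.cons s 0 with hq0
  have hq0n : ‖q0 - 0‖ < δ := by
    rw [sub_zero, pi_norm_lt_iff hδ]
    intro i
    refine Fin.cases ?_ (fun l => ?_) i
    · rw [hq0, Fin.cons_zero, hsn]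
      exact hηδ
    · rw [hq0, Fin.cons_succ, Pi.zero_apply, norm_zero]
      exact hδ
  obtain ⟨q, hqn, hqu⟩ := hpre q0 hq0n
  have hqs : q 0 = s := by
    have h1 := hqu 0
    have h2 : u 0 = X 0 := rfl
    rw [h2, eval_X, hq0, Fin.cons_zero] at h1
    exact h1
  have hqg : ∀ k, eval q (g k) = 0 := by
    intro k
    have h1 := hqu (φ k).succ
    rw [hu, v4sU_phi g hφ, hq0, Fin.cons_succ] at h1
    exact h1
  obtain ⟨hqh, hqdet⟩ := hball (show dist q o < ε₁ by
    rw [dist_eq_norm]
    exact hqn.trans_le (min_le_left _ _))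
  set x : Fin N → ℂ := fun i => q i.succ with hx
  have hqx : (Fin.cons s x : Fin (N + 1) → ℂ) = q := by
    funext i
    refine Fin.cases ?_ (fun l => ?_) i
    · rw [Fin.cons_zero, hqs]
    · rw [Fin.cons_succ]
  have hxn : ∀ i, ‖x i‖ ≤ ‖c‖ + 1 := by
    intro i
    have h1 : ‖(q - o) i.succ‖ ≤ ‖q - o‖ := norm_le_pi_norm _ _
    have h2 : ‖q - o‖ < 1 := hqn.trans_le (min_le_right _ _)
    have h3 : (q - o) i.succ = x i - c i := by
      rw [Pi.sub_apply, ho, Fin.cons_succ]
    have h4 : ‖c i‖ ≤ ‖c‖ := norm_le_pi_norm _ _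
    have h5 : ‖x i‖ ≤ ‖x i - c i‖ + ‖c i‖ := by
      have := norm_add_le (x i - c i) (c i)
      rwa [sub_add_cancel] at this
    rw [h3] at h1
    linarith
  have hpn : ‖act w s x‖ < ε / 2 := by
    rw [pi_norm_lt_iff (by positivity)]
    intro i
    show ‖s ^ w i * x i‖ < ε / 2
    rw [norm_mul, norm_pow, hsn]
    have h1 : η ^ w i ≤ η := pow_le_of_le_one hη1.le hη1' (hW.w_pos i).ne'
    calc η ^ w i * ‖x i‖ ≤ η * (‖c‖ + 1) :=
          mul_le_mul h1 (hxn i) (norm_nonneg _) hη1.le
      _ < ε / 2 := hηε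
  have hxli : LinearIndependent ℂ fun k => fun i : Fin N =>
      eval (Fin.cons s x : Fin (N + 1) → ℂ) (pderiv i.succ (g k)) := by
    rw [hqx]
    rw [v4s_jac u rfl] at hqdet
    have h1 : LinearIndependent ℂ (Matrix.of fun i j : Fin N =>
        eval q (pderiv j.succ (u i.succ))).row :=
      Matrix.linearIndependent_rows_iff_isUnit.2
        ((Matrix.isUnit_iff_isUnit_det _).2 (isUnit_iff_ne_zero.2 hqdet))
    have h2 := h1.comp φ hφ
    have e1 : (fun k => fun i : Fin N => eval q (pderiv i.succ (g k))) =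
        (Matrix.of fun i j : Fin N => eval q (pderiv j.succ (u i.succ))).row ∘ φ := by
      funext k i
      show _ = eval q (pderiv i.succ (u (φ k).succ))
      rw [hu, v4sU_phi g hφ]
    rw [e1]
    exact h2
  have hsm : SmoothAt (Ideal.span (Set.range f)) (act w s x) :=
    v4s_smooth hW hgJ hsp hs0 (by rw [hqx]; exact hqh) hxli
  have hI : Ideal.span (Set.range f) ≠ ⊥ := by
    intro hbot
    have h1 : f ⟨0, hr⟩ ∈ Ideal.span (Set.range f) := Ideal.subset_span ⟨_, rfl⟩
    rw [hbot, Ideal.mem_bot] at h1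
    apply hW.ini_ne ⟨0, hr⟩
    unfold ini
    rw [h1, map_zero]
  have hfp : ∀ j, eval (act w s x) (f j) = 0 := by
    intro j
    rw [← eval_dfm_of_ne w (d j) (f j) (hW.ord j) s x, hqx]
    have h1 : h * dfm w (d j) (f j) ∈ Ideal.span (Set.range g) :=
      hsp _ (Ideal.subset_span ⟨j, Finset.single_le_sum (f := d) (fun i _ => Nat.zero_le _)
        (Finset.mem_univ j), rfl⟩)
    have h2 : Ideal.span (Set.range g) ≤ RingHom.ker (eval q) := by
      rw [Ideal.span_le]
      rintro _ ⟨k, rfl⟩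
      exact hqg k
    have h3 : eval q (h * dfm w (d j) (f j)) = 0 := h2 h1
    rw [map_mul] at h3
    rw [(mul_eq_zero.1 h3).resolve_left hqh, mul_zero]
  have hvI : ∀ g ∈ Ideal.span (Set.range f), eval (act w s x) g = 0 := by
    have h1 : Ideal.span (Set.range f) ≤ RingHom.ker (eval (act w s x)) := by
      rw [Ideal.span_le]
      rintro _ ⟨j, rfl⟩
      exact hfp j
    exact fun g hg => h1 hg
  obtain ⟨p', hp', hvis⟩ := (good_of_smooth hχ hI hvI hsm).2 (ε / 2) (by positivity)
  refine ⟨p', ?_, hvis⟩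
  rw [sub_zero]
  have h1 : ‖p'‖ ≤ ‖p' - act w s x‖ + ‖act w s x‖ := by
    have := norm_add_le (p' - act w s x) (act w s x)
    rwa [sub_add_cancel] at this
  linarith

end WH
end MotMono
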