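import Pool.Agent.Lib.MP_4e5fcd_ag.WH.M1
import Pool.Agent.Lib.MP_4e5fcd_ag.SW.E1
import Pool.Agent.Lib.MP_4e5fcd_ag.SW.V2
import Pool.Agent.Lib.MP_4e5fcd_ag.SW.V4

/-!
# SW-M1: the theorem
-/

open MvPolynomial

namespace MotMono
namespace WH

variable {N r : ℕ}

private theorem sm1_pos {w : Fin N → ℕ} {d : Fin r → ℕ} {f : Fin r → MvPolynomial (Fin N) ℂ}
    (hW : Wt w d f) (hne : ∃ j, f j ≠ 0) : 0 < N := by
  rcases Nat.eq_zero_or_pos N with h | h
  · exfalso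
    subst h
    obtain ⟨j, hj⟩ := hne
    obtain ⟨m, hm⟩ := MvPolynomial.ne_zero_iff.1 hj
    have h1 := hW.hom j hm
    have h2 : m = 0 := Subsingleton.elim _ _
    rw [h2, map_zero] at h1
    exact (hW.d_pos j).ne h1
  · exact h

private theorem sm1_exp (e : ℕ) (p : ℤ) (he : 0 < e) (h : (e : ℤ) ∣ p) :
    Complex.exp (-(2 * Real.pi * Complex.I * p / e)) = 1 := by
  obtain ⟨m, rfl⟩ := h
  have he' : (e : ℂ) ≠ 0 := by exact_mod_cast he.ne'
  have e1 : -(2 * Real.pi * Complex.I * (((e : ℤ) * m : ℤ) : ℂ) / (e : ℂ)) =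
      ((-m : ℤ) : ℂ) * (2 * Real.pi * Complex.I) := by
    push_cast
    field_simp
  rw [e1, Complex.exp_int_mul_two_pi_mul_I]

private theorem sm1_jump_pos {d : Fin r → ℕ} {f : Fin r → MvPolynomial (Fin N) ℂ}
    (hd : ∀ j, 0 < d j) {c : Fin N → ℂ} {e : ℕ} (h : Jump d f c e) : 0 < e := by
  rcases Nat.eq_zero_or_pos e with h0 | h0
  · exfalso
    subst h0
    rcases h.2 with ⟨j, hj, _⟩ | h2
    · exact (hd j).ne' hj
    · exact lt_irrefl _ h2
  · exact h0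

private theorem sm1_expo (e : ℕ) (p : ℤ) (k : ℕ) (he : 0 < e) :
    CN.expo (-((p + e * (k : ℤ) : ℤ) : ℚ) / e) =
      Complex.exp (-(2 * Real.pi * Complex.I * p / e)) := by
  have he' : (e : ℂ) ≠ 0 := by exact_mod_cast he.ne'
  have e1 : 2 * Real.pi * Complex.I * (((-((p + e * (k : ℤ) : ℤ) : ℚ) / e : ℚ)) : ℂ) =
      -(2 * Real.pi * Complex.I * p / e) + ((-(k : ℤ) : ℤ) : ℂ) * (2 * Real.pi * Complex.I) := by
    push_cast
    field_simp
    ring
  rw [CN.expo, e1, Complex.exp_add, Complex.exp_int_mul_two_pi_mul_I, mul_one]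

theorem swh_main {χ : K0 →+* ℤ} (hχ : IsEulerCharF χ) (w : Fin N → ℕ) (d : Fin r → ℕ)
    (f : Fin r → MvPolynomial (Fin N) ℂ) (hr : 0 < r) (hw : ∀ i, 0 < w i) (hd : ∀ j, 0 < d j)
    (ho : ∀ j m, coeff m (f j) ≠ 0 → d j ≤ ∑ i, m i * w i) (hi : ∀ j, ini w d f j ≠ 0)
    (hs : ∀ c, c ≠ 0 → ∀ e, (∀ j, d j ≤ e → eval c (ini w d f j) = 0) →
      SmoothS (trnS w d f e) c) (s₀ : ℚ)
    (hp : ∀ c, c ≠ 0 → ∀ e, Jump d (ini w d f) c e →
      s₀ = -((pn w d (ini w d f) c e + e * (rk d (ini w d f) c (e - 1) : ℤ) : ℤ) : ℚ) / e →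
      (e : ℤ) ∣ pn w d (ini w d f) c e ∨ CurveAt d (ini w d f) e ∨
      FinVis w d (ini w d f) e (pn w d (ini w d f) c e) ∨
      Eig χ w d (ini w d f) (Complex.exp (2 * Real.pi * Complex.I * s₀)))
    (hpole : IsPole (Zmot (Ideal.span (Set.range f))) s₀) (ε : ℝ) (hε : 0 < ε) :
    ∃ p : Fin N → ℂ, ‖p‖ < ε ∧ (∀ g ∈ Ideal.span (Set.range f), eval p g = 0) ∧
      ∃ y : ConePoint (Ideal.span (Set.range f)) p, y.Nonzero ∧
        ∃ Z, IsZeta (fun m => χ (cls (contactArcs (Ideal.span (Set.range f)) p y m))) Z ∧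
          ZeroOrPole Z (Complex.exp (2 * Real.pi * Complex.I * s₀)) := by
  have hW : SWt w d f := ⟨hw, hd, ho, hi⟩
  have hS : Smo w d f := hs
  have hF : Wt w d (ini w d f) := wt_ini hW
  have hne : ∃ j, ini w d f j ≠ 0 := ⟨⟨0, hr⟩, hi _⟩
  have hE : ∀ lam, Eig χ w d (ini w d f) lam → CN.Near χ (Ideal.span (Set.range f)) 0 lam :=
    fun lam h ε hε => ⟨0, by simpa using hε, vis_of_eigS hχ hW hS h⟩
  have h1 : CN.Near χ (Ideal.span (Set.range f)) 0 1 := by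
    by_cases hV : ∀ x : Fin N → ℂ, (∀ j, eval x (ini w d f j) = 0) → x = 0
    · exact hE 1 (eig_one hχ hF (sm1_pos hF hne) hV)
    · push Not at hV
      obtain ⟨c, hc, hc0⟩ := hV
      exact near_one_of_zeroS hχ hW hS hr hc0 hc
  have hn : CN.Near χ (Ideal.span (Set.range f)) 0 (CN.expo s₀) := by
    by_contra hn
    apply hpole
    rw [zmot_ini hW hS]
    refine polar_of_not_jump hF hne (smooth_ini hW hS) s₀ (fun c hc e hJ heq => hn ?_)
      (fun z hz => hn ?_)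
    · have he := sm1_jump_pos hd hJ
      have h2 := sm1_expo e (pn w d (ini w d f) c e) (rk d (ini w d f) c (e - 1)) he
      rw [heq] at h2
      rcases hp c hc e hJ heq.symm with h | h | h | h
      · rw [h2, sm1_exp e _ he h]
        exact h1
      · rw [h2]
        exact hE _ (eig_of_finVis χ hF (finVis_of_curve hF hc hJ h))
      · rw [h2]
        exact hE _ (eig_of_finVis χ hF h)
      · exact hE _ h
    · have h2 : CN.expo s₀ = 1 := by
        rw [CN.expo, ← hz]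
        have e1 : 2 * Real.pi * Complex.I * (((z : ℚ)) : ℂ) =
            (z : ℂ) * (2 * Real.pi * Complex.I) := by
          push_cast
          ring
        rw [e1, Complex.exp_int_mul_two_pi_mul_I]
      rw [h2]
      exact h1
  obtain ⟨p, hp', hv⟩ := hn ε hε
  rw [sub_zero] at hp'
  obtain ⟨h1, y, hy, Z, hZ, hZP⟩ := CN.cone_of_vis hv
  exact ⟨p, hp', h1, y, hy, Z, hZ, hZP⟩

end WH
end MotMono
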