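import Pool.Agent.Lib.MP_4e5fcd_ag.SW.M1

/-!
# SW-N1: eigenvalues of the monodromy of the fibres by the trace formula

The Lefschetz numbers `Λ_m = χ (fibre w d f e y m)` are `∑_A [n_A ∣ m] n_A c_A` with `n_A ∣ e`, so
`∑_{m = 1}^{e} μ^m Λ_m = e ∑_{A, μ^(n_A) = 1} c_A` for `μ^e = 1`; if this is not `0`, then `μ⁻¹` is a
zero or pole of the zeta function.
-/

open MvPolynomial

namespace MotMono
namespace WH

variable {N r : ℕ}

private theorem n1_mono {w : Fin N → ℕ} {g : MvPolynomial (Fin N) ℂ} {e : ℕ}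
    (h : IsWeightedHomogeneous w g e) {x : Fin N → ℂ} (hx : eval x g ≠ 0) :
    ∃ m : Fin N →₀ ℕ, Finsupp.weight w m = e ∧ ∀ i, m i ≠ 0 → x i ≠ 0 := by
  rw [MvPolynomial.eval_eq] at hx
  obtain ⟨m, hm, h1⟩ := Finset.exists_ne_zero_of_sum_ne_zero hx
  refine ⟨m, h (mem_support_iff.1 hm), fun i hi hxi => ?_⟩
  apply h1
  rw [Finset.prod_eq_zero (Finsupp.mem_support_iff.2 hi) (by rw [hxi, zero_pow hi]), mul_zero]

private theorem n1_dvd {w : Fin N → ℕ} {A : Finset (Fin N)} {m : Fin N →₀ ℕ}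
    (h : ∀ i, m i ≠ 0 → i ∈ A) : A.gcd w ∣ Finsupp.weight w m := by
  rw [Finsupp.weight_apply, Finsupp.sum]
  refine Finset.dvd_sum fun i hi => ?_
  rw [smul_eq_mul]
  exact Dvd.dvd.mul_left (Finset.gcd_dvd (h i (Finsupp.mem_support_iff.1 hi))) _

theorem zeta_data {χ : K0 →+* ℤ} (hχ : IsEulerCharF χ) {w : Fin N → ℕ} {d : Fin r → ℕ}
    {f : Fin r → MvPolynomial (Fin N) ℂ} (hW : Wt w d f) (j₀ : Fin r) (y : Fin r → ℂ)
    (hy : y j₀ = 1) :
    ∃ (s : Finset (Finset (Fin N))) (n : Finset (Fin N) → ℕ) (c : Finset (Fin N) → ℤ),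
      (∀ A ∈ s, 0 < n A ∧ n A ∣ d j₀) ∧ ∀ m, 0 < m →
        χ (cls (fibre w d f (d j₀) y m)) = ∑ A ∈ s, if n A ∣ m then c A * n A else 0 := by
  classical
  choose uA huA using exists_bezout w
  have he : 0 < d j₀ := hW.d_pos j₀
  set FA : Finset (Fin N) → Set (Fin N → ℂ) := fun A => {x | x ∈ TA A ∧
    (∀ j, d j < d j₀ → eval x (f j) = 0) ∧ ∀ j, d j = d j₀ → eval x (f j) = y j} with hFA
  have hFAc : ∀ A, Constr (FA A) := by
    intro A
    have h1 : FA A = TA A ∩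
        ((⋂ j ∈ Finset.univ.filter (fun j => d j < d j₀), {x | eval x (f j) = 0}) ∩
        (⋂ j ∈ Finset.univ.filter (fun j => d j = d j₀), {x | eval x (f j) = eval x (C (y j))})) := by
      ext x
      simp only [hFA, Set.mem_ofPred_eq, Set.mem_inter_iff, Set.mem_iInter, Finset.mem_filter,
        Finset.mem_univ, true_and, eval_C]
    rw [h1]
    exact (constr_TA A).inter ((constr_biInter_finset _ fun j _ => Constr.zeroSet (f j)).inter
      (constr_biInter_finset _ fun j _ => constr_eq _ _))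
  have h1 : ∀ A, A.Nonempty → ((A.gcd w : ℕ) : ℤ) * χ (cls (FA A)) =
      (d j₀ : ℤ) * χ (cls (QA d f A (uA A) (d j₀) y j₀)) := fun A hA =>
    chi_fibre_TA hχ hW hA (huA A) (d j₀) y j₀ rfl hy
  have hg : ∀ A : Finset (Fin N), A.Nonempty → 0 < A.gcd w := by
    rintro A ⟨i, hi⟩
    exact Nat.pos_of_dvd_of_pos (Finset.gcd_dvd hi) (hW.w_pos i)
  have hdv : ∀ A : Finset (Fin N), (FA A).Nonempty → A.gcd w ∣ d j₀ := by
    rintro A ⟨x, hx⟩
    have h2 : eval x (f j₀) ≠ 0 := by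
      rw [hx.2.2 j₀ rfl, hy]
      exact one_ne_zero
    obtain ⟨m, hm1, hm2⟩ := n1_mono (hW.hom j₀) h2
    rw [← hm1]
    exact n1_dvd fun i hi => (hx.1 i).1 (hm2 i hi)
  set s : Finset (Finset (Fin N)) := Finset.univ.filter fun A => A.Nonempty ∧ A.gcd w ∣ d j₀ with hs
  have hn : ∀ A ∈ s, 0 < d j₀ / A.gcd w ∧ d j₀ / A.gcd w ∣ d j₀ := by
    intro A hA
    rw [hs, Finset.mem_filter] at hA
    exact ⟨Nat.div_pos (Nat.le_of_dvd he hA.2.2) (hg A hA.2.1), Nat.div_dvd_of_dvd hA.2.2⟩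
  have hFQ : ∀ A ∈ s, χ (cls (FA A)) = χ (cls (QA d f A (uA A) (d j₀) y j₀)) * ((d j₀ / A.gcd w : ℕ) : ℤ) := by
    intro A hA
    rw [hs, Finset.mem_filter] at hA
    have h2 := h1 A hA.2.1
    have h3 : (d j₀ : ℤ) = ((A.gcd w : ℕ) : ℤ) * ((d j₀ / A.gcd w : ℕ) : ℤ) := by
      exact_mod_cast (Nat.mul_div_cancel' hA.2.2).symm
    rw [h3, mul_assoc] at h2
    have h4 : ((A.gcd w : ℕ) : ℤ) ≠ 0 := by exact_mod_cast (hg A hA.2.1).ne'
    rw [mul_left_cancel₀ h4 h2]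
    ring
  refine ⟨s, fun A => d j₀ / A.gcd w, fun A => χ (cls (QA d f A (uA A) (d j₀) y j₀)), hn, ?_⟩
  intro m hm
  have h2 : fibre w d f (d j₀) y m = ⋃ A ∈ s.filter (fun A => d j₀ ∣ m * A.gcd w), FA A := by
    ext x
    simp only [Set.mem_iUnion, exists_prop]
    constructor
    · rintro ⟨h3, h4, h5⟩
      have h6 : eval x (f j₀) ≠ 0 := by
        rw [h4 j₀ rfl, hy]
        exact one_ne_zero
      obtain ⟨k, hk1, hk2⟩ := n1_mono (hW.hom j₀) h6
      have hxA : x ∈ TA (Finset.univ.filter fun i => x i ≠ 0) := by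
        intro i
        simp
      have hne : (Finset.univ.filter fun i => x i ≠ 0).Nonempty := by
        by_contra h7
        rw [Finset.not_nonempty_iff_eq_empty] at h7
        have h8 : k = 0 := by
          ext i
          by_contra h9
          have h10 : i ∈ Finset.univ.filter fun i => x i ≠ 0 :=
            Finset.mem_filter.2 ⟨Finset.mem_univ _, hk2 i h9⟩
          rw [h7] at h10
          exact Finset.notMem_empty _ h10
        rw [h8, map_zero] at hk1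
        omega
      refine ⟨Finset.univ.filter fun i => x i ≠ 0, ?_, hxA, h3, h4⟩
      rw [Finset.mem_filter, hs, Finset.mem_filter]
      refine ⟨⟨Finset.mem_univ _, hne, hdv _ ⟨x, hxA, h3, h4⟩⟩, ?_⟩
      have h7 : (Finset.univ.filter fun i => x i ≠ 0).gcd (fun i => m * w i) =
          normalize m * (Finset.univ.filter fun i => x i ≠ 0).gcd w := Finset.gcd_mul_left
      have h8 : (normalize m : ℕ) = m := normalize_eq _
      rw [h8] at h7
      rw [← h7]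
      refine Finset.dvd_gcd fun i hi => ?_
      by_contra h9
      exact (Finset.mem_filter.1 hi).2 (h5 i h9)
    · rintro ⟨A, hA, hxA, h3, h4⟩
      rw [Finset.mem_filter] at hA
      refine ⟨h3, h4, fun i hi => ?_⟩
      by_contra h5
      apply hi
      exact hA.2.trans (Nat.mul_dvd_mul_left m (Finset.gcd_dvd ((hxA i).1 h5)))
  rw [h2, cls_biUnion _ (fun A _ => hFAc A), map_sum, Finset.sum_filter]
  · refine Finset.sum_congr rfl fun A hA => ?_
    have h3 : (d j₀ ∣ m * A.gcd w) ↔ d j₀ / A.gcd w ∣ m := by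
      rw [hs, Finset.mem_filter] at hA
      have h4 := (Nat.mul_div_cancel' hA.2.2).symm
      constructor
      · intro h5
        rw [h4, mul_comm m] at h5
        exact Nat.dvd_of_mul_dvd_mul_left (hg A hA.2.1) h5
      · intro h5
        rw [h4, mul_comm m]
        exact Nat.mul_dvd_mul_left _ h5
    by_cases h4 : d j₀ ∣ m * A.gcd w
    · rw [if_pos h4, if_pos (h3.1 h4)]
      exact hFQ A hA
    · rw [if_neg h4, if_neg fun h5 => h4 (h3.2 h5)]
  · intro A _ B _ hAB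
    rw [Set.disjoint_left]
    rintro x ⟨h3, -⟩ ⟨h4, -⟩
    apply hAB
    ext i
    rw [← h3 i, ← h4 i]

/-- the sum of the powers `μ^m` over the multiples `m ≤ e` of `n ∣ e` -/
private theorem n1_sum {e n : ℕ} (he : 0 < e) (hn : 0 < n) (hd : n ∣ e) {μ : ℂ} (hμ : μ ^ e = 1) :
    (∑ m ∈ Finset.Icc 1 e, if n ∣ m then μ ^ m else 0) = if μ ^ n = 1 then ((e / n : ℕ) : ℂ) else 0 := by
  obtain ⟨k, rfl⟩ := hd
  have hk : 0 < k := Nat.pos_of_mul_pos_left he
  have h1 : (∑ m ∈ Finset.Icc 1 (n * k), if n ∣ m then μ ^ m else 0) =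
      ∑ a ∈ Finset.range k, (μ ^ n) ^ (a + 1) := by
    rw [← Finset.sum_filter]
    symm
    refine Finset.sum_bij (fun a _ => n * (a + 1)) ?_ ?_ ?_ ?_
    · intro a ha
      rw [Finset.mem_range] at ha
      rw [Finset.mem_filter, Finset.mem_Icc]
      refine ⟨⟨Nat.mul_pos hn (Nat.succ_pos a), Nat.mul_le_mul_left n ha⟩, Dvd.intro _ rfl⟩
    · intro a _ b _ hab
      have := Nat.eq_of_mul_eq_mul_left hn hab
      omega
    · intro m hm
      rw [Finset.mem_filter, Finset.mem_Icc] at hm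
      obtain ⟨⟨h1, h2⟩, b, rfl⟩ := hm
      have hb : 0 < b := Nat.pos_of_mul_pos_left h1
      have hb2 : b ≤ k := Nat.le_of_mul_le_mul_left h2 hn
      exact ⟨b - 1, Finset.mem_range.2 (by omega), by congr 1; omega⟩
    · intro a _
      rw [pow_mul]
  rw [h1, Nat.mul_div_cancel_left k hn]
  by_cases h2 : μ ^ n = 1
  · rw [if_pos h2, h2]
    simp
  · rw [if_neg h2]
    have h3 : ∑ a ∈ Finset.range k, (μ ^ n) ^ (a + 1) =
        (∑ a ∈ Finset.range k, (μ ^ n) ^ a) * μ ^ n := by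
      rw [Finset.sum_mul]
      exact Finset.sum_congr rfl fun a _ => pow_succ _ _
    rw [h3, geom_sum_eq h2, ← pow_mul, hμ, sub_self, zero_div, zero_mul]

private theorem n1_eig1 {χ : K0 →+* ℤ} (hχ : IsEulerCharF χ) {w : Fin N → ℕ} {d : Fin r → ℕ}
    {f : Fin r → MvPolynomial (Fin N) ℂ} (hW : Wt w d f) (j₀ : Fin r) (y : Fin r → ℂ)
    (hy : y j₀ = 1) {μ : ℂ} (hμ : μ ^ d j₀ = 1)
    (hS : ∑ m ∈ Finset.Icc 1 (d j₀), μ ^ m * (χ (cls (fibre w d f (d j₀) y m)) : ℂ) ≠ 0) :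
    ∃ Z, IsZeta (fun m => χ (cls (fibre w d f (d j₀) y m))) Z ∧ ZeroOrPole Z μ⁻¹ := by
  classical
  obtain ⟨s, n, c, hn, hΛ⟩ := zeta_data hχ hW j₀ y hy
  have he : 0 < d j₀ := hW.d_pos j₀
  refine Kum.exists_zeta_prod s n c (fun A hA => (hn A hA).1) _ hΛ μ⁻¹ ?_
  intro h0
  apply hS
  have h1 : ∀ m ∈ Finset.Icc 1 (d j₀), μ ^ m * (χ (cls (fibre w d f (d j₀) y m)) : ℂ) =
      ∑ A ∈ s, ((c A : ℂ) * (n A : ℂ)) * (if n A ∣ m then μ ^ m else 0) := by
    intro m hm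
    rw [hΛ m (Finset.mem_Icc.1 hm).1]
    push_cast
    rw [Finset.mul_sum]
    refine Finset.sum_congr rfl fun A _ => ?_
    by_cases h : n A ∣ m
    · rw [if_pos h, if_pos h]
      ring
    · rw [if_neg h, if_neg h]
      ring
  rw [Finset.sum_congr rfl h1, Finset.sum_comm]
  have h2 : ∀ A ∈ s, ∑ m ∈ Finset.Icc 1 (d j₀), ((c A : ℂ) * (n A : ℂ)) * (if n A ∣ m then μ ^ m else 0) =
      (d j₀ : ℂ) * (if (μ⁻¹) ^ n A = 1 then (c A : ℂ) else 0) := by
    intro A hA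
    rw [← Finset.mul_sum, n1_sum he (hn A hA).1 (hn A hA).2 hμ]
    have h3 : (μ⁻¹) ^ n A = 1 ↔ μ ^ n A = 1 := by
      rw [inv_pow, inv_eq_one]
    have h4 : (n A : ℂ) * ((d j₀ / n A : ℕ) : ℂ) = (d j₀ : ℂ) := by
      exact_mod_cast Nat.mul_div_cancel' (hn A hA).2
    by_cases h : μ ^ n A = 1
    · rw [if_pos h, if_pos (h3.2 h), mul_assoc, h4]
      ring
    · rw [if_neg h, if_neg fun h5 => h (h3.1 h5)]
      ring
  rw [Finset.sum_congr rfl h2, ← Finset.mul_sum, ← Finset.sum_filter]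
  have h3 : (∑ A ∈ s.filter (fun A => (μ⁻¹) ^ n A = 1), (c A : ℂ)) =
      ((∑ A ∈ s.filter (fun A => (μ⁻¹) ^ n A = 1), c A : ℤ) : ℂ) := by
    push_cast
    rfl
  rw [h3, h0]
  simp

private theorem n1_constr (w : Fin N → ℕ) (d : Fin r → ℕ) (f : Fin r → MvPolynomial (Fin N) ℂ)
    (e : ℕ) (y : Fin r → ℂ) (m : ℕ) : Constr (fibre w d f e y m) := by
  classical
  have h1 : fibre w d f e y m =
      (⋂ j ∈ Finset.univ.filter (fun j => d j < e), {x | eval x (f j) = 0}) ∩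
        ((⋂ j ∈ Finset.univ.filter (fun j => d j = e), {x | eval x (f j) = eval x (C (y j))}) ∩
        (⋂ i ∈ Finset.univ.filter (fun i => ¬ e ∣ m * w i),
          {x | eval x (X i : MvPolynomial (Fin N) ℂ) = 0})) := by
    ext x
    simp only [fibre, Set.mem_ofPred_eq, Set.mem_inter_iff, Set.mem_iInter, Finset.mem_filter,
      Finset.mem_univ, true_and, eval_C, eval_X]
  rw [h1]
  exact (constr_biInter_finset _ fun j _ => Constr.zeroSet (f j)).inter
    ((constr_biInter_finset _ fun j _ => constr_eq _ _).inter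
      (constr_biInter_finset _ fun i _ => Constr.zeroSet (X i)))

private theorem n1_hom {w : Fin N → ℕ} {e : ℕ} {f : MvPolynomial (Fin N) ℂ}
    (hf : IsWeightedHomogeneous w f e) (s : ℂ) (x : Fin N → ℂ) :
    eval (fun i => s ^ w i * x i) f = s ^ e * eval x f := by
  rw [eval_eq', eval_eq', Finset.mul_sum]
  refine Finset.sum_congr rfl fun m hm => ?_
  have h1 : Finsupp.weight w m = e := hf (mem_support_iff.1 hm)
  have h2 : ∑ i, m i * w i = e := by
    rw [← h1, Finsupp.weight_apply]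
    exact (Finsupp.sum_fintype m (fun i c => c • w i) (fun i => zero_smul ℕ (w i))).symm
  have h3 : ∏ i, (s ^ w i * x i) ^ m i = s ^ e * ∏ i, x i ^ m i := by
    rw [← h2, ← Finset.prod_pow_eq_pow_sum, ← Finset.prod_mul_distrib]
    refine Finset.prod_congr rfl fun i _ => ?_
    rw [mul_pow, ← pow_mul, mul_comm (w i)]
  rw [h3]
  ring

private theorem n1_maps {w : Fin N → ℕ} {d : Fin r → ℕ} {f : Fin r → MvPolynomial (Fin N) ℂ}
    (hW : Wt w d f) (t : ℂ) (e : ℕ) (y : Fin r → ℂ) (m : ℕ) {x : Fin N → ℂ}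
    (hx : x ∈ fibre w d f e y m) :
    (fun i => t ^ w i * x i) ∈ fibre w d f e (fun j => t ^ e * y j) m := by
  refine ⟨fun j hj => ?_, fun j hj => ?_, fun i hi => ?_⟩
  · rw [n1_hom (hW.hom j), hx.1 j hj, mul_zero]
  · rw [n1_hom (hW.hom j), hx.2.1 j hj, hj]
  · show t ^ w i * x i = 0
    rw [hx.2.2 i hi, mul_zero]

private theorem n1_scale {w : Fin N → ℕ} {d : Fin r → ℕ} {f : Fin r → MvPolynomial (Fin N) ℂ}
    (hW : Wt w d f) {t : ℂ} (ht : t ≠ 0) (e : ℕ) (y : Fin r → ℂ) (m : ℕ) :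
    cls (fibre w d f e (fun j => t ^ e * y j) m) = cls (fibre w d f e y m) := by
  symm
  refine cls_iso (n1_constr w d f e y m) (n1_constr w d f e _ m) ?_
  refine ⟨fun x i => t ^ w i * x i, fun x i => (t⁻¹) ^ w i * x i, ?_, ?_, ?_, ?_, ?_, ?_⟩
  · intro i
    refine ⟨C (t ^ w i) * X i, 1, fun x _ => ⟨by simp, by simp⟩⟩
  · intro i
    refine ⟨C ((t⁻¹) ^ w i) * X i, 1, fun x _ => ⟨by simp, by simp⟩⟩
  · intro x hx
    exact n1_maps hW t e y m hx
  · intro x hx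
    have h := n1_maps hW t⁻¹ e _ m hx
    have h1 : (fun j => (t⁻¹) ^ e * (t ^ e * y j)) = y := by
      funext j
      rw [← mul_assoc, ← mul_pow, inv_mul_cancel₀ ht, one_pow, one_mul]
    rwa [h1] at h
  · intro x _
    funext i
    show (t⁻¹) ^ w i * (t ^ w i * x i) = x i
    rw [← mul_assoc, ← mul_pow, inv_mul_cancel₀ ht, one_pow, one_mul]
  · intro x _
    funext i
    show t ^ w i * ((t⁻¹) ^ w i * x i) = x i
    rw [← mul_assoc, ← mul_pow, mul_inv_cancel₀ ht, one_pow, one_mul]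

/-- If `∑_{m = 1}^{e} μ^m χ (X_m) ≠ 0`, then `μ⁻¹` is a zero or pole of the zeta function of the
monodromy of the fibre `X`. -/
theorem eig_of_sum {χ : K0 →+* ℤ} (hχ : IsEulerCharF χ) {w : Fin N → ℕ} {d : Fin r → ℕ}
    {f : Fin r → MvPolynomial (Fin N) ℂ} (hW : Wt w d f) {e : ℕ} {y : Fin r → ℂ}
    (hy : ∃ j, d j = e ∧ y j ≠ 0) {μ : ℂ} (hμ : μ ^ e = 1)
    (hS : ∑ m ∈ Finset.Icc 1 e, μ ^ m * (χ (cls (fibre w d f e y m)) : ℂ) ≠ 0) :
    Eig χ w d f μ⁻¹ := by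
  obtain ⟨j₀, rfl, hj⟩ := hy
  have he : 0 < d j₀ := hW.d_pos j₀
  obtain ⟨t, ht⟩ := IsAlgClosed.exists_pow_nat_eq ((y j₀)⁻¹) he
  have ht0 : t ≠ 0 := by
    intro h
    rw [h, zero_pow he.ne'] at ht
    exact inv_ne_zero hj ht.symm
  have h1 : ∀ m, χ (cls (fibre w d f (d j₀) (fun j => t ^ d j₀ * y j) m)) =
      χ (cls (fibre w d f (d j₀) y m)) := fun m => by rw [n1_scale hW ht0]
  refine ⟨d j₀, fun j => t ^ d j₀ * y j, ⟨j₀, rfl, ?_⟩, ?_⟩
  · show t ^ d j₀ * y j₀ ≠ 0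
    rw [ht, inv_mul_cancel₀ hj]
    exact one_ne_zero
  · refine n1_eig1 hχ hW j₀ _ ?_ hμ ?_
    · show t ^ d j₀ * y j₀ = 1
      rw [ht, inv_mul_cancel₀ hj]
    · intro h
      apply hS
      rw [← h]
      exact Finset.sum_congr rfl fun m _ => by rw [h1]

end WH
end MotMono
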