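import Pool.Agent.Lib.MP_4e5fcd_ag.SW.B2
import Pool.Agent.Lib.MP_4e5fcd_ag.SW.B3

/-!
# SW-V1a: contact jets in a sector

Let `c = lead w M h γ ≠ 0`, `F = ini w d f`, `γ ∈ CAn d f e y m n`, `y j₀ ≠ 0`, `d j₀ = e`.
`E ≤ dmax d`: for `j` with `d j = E`, `F j (c) ≠ 0`: `M ∣ h E` (`not_dvd_lead`), and the coefficient
`h E / M` of `f j` along `γ` is `F j (c) ≠ 0` (`eq_coeffS`), so `m M ≤ h E`; and if `m M < h E` then the
coefficients `l ≤ m` of all `f j` with `d j ≥ E` vanish (`low_coeffS`).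
`CA_lt` (`E < e`): `h e > h E ≥ m M`, so the coefficient `m` of `f j₀` is `0 ≠ y j₀`.
`CA_eq` (`E = e`): if `m M < h e` the same contradiction, so `h e = m M` and the coefficient `m` of
`f j` with `d j = e` is `F j (c) = y j`. The `b ∈ B` have `d b < e`: coefficients `l ≤ m` vanish.
Conversely: `d j > e`: `low_coeffS`; `d j = e`: `low_coeffS`, `eq_coeffS`; `d j < e`: `GenS` and
`gen_coeff` with `m + 1` instead of `m`; base point: `Low`.
`CA_gt` (`e < E`): if `E ≤ dmax d` and `m M = h E`: the coefficient `m` of an `f j` with `d j = E` is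
`F j (c) ≠ 0`, but should be `0` (`d j = E ≠ e`). So `m M < h E`. `Cnd`: for `d j = e`: `GenS`:
`g * dfm (f j) = ∑ a_b dfm (f b)` (`b ∈ B`, `a_b = 0` for `d b > d j`), `gen_coeff`:
`g(0,c) y j = ∑_{d b = e} a_b(0,c) y b`, and
`g(0,c) grad (F j) c = ∑ a_b(0,c) grad (F b) c` (`xgrad` of the relation: `eval` of
`dfm (f j)`, `dfm (f b)` at `(0, c)` is `0`; `xgrad_dfm`), so
`agrad (F j) (y j) c = ∑ (a_b/g)(0,c) agrad (F b) (if d b = e then y b else 0) c`. Conversely: `d j ≥ E`:
`low_coeffS`; `d j < E`, `d j ≠ e`: `gen_coeff`: the coefficient `m` is `0` since the ones of the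
`f b`, `d b = d j`, are `0`; `d j = e`: `gen_coeff` gives the coefficient `m` as
`∑_{d b = e} (a_b/g)(0,c) y b`, and `Cnd` with the independence of the `grad (F b) c`, `b ∈ B`, shows
that this is `y j`.
-/

open MvPolynomial

namespace MotMono
namespace WH

variable {N r : ℕ}

variable {w : Fin N → ℕ} {d : Fin r → ℕ} {f : Fin r → MvPolynomial (Fin N) ℂ}

private theorem V1a_span {R X : Type*} [CommRing R] [AddCommGroup X] [Module R X]
    (B : Finset (Fin r)) (P : Fin r → Prop) (A : Fin r → X) {v : X}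
    (hv : v ∈ Submodule.span R {v | ∃ b ∈ B, P b ∧ v = A b}) :
    ∃ μ : Fin r → R, (∀ b ∈ B, ¬ P b → μ b = 0) ∧ v = ∑ b ∈ B, μ b • A b := by
  classical
  refine Submodule.span_induction ?_ ?_ ?_ ?_ hv
  · rintro _ ⟨b, hb, hPb, rfl⟩
    refine ⟨fun b' => if b' = b then 1 else 0, fun b' _ hn => ?_, ?_⟩
    · have : b' ≠ b := fun h => hn (h ▸ hPb)
      simp [this]
    · rw [Finset.sum_eq_single b]
      · simp
      · intro b' _ hne
        simp [hne]
      · intro h
        exact absurd hb h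
  · exact ⟨fun _ => 0, fun _ _ _ => rfl, by simp⟩
  · rintro x y _ _ ⟨μ, hμ, rfl⟩ ⟨ν, hν, rfl⟩
    refine ⟨fun b => μ b + ν b, fun b hb hn => ?_, ?_⟩
    · show μ b + ν b = 0
      rw [hμ b hb hn, hν b hb hn, add_zero]
    · rw [← Finset.sum_add_distrib]
      exact Finset.sum_congr rfl fun b _ => (add_smul _ _ _).symm
  · rintro a x _ ⟨μ, hμ, rfl⟩
    refine ⟨fun b => a * μ b, fun b hb hn => ?_, ?_⟩
    · show a * μ b = 0
      rw [hμ b hb hn, mul_zero]
    · rw [Finset.smul_sum]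
      exact Finset.sum_congr rfl fun b _ => (mul_smul _ _ _).symm

private theorem V1a_mem {R X : Type*} [CommRing R] [AddCommGroup X] [Module R X]
    (B : Finset (Fin r)) (P : Fin r → Prop) (A : Fin r → X) (μ : Fin r → R)
    (hμ : ∀ b ∈ B, ¬ P b → μ b = 0) :
    ∑ b ∈ B, μ b • A b ∈ Submodule.span R {v | ∃ b ∈ B, P b ∧ v = A b} := by
  classical
  refine Submodule.sum_mem _ fun b hb => ?_
  by_cases hP : P b
  · exact Submodule.smul_mem _ _ (Submodule.subset_span ⟨b, hb, hP, rfl⟩)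
  · rw [hμ b hb hP, zero_smul]
    exact Submodule.zero_mem _

/-- the relation given by `GenS` -/
private theorem V1a_rel {c : Fin N → ℂ} {E : ℕ} {B : Finset (Fin r)} (hG : GenS w d f c E B)
    {j : Fin r} (hj : d j < E) :
    ∃ (g : MvPolynomial (Fin (N + 1)) ℂ) (a : Fin r → MvPolynomial (Fin (N + 1)) ℂ),
      eval (Fin.cons 0 c : Fin (N + 1) → ℂ) g ≠ 0 ∧ (∀ b ∈ B, d j < d b → a b = 0) ∧
      g * dfm w (d j) (f j) = ∑ b ∈ B, a b * dfm w (d b) (f b) := by
  obtain ⟨g, hg, hm⟩ := hG j hj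
  obtain ⟨a, ha, hs⟩ := V1a_span B (fun b => d b ≤ d j) (fun b => dfm w (d b) (f b)) hm
  exact ⟨g, a, hg, fun b hb hlt => ha b hb (not_le.2 hlt), hs⟩

private theorem V1a_xgrad_mul (p q : MvPolynomial (Fin (N + 1)) ℂ) (c : Fin N → ℂ) :
    xgrad (p * q) c = eval (Fin.cons 0 c : Fin (N + 1) → ℂ) p • xgrad q c +
      eval (Fin.cons 0 c : Fin (N + 1) → ℂ) q • xgrad p c := by
  funext i
  simp only [xgrad, Derivation.leibniz, smul_eq_mul, map_add, map_mul, Pi.add_apply, Pi.smul_apply]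

private theorem V1a_xgrad_sum {ι : Type*} (s : Finset ι) (F : ι → MvPolynomial (Fin (N + 1)) ℂ)
    (c : Fin N → ℂ) : xgrad (∑ k ∈ s, F k) c = ∑ k ∈ s, xgrad (F k) c := by
  funext i
  simp only [xgrad, map_sum, Finset.sum_apply]

/-- the relation between the gradients -/
private theorem V1a_grad (hW : SWt w d f) {c : Fin N → ℂ} {E : ℕ} {B : Finset (Fin r)}
    (hA : Adm d (ini w d f) c E B) {j : Fin r} (hj : d j < E) {g : MvPolynomial (Fin (N + 1)) ℂ}
    {a : Fin r → MvPolynomial (Fin (N + 1)) ℂ}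
    (hr : g * dfm w (d j) (f j) = ∑ b ∈ B, a b * dfm w (d b) (f b)) :
    eval (Fin.cons 0 c : Fin (N + 1) → ℂ) g • grad (ini w d f j) c =
      ∑ b ∈ B, eval (Fin.cons 0 c : Fin (N + 1) → ℂ) (a b) • grad (ini w d f b) c := by
  have h0 : ∀ i, d i < E → eval (Fin.cons 0 c : Fin (N + 1) → ℂ) (dfm w (d i) (f i)) = 0 := by
    intro i hi
    rw [eval_dfm w (d i) (f i) (hW.ord i)]
    exact hA.van i hi
  have h1 := congrArg (fun p => xgrad p c) hr
  simp only [V1a_xgrad_sum, V1a_xgrad_mul] at h1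
  rw [h0 j hj, zero_smul, add_zero, xgrad_dfm w (d j) (f j) (hW.ord j)] at h1
  refine h1.trans (Finset.sum_congr rfl fun b hb => ?_)
  rw [h0 b (hA.lt b hb), zero_smul, add_zero, xgrad_dfm w (d b) (f b) (hW.ord b)]
  rfl

/-- the coefficient at the top degree -/
private theorem V1a_top (hW : SWt w d f) {M h n : ℕ} (hM : 0 < M) (hh : 1 ≤ h)
    (hn : ∀ i, h * w i < (n + 1) * M) {γ : Fin N × Fin (n + 1) → ℂ} (hL : Low w M h γ)
    {E : ℕ} {B : Finset (Fin r)} (hA : Adm d (ini w d f) (lead w M h γ) E B)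
    (hE : E ≤ dmax d) : ∃ j l, d j = E ∧ l * M = h * E ∧ (along (f j) γ).coeff l ≠ 0 := by
  obtain ⟨j, hdj, hne⟩ := hA.top hE
  have hdvd : M ∣ h * d j := by
    by_contra hnd
    exact hne (not_dvd_lead ((wt_ini hW).hom j) hM _ (lead_mem w M h γ) hnd)
  obtain ⟨l, hl⟩ := hdvd
  have hl' : l * M = h * d j := by rw [hl, Nat.mul_comm]
  refine ⟨j, l, hdj, by rw [hl', hdj], ?_⟩
  rw [eq_coeffS (hW.ord j) hM hh hn γ hL l hl']
  exact hne

private theorem V1a_le (hW : SWt w d f) {M h n m : ℕ} (hM : 0 < M) (hh : 1 ≤ h)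
    (hn : ∀ i, h * w i < (n + 1) * M) {γ : Fin N × Fin (n + 1) → ℂ} (hL : Low w M h γ)
    {E : ℕ} {B : Finset (Fin r)} (hA : Adm d (ini w d f) (lead w M h γ) E B) {e : ℕ}
    {y : Fin r → ℂ} (hE : E ≤ dmax d) (hγ : γ ∈ CAn d f e y m n) : m * M ≤ h * E := by
  obtain ⟨j, l, -, hl, hne⟩ := V1a_top hW hM hh hn hL hA hE
  by_contra hcon
  push Not at hcon
  refine hne ((hγ.2 j).1 l ?_)
  rw [← hl] at hcon
  exact Nat.lt_of_mul_lt_mul_right hcon

private theorem V1a_dmax (j : Fin r) : d j ≤ dmax d :=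
  Finset.single_le_sum (f := d) (fun _ _ => Nat.zero_le _) (Finset.mem_univ j)

private theorem V1a_base (hW : SWt w d f) {M h n : ℕ} (hh : 1 ≤ h)
    {γ : Fin N × Fin (n + 1) → ℂ} (hL : Low w M h γ) (i : Fin N) : γ (i, 0) = 0 := by
  refine hL i 0 ?_
  rw [Fin.val_zero, Nat.zero_mul]
  exact Nat.mul_pos hh (hW.w_pos i)

theorem CA_lt (hW : SWt w d f) {M h n m : ℕ} (hM : 0 < M) (hh : 1 ≤ h)
    (hn : ∀ i, h * w i < (n + 1) * M) {γ : Fin N × Fin (n + 1) → ℂ} (hL : Low w M h γ)
    {E : ℕ} {B : Finset (Fin r)} (hA : Adm d (ini w d f) (lead w M h γ) E B) {e : ℕ}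
    {y : Fin r → ℂ} (hy : ∃ j, d j = e ∧ y j ≠ 0) (hE : E < e) : γ ∉ CAn d f e y m n := by
  intro hγ
  obtain ⟨j₀, hj₀, hy₀⟩ := hy
  have hEd : E ≤ dmax d := by
    have := V1a_dmax (d := d) j₀
    omega
  have h1 := V1a_le hW hM hh hn hL hA hEd hγ
  have h2 : m * M < h * d j₀ := by
    rw [hj₀]
    exact lt_of_le_of_lt h1 (Nat.mul_lt_mul_of_pos_left hE hh)
  have h3 := (hγ.2 j₀).2
  rw [low_coeffS (hW.ord j₀) hM γ hL m h2, if_pos hj₀] at h3
  exact hy₀ h3.symm

theorem CA_eq (hW : SWt w d f) {M h n m : ℕ} (hM : 0 < M) (hh : 1 ≤ h)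
    (hn : ∀ i, h * w i < (n + 1) * M) {γ : Fin N × Fin (n + 1) → ℂ} (hL : Low w M h γ)
    {B : Finset (Fin r)} {e : ℕ} (hA : Adm d (ini w d f) (lead w M h γ) e B)
    (hG : GenS w d f (lead w M h γ) e B) {y : Fin r → ℂ} (hy : ∃ j, d j = e ∧ y j ≠ 0) :
    γ ∈ CAn d f e y m n ↔ h * e = m * M ∧
      (∀ j, d j = e → eval (lead w M h γ) (ini w d f j) = y j) ∧
      ∀ b ∈ B, ∀ l < m + 1, (along (f b) γ).coeff l = 0 := by
  constructor
  · intro hγ
    obtain ⟨j₀, hj₀, hy₀⟩ := hy
    have hEd : e ≤ dmax d := by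
      have := V1a_dmax (d := d) j₀
      omega
    have h1 := V1a_le hW hM hh hn hL hA hEd hγ
    have h2 : h * e = m * M := by
      refine le_antisymm ?_ h1
      by_contra hcon
      push Not at hcon
      have h3 := (hγ.2 j₀).2
      rw [low_coeffS (hW.ord j₀) hM γ hL m (by rw [hj₀]; exact hcon), if_pos hj₀] at h3
      exact hy₀ h3.symm
    refine ⟨h2, fun j hj => ?_, fun b hb l hl => ?_⟩
    · have h3 := (hγ.2 j).2
      rw [eq_coeffS (hW.ord j) hM hh hn γ hL m (by rw [hj, h2]), if_pos hj] at h3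
      exact h3
    · rcases Nat.lt_succ_iff_lt_or_eq.1 hl with h3 | rfl
      · exact (hγ.2 b).1 l h3
      · have h4 := (hγ.2 b).2
        rwa [if_neg (hA.lt b hb).ne] at h4
  · rintro ⟨h2, h3, h4⟩
    refine ⟨V1a_base hW hh hL, fun j => ?_⟩
    rcases lt_trichotomy (d j) e with hj | hj | hj
    · obtain ⟨g, a, hg, ha, hr⟩ := V1a_rel hG hj
      have h5 := (gen_coeff hW hM hh hn γ hL h4 j g hg a ha hr).1
      refine ⟨fun l hl => h5 l (Nat.lt_succ_of_lt hl), ?_⟩
      rw [if_neg hj.ne]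
      exact h5 m (Nat.lt_succ_self m)
    · refine ⟨fun l hl => ?_, ?_⟩
      · refine low_coeffS (hW.ord j) hM γ hL l ?_
        rw [hj, h2]
        exact Nat.mul_lt_mul_of_pos_right hl hM
      · rw [if_pos hj, ← h3 j hj]
        exact eq_coeffS (hW.ord j) hM hh hn γ hL m (by rw [hj, h2])
    · have h5 : ∀ l ≤ m, (along (f j) γ).coeff l = 0 := by
        intro l hl
        refine low_coeffS (hW.ord j) hM γ hL l ?_
        calc l * M ≤ m * M := Nat.mul_le_mul_right _ hl
          _ = h * e := h2.symm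
          _ < h * d j := Nat.mul_lt_mul_of_pos_left hj hh
      refine ⟨fun l hl => h5 l hl.le, ?_⟩
      rw [if_neg hj.ne']
      exact h5 m le_rfl

theorem CA_gt (hW : SWt w d f) {M h n m : ℕ} (hM : 0 < M) (hh : 1 ≤ h)
    (hn : ∀ i, h * w i < (n + 1) * M) {γ : Fin N × Fin (n + 1) → ℂ} (hL : Low w M h γ)
    {E : ℕ} {B : Finset (Fin r)} (hA : Adm d (ini w d f) (lead w M h γ) E B)
    (hG : GenS w d f (lead w M h γ) E B) {e : ℕ} {y : Fin r → ℂ}
    (hy : ∃ j, d j = e ∧ y j ≠ 0) (hE : e < E) :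
    γ ∈ CAn d f e y m n ↔ (E ≤ dmax d → m * M < h * E) ∧
      Cnd d (ini w d f) e y B (lead w M h γ) ∧
      ∀ b ∈ B, ∀ l < m + 1, (along (f b) γ).coeff l =
        if l = m ∧ d b = e then y b else 0 := by
  classical
  constructor
  · intro hγ
    have hcm : ∀ j, (along (f j) γ).coeff m = if d j = e then y j else 0 := fun j => (hγ.2 j).2
    refine ⟨fun hEd => ?_, fun j hj => ?_, fun b hb l hl => ?_⟩
    · have h1 := V1a_le hW hM hh hn hL hA hEd hγ
      refine lt_of_le_of_ne h1 fun h2 => ?_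
      obtain ⟨j, l, hj, hl, hne⟩ := V1a_top hW hM hh hn hL hA hEd
      have h3 : l = m := Nat.eq_of_mul_eq_mul_right hM (hl.trans h2.symm)
      rw [h3, hcm j, if_neg (by omega)] at hne
      exact hne rfl
    · have hjE : d j < E := by omega
      obtain ⟨g, a, hg, ha, hr⟩ := V1a_rel hG hjE
      have h1 := (gen_coeff hW hM hh hn γ hL (fun b _ l hl => (hγ.2 b).1 l hl) j g hg a ha hr).2
      have h2 := V1a_grad hW hA hjE hr
      have h3 : eval (Fin.cons 0 (lead w M h γ) : Fin (N + 1) → ℂ) g * y j =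
          ∑ b ∈ B, eval (Fin.cons 0 (lead w M h γ) : Fin (N + 1) → ℂ) (a b) *
            (if d b = e then y b else 0) := by
        rw [hcm j, if_pos hj] at h1
        rw [h1, Finset.sum_filter]
        refine Finset.sum_congr rfl fun b _ => ?_
        rw [hcm b, hj]
        split_ifs <;> simp
      have h4 : eval (Fin.cons 0 (lead w M h γ) : Fin (N + 1) → ℂ) g •
          agrad (ini w d f j) (y j) (lead w M h γ) =
          ∑ b ∈ B, eval (Fin.cons 0 (lead w M h γ) : Fin (N + 1) → ℂ) (a b) •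
            agrad (ini w d f b) (if d b = e then y b else 0) (lead w M h γ) := by
        refine Prod.ext ?_ ?_
        · rw [Prod.fst_sum]
          exact h2
        · rw [Prod.snd_sum]
          exact h3
      have h5 := V1a_mem B (fun b => d b ≤ e)
        (fun b => agrad (ini w d f b) (if d b = e then y b else 0) (lead w M h γ))
        (fun b => eval (Fin.cons 0 (lead w M h γ) : Fin (N + 1) → ℂ) (a b))
        (fun b hb hlt => by
          rw [ha b hb (by omega), map_zero])
      rw [← h4] at h5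
      exact (Submodule.smul_mem_iff _ hg).1 h5
    · rcases Nat.lt_succ_iff_lt_or_eq.1 hl with h3 | rfl
      · rw [if_neg (by omega)]
        exact (hγ.2 b).1 l h3
      · rw [hcm b]
        simp
  · rintro ⟨h1, h2, h3⟩
    refine ⟨V1a_base hW hh hL, fun j => ?_⟩
    rcases le_or_gt E (d j) with hj | hj
    · have h4 := h1 (hj.trans (V1a_dmax j))
      have h5 : ∀ l ≤ m, (along (f j) γ).coeff l = 0 := by
        intro l hl
        refine low_coeffS (hW.ord j) hM γ hL l ?_
        calc l * M ≤ m * M := Nat.mul_le_mul_right _ hl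
          _ < h * E := h4
          _ ≤ h * d j := Nat.mul_le_mul_left _ hj
      refine ⟨fun l hl => h5 l hl.le, ?_⟩
      rw [if_neg (by omega)]
      exact h5 m le_rfl
    · obtain ⟨g, a, hg, ha, hr⟩ := V1a_rel hG hj
      have hBm : ∀ b ∈ B, ∀ l < m, (along (f b) γ).coeff l = 0 := by
        intro b hb l hl
        rw [h3 b hb l (Nat.lt_succ_of_lt hl), if_neg (by omega)]
      have hcm : ∀ b ∈ B, (along (f b) γ).coeff m = if d b = e then y b else 0 := by
        intro b hb
        rw [h3 b hb m (Nat.lt_succ_self m)]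
        simp
      obtain ⟨h4, h5⟩ := gen_coeff hW hM hh hn γ hL hBm j g hg a ha hr
      refine ⟨h4, ?_⟩
      by_cases hje : d j = e
      · rw [if_pos hje]
        have h6 := V1a_grad hW hA hj hr
        obtain ⟨μ, hμ, hs⟩ := V1a_span B (fun b => d b ≤ e)
          (fun b => agrad (ini w d f b) (if d b = e then y b else 0) (lead w M h γ)) (h2 j hje)
        have hs1 : grad (ini w d f j) (lead w M h γ) =
            ∑ b ∈ B, μ b • grad (ini w d f b) (lead w M h γ) := by
          have := congrArg Prod.fst hs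
          rw [Prod.fst_sum] at this
          exact this
        have hs2 : y j = ∑ b ∈ B, μ b * (if d b = e then y b else 0) := by
          have := congrArg Prod.snd hs
          rw [Prod.snd_sum] at this
          exact this
        have h7 : ∀ b ∈ B, eval (Fin.cons 0 (lead w M h γ) : Fin (N + 1) → ℂ) (a b) =
            eval (Fin.cons 0 (lead w M h γ) : Fin (N + 1) → ℂ) g * μ b := by
          have h8 : ∑ b ∈ B, (eval (Fin.cons 0 (lead w M h γ) : Fin (N + 1) → ℂ) (a b) -
              eval (Fin.cons 0 (lead w M h γ) : Fin (N + 1) → ℂ) g * μ b) •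
                grad (ini w d f b) (lead w M h γ) = 0 := by
            simp only [sub_smul, mul_smul]
            rw [Finset.sum_sub_distrib, ← h6, ← Finset.smul_sum, ← hs1, sub_self]
          have h9 := Fintype.linearIndependent_iff.1 hA.ind
            (fun b => eval (Fin.cons 0 (lead w M h γ) : Fin (N + 1) → ℂ) (a b) -
              eval (Fin.cons 0 (lead w M h γ) : Fin (N + 1) → ℂ) g * μ b) (by
              rw [← h8]
              exact Finset.sum_coe_sort B (fun b =>
                (eval (Fin.cons 0 (lead w M h γ) : Fin (N + 1) → ℂ) (a b) -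
                  eval (Fin.cons 0 (lead w M h γ) : Fin (N + 1) → ℂ) g * μ b) •
                    grad (ini w d f b) (lead w M h γ)))
          intro b hb
          exact sub_eq_zero.1 (h9 ⟨b, hb⟩)
        have h10 : eval (Fin.cons 0 (lead w M h γ) : Fin (N + 1) → ℂ) g *
            (along (f j) γ).coeff m =
            eval (Fin.cons 0 (lead w M h γ) : Fin (N + 1) → ℂ) g * y j := by
          rw [h5, hs2, Finset.mul_sum, Finset.sum_filter]
          refine Finset.sum_congr rfl fun b hb => ?_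
          rw [hcm b hb, h7 b hb, hje]
          split_ifs
          · ring
          · ring
        exact mul_left_cancel₀ hg h10
      · rw [if_neg hje]
        have h6 : eval (Fin.cons 0 (lead w M h γ) : Fin (N + 1) → ℂ) g *
            (along (f j) γ).coeff m = 0 := by
          rw [h5]
          refine Finset.sum_eq_zero fun b hb => ?_
          rw [Finset.mem_filter] at hb
          rw [hcm b hb.1, if_neg (by rw [hb.2]; exact hje), mul_zero]
        exact (mul_eq_zero.1 h6).resolve_left hg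

end WH
end MotMono
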